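import Pool.Agent.V5helper75.RN.Inv

/-!
# Determinants of hermitian matrices in all representations
-/

set_option autoImplicit false
set_option linter.unusedSectionVars false

namespace Pool.Agent.V5helper75.RN

open Finset H219.Wh Pool.Agent.Y72.Log Pool.Agent.Y72.Dt Pool.Agent.R791
open scoped Classical

universe u v

section main

variable {Γ : Type u} [Group Γ] {n d : ℕ}

/-- **Representations with finite image over arbitrary fields** -/
theorem finite_image_sign2 (hs : SepU Γ) (h2 : ∀ g : Γ, g * g = 1 → g = 1) {ε : ℤ}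
    (hε : ε = 1 ∨ ε = -1) (A : (Matrix (Fin n) (Fin n) (MonoidAlgebra ℤ Γ))ˣ)
    (hA : ∀ i j g, (A.val i j).coeff g = ε * (A.val j i).coeff g⁻¹)
    {L : Type v} [Field L] (ρ : Γ →* Matrix (Fin d) (Fin d) L)
    (hρ : (Set.range ρ).Finite) :
    DD ρ A.val = ((DD (trv Γ ℤ) A.val ^ d : ℤ) : L) := by
  let ρu : Γ →* (Matrix (Fin d) (Fin d) L)ˣ := ρ.toHomUnits
  let G := ρu.range
  have hfin : Finite G := by
    have h1 : (Set.range ρu).Finite := by
      apply Set.Finite.of_finite_image (f := Units.val) _ Units.val_injective.injOn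
      apply hρ.subset
      rintro _ ⟨_, ⟨g, rfl⟩, rfl⟩
      exact ⟨g, rfl⟩
    exact h1.to_subtype
  let π : Γ →* G := ρu.rangeRestrict
  let ρG : G →* Matrix (Fin d) (Fin d) L := (Units.coeHom _).comp G.subtype
  have hρG : ρG.comp π = ρ := by
    ext1 g
    rfl
  let B : Matrix (Fin n ⊕ Unit) (Fin n ⊕ Unit) (MonoidAlgebra ℤ Γ) :=
    Matrix.fromBlocks A.val 0 0 (Matrix.of fun _ _ : Unit => MonoidAlgebra.single (1 : Γ) 1)
  have key : ∀ (T : Type _) [CommGroup T] [Finite T] (d' : ℕ)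
      (ρ' : G →* Matrix (Fin d') (Fin d') (MonoidAlgebra ℤ T)),
      (∀ g i j, ρ' g⁻¹ i j = bar (ρ' g j i)) →
      DD ρ' (B.map (mp π)) = 1 ∨ DD ρ' (B.map (mp π)) = -1 := by
    intro T _ _ d' ρ' hun
    rw [DD_mp, DD_fromBlocks, map_one, Matrix.det_one, mul_one]
    refine tors2 hs h2 hε A hA (ρ'.comp π) ?_ ?_
    · apply (Set.finite_range ρ').subset
      rintro _ ⟨g, rfl⟩
      exact ⟨π g, rfl⟩
    · intro g i j
      show ρ' (π g⁻¹) i j = bar (ρ' (π g) j i)
      rw [map_inv, hun]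
  have hB : Sg.TorOK.{v, v} (B.map (mp π)) := key
  have hB0 : Sg.TorOK.{v, 0} (B.map (mp π)) := by
    intro T _ _ d' ρ' hun
    rw [DD_mp, DD_fromBlocks, map_one, Matrix.det_one, mul_one]
    refine tors2 hs h2 hε A hA (ρ'.comp π) ?_ ?_
    · apply (Set.finite_range ρ').subset
      rintro _ ⟨g, rfl⟩
      exact ⟨π g, rfl⟩
    · intro g i j
      show ρ' (π g⁻¹) i j = bar (ρ' (π g) j i)
      rw [map_inv, hun]
  have h1 := Sg.fin_sign hB hB0 (chg (algebraMap L (AlgebraicClosure L)) ρG)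
  rw [DD_chg, DD_mp, hρG, DD_fromBlocks, map_one, Matrix.det_one, mul_one] at h1
  have hinj := (algebraMap L (AlgebraicClosure L)).injective
  have he : eps (B.map (mp π)) = DD (trv Γ ℤ) A.val := by
    unfold eps
    rw [DD_mp, DD_fromBlocks]
    have h3 : (trv G ℤ).comp π = trv Γ ℤ := rfl
    rw [h3]
    have h4 : ((trv Γ ℤ) (1 : Γ)).det = 1 := Matrix.det_one
    rw [h4, mul_one]
  rw [he, Fintype.card_fin] at h1
  apply hinj
  rw [h1, map_intCast]

end main

section fields

variable {H : Type v} [Group H] {n d : ℕ}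

/-- **Representations of finitely generated groups over arbitrary fields** -/
theorem all_reps_sign2 [Group.FG H] (hs : SepU H) (h2 : ∀ g : H, g * g = 1 → g = 1) {ε : ℤ}
    (hε : ε = 1 ∨ ε = -1) (A : (Matrix (Fin n) (Fin n) (MonoidAlgebra ℤ H))ˣ)
    (hA : ∀ i j g, (A.val i j).coeff g = ε * (A.val j i).coeff g⁻¹)
    {L : Type u} [Field L] (ρ : H →* Matrix (Fin d) (Fin d) L) :
    DD ρ A.val = ((DD (trv H ℤ) A.val ^ d : ℤ) : L) := by
  obtain ⟨R, hR, ψ, hψ⟩ := exists_ring ρ
  have hval : chg (R.val.toRingHom) ψ = ρ := by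
    ext g i j
    exact hψ g i j
  have h1 : ∀ m : Ideal R, m.IsMaximal → DD ψ A.val -
      ((DD (trv H ℤ) A.val ^ d : ℤ) : R) ∈ m := by
    intro m hm
    obtain ⟨q, hq, hqm, hfin⟩ := Pool.Agent.H23R2.residue_finite R m
    let i1 : Field (R ⧸ m) := Ideal.Quotient.field m
    have h2 := finite_image_sign2 hs h2 hε A hA (chg (Ideal.Quotient.mk m) ψ) (Set.toFinite _)
    rw [DD_chg] at h2
    rw [← Ideal.Quotient.eq_zero_iff_mem, map_sub, h2, map_intCast, sub_self]
  have h2 : DD ψ A.val - ((DD (trv H ℤ) A.val ^ d : ℤ) : R) = 0 := by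
    have hJ : IsJacobsonRing R := isJacobsonRing_of_finiteType (A := ℤ)
    have h3 : (⊥ : Ideal R).jacobson = ⊥ := hJ.out (Ideal.isPrime_bot (α := R)).isRadical
    have h4 : DD ψ A.val - ((DD (trv H ℤ) A.val ^ d : ℤ) : R) ∈
        (⊥ : Ideal R).jacobson := by
      rw [Ideal.jacobson, Ideal.mem_sInf]
      rintro m ⟨_, hm⟩
      exact h1 m hm
    rw [h3, Ideal.mem_bot] at h4
    exact h4
  have h4 := congrArg (R.val.toRingHom) h2
  rw [map_sub, map_intCast, map_zero, ← DD_chg, hval, sub_eq_zero] at h4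
  exact h4

end fields

section form

variable {Γ : Type v} [Group Γ] {n d : ℕ}

/-- **The determinant of a nonsingular hermitian or skew-hermitian form in a representation is a
power of its determinant in the trivial representation.** -/
theorem det_form2 (hs : SepU Γ) (h2 : ∀ g : Γ, g * g = 1 → g = 1) (ε : ℤ)
    (hε : ε = 1 ∨ ε = -1) (A : (Matrix (Fin n) (Fin n) (MonoidAlgebra ℤ Γ))ˣ)
    (hA : ∀ i j g, (A.val i j).coeff g = ε * (A.val j i).coeff g⁻¹)
    {L : Type u} [Field L] (ρ : Γ →* Matrix (Fin d) (Fin d) L) :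
    (Matrix.of fun x y : Fin n × Fin d =>
        (A.val x.1 y.1).coeff.sum fun g a => (a : L) * ρ g x.2 y.2).det =
      (((Matrix.of fun i j : Fin n => (A.val i j).coeff.sum fun _ a => a).det : ℤ) : L) ^ d := by
  obtain ⟨H, hH, hS⟩ := exists_fg A
  obtain ⟨A', hA'⟩ := exists_sub A H hS
  have : Group.FG H := (Group.fg_iff_subgroup_fg H).2 hH
  have hsH : SepU H := hs.subgroup H
  have h2H : ∀ g : H, g * g = 1 → g = 1 := fun g hg => by
    apply Subtype.ext
    exact h2 g (congrArg Subtype.val hg)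
  have hcoeff : ∀ i j (g : H), (A'.val i j).coeff g = (A.val i j).coeff (g : Γ) := by
    intro i j g
    have h6 : A.val i j = mp H.subtype (A'.val i j) := by rw [hA']; rfl
    rw [h6]
    have h5 : (MonoidAlgebra.mapDomain H.subtype (A'.val i j)).coeff =
        (A'.val i j).coeff.mapDomain H.subtype := by
      ext g; simp [MonoidAlgebra.mapDomain]
    show _ = (MonoidAlgebra.mapDomain H.subtype (A'.val i j)).coeff (H.subtype g)
    rw [h5, Finsupp.mapDomain_apply H.subtype_injective]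
  have hA2 : ∀ i j (g : H), (A'.val i j).coeff g = ε * (A'.val j i).coeff g⁻¹ := by
    intro i j g
    rw [hcoeff, hcoeff, hA i j g]
    rfl
  let ρ' : H →* Matrix (Fin d) (Fin d) L := ρ.comp H.subtype
  have h1 := all_reps_sign2 hsH h2H hε A' hA2 ρ'
  have e2 : DD ρ' A'.val = (Matrix.of fun x y : Fin n × Fin d =>
      (A.val x.1 y.1).coeff.sum fun g a => (a : L) * ρ g x.2 y.2).det := by
    unfold DD
    rw [← blkR_mpU, ← hA']
    congr 1
    ext1 x y
    exact lrG_apply ρ (A.val x.1 y.1) x.2 y.2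
  have e3 : DD (trv H ℤ) A'.val =
      (Matrix.of fun i j : Fin n => (A.val i j).coeff.sum fun _ a => a).det := by
    unfold DD
    have : (trv H ℤ) = (trv Γ ℤ).comp H.subtype := rfl
    rw [this, ← blkR_mpU, ← hA', ← Matrix.det_submatrix_equiv_self (Equiv.prodUnique (Fin n) Unit).symm]
    congr 1
    ext1 x y
    refine (lrG_apply (trv Γ ℤ) (A.val x y) () ()).trans ?_
    simp only [Matrix.of_apply]
    apply Finsupp.sum_congr
    intro g _
    show ((A.val x y).coeff g : ℤ) * (1 : Matrix Unit Unit ℤ) () () = _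
    rw [Matrix.one_apply_eq, mul_one]
  rw [← e2, h1, e3, Int.cast_pow]

end form

end Pool.Agent.V5helper75.RN
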