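import Pool.Agent.V5helper75.RN.SepUT
import Pool.Agent.V5helper75.RN.Form

/-!
# The hypothesis on subgroups
-/

set_option autoImplicit false
set_option linter.unusedSectionVars false

namespace Pool.Agent.V5helper75.RN

universe u

section hyp

variable {Γ : Type u} [Group Γ]

lemma up_of_entries {r : ℕ} {U : Matrix (Fin r) (Fin r) ℤ} (h1 : ∀ i j, j < i → U i j = 0)
    (h2 : ∀ i, U i i = 1) : Up 1 (U - 1) := by
  intro i j hij
  rw [Matrix.sub_apply]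
  by_cases h : i = j
  · subst h
    rw [h2, Matrix.one_apply_eq, sub_self]
  · rw [Matrix.one_apply_ne h, sub_zero]
    apply h1
    rw [Fin.lt_def]
    have : (i : ℕ) ≠ j := fun hc => h (Fin.ext hc)
    omega

theorem sepU_of_hyp (hΓ : ∀ H : Subgroup Γ, H.FG → ∀ g ∈ H, g ≠ 1 →
      ∃ K : Subgroup Γ, K ≤ H ∧ K.relIndex H ≠ 0 ∧ ∃ (m : ℕ) (hm : g ^ m ∈ K) (r : ℕ)
        (f : K →* Matrix (Fin r) (Fin r) ℤ), (∀ x i j, j < i → f x i j = 0) ∧
          (∀ x i, f x i i = 1) ∧ f ⟨g ^ m, hm⟩ ≠ 1) : SepU Γ := by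
  intro H' _ _ j hj
  apply sep_of_ut
  intro x hx
  have hfg : (j.range).FG := by
    rw [← Group.fg_iff_subgroup_fg]
    exact Group.fg_range j
  have hjx : j x ≠ 1 := by
    intro hc
    exact hx (hj (by rw [hc, map_one]))
  obtain ⟨K, hKH, hKi, m, hm, r, f, hf1, hf2, hf3⟩ := hΓ j.range hfg (j x) ⟨x, rfl⟩ hjx
  refine ⟨K.comap j, ⟨?_⟩, m, ?_, r, f.comp (j.subgroupComap K), ?_, ?_⟩
  · rw [Subgroup.index_comap]
    exact hKi
  · rw [Subgroup.mem_comap, map_pow]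
    exact hm
  · intro k
    exact up_of_entries (hf1 _) (hf2 _)
  · intro hc
    apply hf3
    rw [← hc]
    show f _ = f _
    congr 1
    apply Subtype.ext
    show j x ^ m = j (x ^ m)
    rw [map_pow]

theorem torsion_of_hyp (hΓ : ∀ H : Subgroup Γ, H.FG → ∀ g ∈ H, g ≠ 1 →
      ∃ K : Subgroup Γ, K ≤ H ∧ K.relIndex H ≠ 0 ∧ ∃ (m : ℕ) (hm : g ^ m ∈ K) (r : ℕ)
        (f : K →* Matrix (Fin r) (Fin r) ℤ), (∀ x i j, j < i → f x i j = 0) ∧
          (∀ x i, f x i i = 1) ∧ f ⟨g ^ m, hm⟩ ≠ 1) (g : Γ) (hg : g * g = 1) : g = 1 := by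
  by_contra hne
  obtain ⟨K, hKH, hKi, m, hm, r, f, hf1, hf2, hf3⟩ := hΓ (Subgroup.closure {g})
    (Subgroup.fg_iff _ |>.2 ⟨{g}, rfl, Set.finite_singleton g⟩) g
    (Subgroup.subset_closure (Set.mem_singleton g)) hne
  apply hf3
  apply up_tf (up_of_entries (hf1 _) (hf2 _)) (two_ne_zero)
  rw [← map_pow]
  have : (⟨g ^ m, hm⟩ : K) ^ 2 = 1 := by
    apply Subtype.ext
    show (g ^ m) ^ 2 = 1
    rw [← pow_mul, mul_comm, pow_mul, pow_two, hg, one_pow]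
  rw [this, map_one]

end hyp

end Pool.Agent.V5helper75.RN
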