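import Pool.Agent.V5helper75.RN.Mul
import Pool.Agent.Y72.Log.App

/-!
# Traces over rational classes of finite groups
-/

set_option autoImplicit false
set_option linter.unusedSectionVars false

namespace Pool.Agent.V5helper75.RN

open Finset Pool.Agent.H23R2 H219.Wh Pool.Agent.Y72.Log
open scoped Classical

section cyc

variable {R : Type*} [Group R] [Fintype R]

/-- sums over the generators of a cyclic subgroup -/
lemma cyc_van {q : ℤ} (f : R → ℤ)
    (h : ∀ g : R, q ∣ ∑ c with c ∈ Subgroup.zpowers g, f c) (K : Subgroup R) :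
    q ∣ ∑ c with Subgroup.zpowers c = K, f c := by
  induction K using WellFoundedLT.induction with
  | ind K ih =>
    by_cases hK : ∃ g, Subgroup.zpowers g = K
    · obtain ⟨g, rfl⟩ := hK
      have h1 := h g
      have h2 : ∑ c with c ∈ Subgroup.zpowers g, f c =
          ∑ c with Subgroup.zpowers c = Subgroup.zpowers g, f c +
          ∑ c with (c ∈ Subgroup.zpowers g ∧ Subgroup.zpowers c ≠ Subgroup.zpowers g), f c := by
        rw [Finset.sum_filter, Finset.sum_filter, Finset.sum_filter, ← Finset.sum_add_distrib]
        apply Finset.sum_congr rfl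
        intro c _
        by_cases hc : Subgroup.zpowers c = Subgroup.zpowers g
        · have hc' : c ∈ Subgroup.zpowers g := hc ▸ Subgroup.mem_zpowers c
          rw [if_pos hc', if_pos hc, if_neg (fun hh => hh.2 hc), add_zero]
        · by_cases hc' : c ∈ Subgroup.zpowers g
          · rw [if_pos hc', if_neg hc, if_pos ⟨hc', hc⟩, zero_add]
          · rw [if_neg hc', if_neg hc, if_neg (fun hh => hc' hh.1), zero_add]
      have h3 : q ∣ ∑ c with (c ∈ Subgroup.zpowers g ∧
          Subgroup.zpowers c ≠ Subgroup.zpowers g), f c := by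
        rw [← Finset.sum_fiberwise_of_maps_to (s := Finset.univ.filter (fun c =>
          c ∈ Subgroup.zpowers g ∧ Subgroup.zpowers c ≠ Subgroup.zpowers g))
          (t := (Finset.univ.filter (fun c =>
          c ∈ Subgroup.zpowers g ∧ Subgroup.zpowers c ≠ Subgroup.zpowers g)).image
            (fun c => Subgroup.zpowers c)) (g := fun c => Subgroup.zpowers c)
          (fun c hc => Finset.mem_image_of_mem _ hc)]
        apply Finset.dvd_sum
        intro K' hK'
        rw [Finset.mem_image] at hK'
        obtain ⟨c0, hc0, rfl⟩ := hK'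
        simp only [Finset.mem_filter, Finset.mem_univ, true_and] at hc0
        have hlt : Subgroup.zpowers c0 < Subgroup.zpowers g :=
          lt_of_le_of_ne ((Subgroup.zpowers_le).2 hc0.1) hc0.2
        have h4 := ih _ hlt
        have hs : (Finset.univ.filter (fun c => c ∈ Subgroup.zpowers g ∧
            Subgroup.zpowers c ≠ Subgroup.zpowers g)).filter
            (fun c => Subgroup.zpowers c = Subgroup.zpowers c0) =
            Finset.univ.filter (fun c => Subgroup.zpowers c = Subgroup.zpowers c0) := by
          ext c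
          simp only [Finset.mem_filter, Finset.mem_univ, true_and]
          constructor
          · exact fun hh => hh.2
          · intro hh
            refine ⟨⟨?_, ?_⟩, hh⟩
            · exact hlt.le (hh ▸ Subgroup.mem_zpowers c)
            · rw [hh]
              exact hc0.2
        rw [hs]
        exact h4
      rw [h2] at h1
      exact (dvd_add_left h3).1 h1
    · rw [Finset.sum_eq_zero]
      · exact dvd_zero _
      · intro c hc
        rw [Finset.mem_filter] at hc
        exact absurd ⟨c, hc.2⟩ hK

/-- sums over rational classes -/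
lemma cls_van {q : ℤ} (f : R → ℤ)
    (h : ∀ g : R, q ∣ ∑ c with c ∈ Subgroup.zpowers g, f c) {D : R → Prop}
    (hD : ∀ x y, D x → Subgroup.zpowers x = Subgroup.zpowers y → D y) :
    q ∣ ∑ c with D c, f c := by
  rw [← Finset.sum_fiberwise_of_maps_to (s := Finset.univ.filter (fun c => D c))
    (t := (Finset.univ.filter (fun c => D c)).image (fun c => Subgroup.zpowers c))
    (g := fun c => Subgroup.zpowers c) (fun c hc => Finset.mem_image_of_mem _ hc)]
  apply Finset.dvd_sum
  intro K hK
  rw [Finset.mem_image] at hK
  obtain ⟨c0, hc0, rfl⟩ := hK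
  simp only [Finset.mem_filter, Finset.mem_univ, true_and] at hc0
  have h4 := cyc_van f h (Subgroup.zpowers c0)
  have hs : (Finset.univ.filter (fun c => D c)).filter
      (fun c => Subgroup.zpowers c = Subgroup.zpowers c0) =
      Finset.univ.filter (fun c => Subgroup.zpowers c = Subgroup.zpowers c0) := by
    ext c
    simp only [Finset.mem_filter, Finset.mem_univ, true_and]
    exact ⟨fun hh => hh.2, fun hh => ⟨hD _ _ hc0 hh.symm, hh⟩⟩
  rw [hs]
  exact h4

end cyc

section aug

variable {C : Type*} [CommGroup C] [Fintype C]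

/-- the augmentation -/
noncomputable def augh (C : Type*) [CommGroup C] : MonoidAlgebra ℤ C →+* ℤ :=
  (MonoidAlgebra.lift ℤ ℤ C (1 : C →* ℤ)).toRingHom

lemma augh_eq (y : MonoidAlgebra ℤ C) : augh C y = ∑ c, y.coeff c := by
  induction y using MonoidAlgebra.induction_linear with
  | zero => simp
  | add x y hx hy =>
    rw [map_add, hx, hy, ← Finset.sum_add_distrib]
    rfl
  | single c a =>
    have h1 : augh C (MonoidAlgebra.single c a) = a := by
      show MonoidAlgebra.lift ℤ ℤ C (1 : C →* ℤ) (MonoidAlgebra.single c a) = a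
      rw [MonoidAlgebra.lift_single]
      simp
    rw [h1]
    simp only [MonoidAlgebra.coeff_single, Finsupp.single_apply]
    simp

end aug

section trace

variable {R : Type*} [Group R] [Fintype R] {n : Type*} [Fintype n] [DecidableEq n]

/-- the trace of a matrix congruent to one, over a cyclic subgroup -/
lemma tau_van (W : (Matrix n n (MonoidAlgebra ℤ R))ˣ) {Z : Matrix n n (MonoidAlgebra ℤ R)}
    {q : ℤ} (hq : 3 ≤ q) (hW : W.val = 1 + q • Z) (g : R) :
    q ^ 2 ∣ ∑ c with c ∈ Subgroup.zpowers g,
      (∑ x : R, ∑ i, (W.val i i).coeff (x * c * x⁻¹) -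
        if c = 1 then (Fintype.card n : ℤ) * Fintype.card R else 0) := by
  let hC : CommGroup (Subgroup.zpowers g) :=
    { (inferInstance : Group (Subgroup.zpowers g)) with
      mul_comm := by
        intro w x
        obtain ⟨j, hj⟩ := w.2
        obtain ⟨k, hk⟩ := x.2
        apply Subtype.ext
        show (w : R) * x = x * w
        rw [← hj, ← hk]
        exact (Commute.zpow_zpow_self g j k) }
  have : Fintype (Subgroup.zpowers g) := Fintype.ofFinite _
  let ι : Subgroup.zpowers g →* R := (Subgroup.zpowers g).subtype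
  obtain ⟨e, he⟩ := exists_equiv ι (Subgroup.subtype_injective _)
  have : Fintype (R ⧸ ι.range) := Fintype.ofFinite _
  obtain ⟨c, hc⟩ := du_near e ι he hW
  set tr := (blkR (indR e ι he) W.val).trace with htr
  set a := augh (Subgroup.zpowers g) with ha
  have hcard : Fintype.card R = Fintype.card (R ⧸ ι.range) *
      Fintype.card (Subgroup.zpowers g) := by
    rw [← Fintype.card_prod]
    exact Fintype.card_congr e
  -- the augmentation is a unit
  have h1 : a (du e ι he W.val) * a (du e ι he (W⁻¹).val) = 1 := by
    rw [← map_mul, ← du_mul, Units.mul_inv, du_one, map_one]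
  have h2 : a (du e ι he W.val) = 1 ∨ a (du e ι he W.val) = -1 := by
    rcases Int.mul_eq_one_iff_eq_one_or_neg_one.1 h1 with h | h
    · exact Or.inl h.1
    · exact Or.inr h.1
  have h3 : a (du e ι he W.val) = 1 + a tr - Fintype.card (n × (R ⧸ ι.range)) +
      q ^ 2 * a c := by
    rw [hc]
    simp only [map_sub, map_add, map_mul, map_one, map_pow, map_natCast, map_intCast, Int.cast_id]
  have h4 : a tr = Fintype.card (n × (R ⧸ ι.range)) +
      q * a (blkR (indR e ι he) Z).trace := by
    rw [htr, hW, map_add, map_one, map_zsmul, Matrix.trace_add, Matrix.trace_one,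
      Matrix.trace_smul, map_add, map_natCast, map_zsmul, smul_eq_mul]
  have h5 : a (du e ι he W.val) = 1 := by
    rcases h2 with h | h
    · exact h
    · exfalso
      have h6 : q ∣ 2 := by
        refine ⟨-(a (blkR (indR e ι he) Z).trace + q * a c), ?_⟩
        have h7 := h3
        rw [h, h4] at h7
        linear_combination -h7
      have := Int.le_of_dvd (by norm_num) h6
      omega
  have h6 : a tr - Fintype.card (n × (R ⧸ ι.range)) = - (q ^ 2 * a c) := by
    rw [h5] at h3
    linear_combination -h3
  -- the sum
  have h7 : ∑ c with c ∈ Subgroup.zpowers g,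
      (∑ x : R, ∑ i, (W.val i i).coeff (x * c * x⁻¹) -
        if c = 1 then (Fintype.card n : ℤ) * Fintype.card R else 0) =
      ∑ c : Subgroup.zpowers g, (∑ x : R, ∑ i, (W.val i i).coeff (x * (c : R) * x⁻¹) -
        if (c : R) = 1 then (Fintype.card n : ℤ) * Fintype.card R else 0) := by
    rw [← Finset.sum_subtype (p := fun c => c ∈ Subgroup.zpowers g)
      (s := Finset.univ.filter (fun c => c ∈ Subgroup.zpowers g))
      (f := fun c => (∑ x : R, ∑ i, (W.val i i).coeff (x * c * x⁻¹) -
        if c = 1 then (Fintype.card n : ℤ) * Fintype.card R else 0))]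
    intro x
    simp
  rw [h7, Finset.sum_sub_distrib]
  have h8 : ∑ c : Subgroup.zpowers g, ∑ x : R, ∑ i, (W.val i i).coeff (x * (c : R) * x⁻¹) =
      (Fintype.card (Subgroup.zpowers g) : ℤ) * a tr := by
    rw [ha, augh_eq, Finset.mul_sum]
    apply Finset.sum_congr rfl
    intro c _
    exact (trace_coeff e ι he W.val c).symm
  have h9 : ∑ c : Subgroup.zpowers g, (if (c : R) = 1 then
      (Fintype.card n : ℤ) * Fintype.card R else 0) = (Fintype.card n : ℤ) * Fintype.card R := by
    rw [Finset.sum_eq_single (1 : Subgroup.zpowers g)]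
    · exact if_pos rfl
    · intro b _ hb
      exact if_neg (fun hc => hb (Subtype.ext hc))
    · intro hc
      exact absurd (Finset.mem_univ _) hc
  rw [h8, h9]
  refine ⟨-(Fintype.card (Subgroup.zpowers g) : ℤ) * a c, ?_⟩
  rw [hcard]
  rw [Fintype.card_prod] at h6
  push_cast at h6 ⊢
  linear_combination (Fintype.card (Subgroup.zpowers g) : ℤ) * h6

/-- the trace of a matrix congruent to one, over a rational class -/
lemma trace_rat (W : (Matrix n n (MonoidAlgebra ℤ R))ˣ) {Z : Matrix n n (MonoidAlgebra ℤ R)}
    {q : ℤ} (hq : 3 ≤ q) (hW : W.val = 1 + q • Z) {D : R → Prop}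
    (hconj : ∀ w x, D w → D (x⁻¹ * w * x)) (h1 : ¬ D 1)
    (hD : ∀ x y, D x → Subgroup.zpowers x = Subgroup.zpowers y → D y) :
    q ^ 2 ∣ (Fintype.card R : ℤ) * ∑ g with D g, ∑ i, (W.val i i).coeff g := by
  have h2 := cls_van _ (fun g => tau_van W hq hW g) hD
  have h3 : ∑ c with D c, (∑ x : R, ∑ i, (W.val i i).coeff (x * c * x⁻¹) -
        if c = 1 then (Fintype.card n : ℤ) * Fintype.card R else 0) =
      (Fintype.card R : ℤ) * ∑ g with D g, ∑ i, (W.val i i).coeff g := by
    have h4 : ∀ c ∈ Finset.univ.filter (fun c => D c),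
        (∑ x : R, ∑ i, (W.val i i).coeff (x * c * x⁻¹) -
        if c = 1 then (Fintype.card n : ℤ) * Fintype.card R else 0) =
        ∑ x : R, ∑ i, (W.val i i).coeff (x * c * x⁻¹) := by
      intro c hc
      rw [Finset.mem_filter] at hc
      rw [if_neg (by rintro rfl; exact h1 hc.2), sub_zero]
    rw [Finset.sum_congr rfl h4, Finset.sum_comm]
    have h5 : ∀ x : R, ∑ c with D c, ∑ i, (W.val i i).coeff (x * c * x⁻¹) =
        ∑ g with D g, ∑ i, (W.val i i).coeff g := by
      intro x
      refine Finset.sum_nbij' (fun c => x * c * x⁻¹) (fun c => x⁻¹ * c * x) ?_ ?_ ?_ ?_ ?_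
      · intro c hc
        simp only [Finset.mem_filter, Finset.mem_univ, true_and] at hc ⊢
        have := hconj c x⁻¹ hc
        rwa [inv_inv] at this
      · intro c hc
        simp only [Finset.mem_filter, Finset.mem_univ, true_and] at hc ⊢
        exact hconj c x hc
      · intro c _
        group
      · intro c _
        group
      · intro c _
        rfl
    rw [Finset.sum_congr rfl (fun x _ => h5 x), Finset.sum_const, Finset.card_univ, nsmul_eq_mul]
  rw [h3] at h2
  exact h2

end trace

end Pool.Agent.V5helper75.RN
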