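import Pool.Agent.Y72.Dt.Sg6
import Pool.Agent.R791.Bar

/-!
# Determinants of representations of finite groups, from unitary representations over `ℤ[T]`

The arguments of `Pool.Agent.Y72.Dt` (files `Mon`, `Fin`, `Sg1`, ..., `Sg6`) with the hypothesis on
the determinants over the integral group rings of finite commutative groups weakened to unitary
representations.
-/

set_option autoImplicit false
set_option linter.unusedSectionVars false

namespace Pool.Agent.V5helper75.RN.Sg

open Pool.Agent.Y72.Log Pool.Agent.Y72.Dt Module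
open Pool.Agent.R791 (bar coeff_bar bar_single bar_zero)

section unit

universe u v

/-- the determinants in all unitary representations over integral group rings of finite
commutative groups are trivial -/
def TorOK {G : Type u} [Group G] {n : Type} [Fintype n] [DecidableEq n]
    (A : Matrix n n (MonoidAlgebra ℤ G)) : Prop :=
  ∀ (T : Type v) [CommGroup T] [Finite T] (d : ℕ)
    (ρ : G →* Matrix (Fin d) (Fin d) (MonoidAlgebra ℤ T)),
    (∀ g i j, ρ g⁻¹ i j = bar (ρ g j i)) → DD ρ A = 1 ∨ DD ρ A = -1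

variable {G : Type u} [Group G] {L : Type v} [Field L] {κ : Type*} [Fintype κ] [DecidableEq κ]
  {M : ℕ} [NeZero M]

lemma lam_inv {x : L} (hx : x ^ M = 1 ∨ x = 0) : lam M x⁻¹ = bar (lam M x) := by
  rcases hx with hx | hx
  · have hx' : (x⁻¹) ^ M = 1 := by rw [inv_pow, hx, inv_one]
    rw [lam_root hx, lam_root hx', bar_single]
    congr 1
    apply Subtype.ext
    apply Units.ext
    rw [Subgroup.coe_inv, Units.val_inv_eq_inv_val, rootsOfUnity.coe_mkOfPowEq,
      rootsOfUnity.coe_mkOfPowEq]
  · rw [hx, inv_zero, lam_zero, bar_zero]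

lemma mono_inv (σ : G →* Matrix κ κ L)
    (hm : ∀ g j, ∃ i, ∃ c : L, c ^ M = 1 ∧ ∀ k, σ g k j = if k = i then c else 0) (g : G)
    (i j : κ) : σ g⁻¹ i j = (σ g j i)⁻¹ := by
  have hne : ∀ x : L, x ^ M = 1 → x ≠ 0 := by
    rintro x hx rfl
    rw [zero_pow (NeZero.ne M)] at hx
    exact zero_ne_one hx
  have key : ∀ (g : G) (i : κ), ∃ i0, ∀ x, σ g⁻¹ x i0 * σ g i0 i = if x = i then 1 else 0 := by
    intro g i
    obtain ⟨i0, c, hc, h⟩ := hm g i
    refine ⟨i0, fun x => ?_⟩
    have h1 : (σ g⁻¹ * σ g) x i = (1 : Matrix κ κ L) x i := by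
      rw [← map_mul, inv_mul_cancel, map_one]
    rw [Matrix.mul_apply, Matrix.one_apply, Finset.sum_eq_single i0] at h1
    · exact h1
    · intro y _ hy
      rw [h, if_neg hy, mul_zero]
    · intro hh
      exact absurd (Finset.mem_univ _) hh
  obtain ⟨i0, c, hc, h⟩ := hm g i
  by_cases hj : j = i0
  · subst hj
    obtain ⟨i1, h1⟩ := key g i
    have h2 := h1 i
    rw [if_pos rfl] at h2
    have h3 : i1 = j := by
      by_contra hcon
      rw [h, if_neg hcon, mul_zero] at h2
      exact zero_ne_one h2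
    rw [h3] at h2
    exact eq_inv_of_mul_eq_one_left h2
  · rw [h, if_neg hj, inv_zero]
    by_contra hcon
    obtain ⟨i2, c2, hc2, h2⟩ := hm g⁻¹ j
    have h3 : i = i2 := by
      by_contra hc3
      rw [h2, if_neg hc3] at hcon
      exact hcon rfl
    subst h3
    have h4 : (σ g * σ g⁻¹) j j = (1 : Matrix κ κ L) j j := by
      rw [← map_mul, mul_inv_cancel, map_one]
    rw [Matrix.mul_apply, Matrix.one_apply_eq, Finset.sum_eq_single i] at h4
    · rw [h, if_neg hj, zero_mul] at h4
      exact zero_ne_one h4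
    · intro y _ hy
      rw [h2, if_neg hy, mul_zero]
    · intro hh
      exact absurd (Finset.mem_univ _) hh

lemma mlift_unit (σ : G →* Matrix κ κ L)
    (hm : ∀ g j, ∃ i, ∃ c : L, c ^ M = 1 ∧ ∀ k, σ g k j = if k = i then c else 0) (g : G)
    (i j : κ) : mlift σ hm g⁻¹ i j = bar (mlift σ hm g j i) := by
  show lam M (σ g⁻¹ i j) = bar (lam M (σ g j i))
  rw [mono_inv σ hm, lam_inv]
  obtain ⟨i', c, hc, h1⟩ := hm g i
  rw [h1]
  split_ifs
  · exact Or.inl hc
  · exact Or.inr rfl

lemma rei_unit {κ' : Type*} [Fintype κ'] [DecidableEq κ'] (σ : G →* Matrix κ κ L)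
    (hm : ∀ g j, ∃ i, ∃ c : L, c ^ M = 1 ∧ ∀ k, σ g k j = if k = i then c else 0)
    (e : κ ≃ κ') (g : G) (i j : κ') :
    rei e (mlift σ hm) g⁻¹ i j = bar (rei e (mlift σ hm) g j i) := by
  rw [rei_apply, rei_apply]
  exact mlift_unit σ hm g _ _

variable {n : Type} [Fintype n] [DecidableEq n] {A : Matrix n n (MonoidAlgebra ℤ G)}

/-- monomial representations -/
lemma DD_mono (hA : TorOK.{u, v} A) (σ : G →* Matrix κ κ L)
    (hm : ∀ g j, ∃ i, ∃ c : L, c ^ M = 1 ∧ ∀ k, σ g k j = if k = i then c else 0) :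
    DD σ A = 1 ∨ DD σ A = -1 := by
  let e := Fintype.equivFin κ
  have h1 := hA (rootsOfUnity M L) (Fintype.card κ) (rei e (mlift σ hm)) (rei_unit σ hm e)
  rw [DD_rei] at h1
  rw [← chg_mlift σ hm, DD_chg]
  rcases h1 with h | h
  · left
    rw [h, map_one]
  · right
    rw [h, map_neg, map_one]

end unit

/- from Mon -/

section FMon

section triv

universe u v

variable {G : Type u} [Group G] {L : Type v} [Field L] {n : Type} [Fintype n] [DecidableEq n]
  {A : Matrix n n (MonoidAlgebra ℤ G)} {M : ℕ} [NeZero M]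

/-- representations which are triangular with monomial blocks -/
theorem DD_Mt (hA : TorOK.{u, v} A) {ι : Type*} [Fintype ι] [DecidableEq ι] (ρ : G →* Matrix ι ι L)
    (h : Mt M (toEnd ρ)) : DD ρ A = 1 ∨ DD ρ A = -1 := by
  obtain ⟨m, σ, β, h1, h2⟩ := exists_tri ρ h
  rw [← h1]
  have hβ : ∀ g, (σ g).BlockTriangular β := by
    intro g k j hkj
    obtain ⟨i, hi, c, hc, h3⟩ := h2 g j
    rw [h3 k (not_lt.2 hkj.le), if_neg]
    rintro rfl
    omega
  rw [DD_tri σ β hβ A]
  apply Finset.prod_induction (fun k => DD (dgb σ β hβ k) A) (fun x => x = 1 ∨ x = -1)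
  · rintro a b (ha | ha) (hb | hb) <;> simp [ha, hb]
  · exact Or.inl rfl
  · intro k _
    apply DD_mono (M := M) hA
    rintro g ⟨j, hj⟩
    obtain ⟨i, hi, c, hc, h3⟩ := h2 g j
    refine ⟨⟨i, hi.trans hj⟩, c, hc, ?_⟩
    rintro ⟨k', hk'⟩
    rw [dgb_apply, h3 k' (by rw [hk', hj]; exact lt_irrefl k)]
    by_cases h4 : k' = i
    · rw [if_pos h4, if_pos (Subtype.ext h4)]
    · rw [if_neg h4, if_neg (fun hc => h4 (congrArg Subtype.val hc))]

end triv

end FMon



/- from Fin -/

section FFin

open Pool.Agent.Y72.Log Module MulAction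
open scoped Kronecker

section sums

universe u

variable {G : Type u} [Group G] {n : Type*} [Fintype n] [DecidableEq n] {R : Type*} [CommRing R]
  {ι : Type*} [Fintype ι] [DecidableEq ι]

attribute [local instance] ptAct

end sums

section perm

universe u v

variable {G : Type u} [Group G] [Finite G] {L : Type v} [Field L] [IsAlgClosed L] {n : Type}
  [Fintype n] [DecidableEq n] {A : Matrix n n (MonoidAlgebra ℤ G)} {ι : Type} [Fintype ι]
  [DecidableEq ι]

open scoped Classical in
/-- **All representations of a finite group over an algebraically closed field** -/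
theorem fin_main (hA : TorOK.{u, v} A) (ρ : G →* Matrix ι ι L) : DD ρ A = 1 ∨ DD ρ A = -1 := by
  have key : ∀ p : ℕ, p.Prime → ∃ m : ℕ, ¬ p ∣ m ∧ (DD ρ A ^ 2) ^ m = 1 := by
    intro p hp
    have : Fact p.Prime := ⟨hp⟩
    have : NeZero (Nat.card G) := ⟨Nat.card_pos.ne'⟩
    obtain ⟨m, X, Y, i1, i2, i3, i4, hm, hX, hY, h⟩ := solomon (G := G) (p := p)
    cases nonempty_fintype X
    cases nonempty_fintype Y
    have h1 := DD_tns_shift ρ A m X Y h
    have h2 := DD_Mt hA (tns X ρ) (tns_Mt X hX ρ)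
    have h3 := DD_Mt hA (tns Y ρ) (tns_Mt Y hY ρ)
    refine ⟨m, hm, ?_⟩
    have h4 : (DD (tns X ρ) A) ^ 2 = 1 := by
      rcases h2 with h | h <;> rw [h] <;> ring
    have h5 : (DD (tns Y ρ) A) ^ 2 = 1 := by
      rcases h3 with h | h <;> rw [h] <;> ring
    rw [h1, mul_pow, h5, mul_one, ← pow_mul, mul_comm, pow_mul] at h4
    exact h4
  have h1 : DD ρ A ^ 2 = 1 := by
    have h2 : orderOf (DD ρ A ^ 2) = 1 := by
      by_contra hne
      obtain ⟨p, hp, hpo⟩ := Nat.exists_prime_and_dvd hne
      obtain ⟨m, hm, h3⟩ := key p hp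
      exact hm (hpo.trans (orderOf_dvd_of_pow_eq_one h3))
    exact orderOf_eq_one_iff.1 h2
  exact sq_eq_one_iff.1 h1

end perm

end FFin



/- from Sg1 -/

section FSg1

open Pool.Agent.Y72.Log Module MulAction
open scoped Kronecker

universe u v

section sgn

variable {G : Type u} [Group G] {n : Type} [Fintype n] [DecidableEq n]

lemma sX_pm [Finite G] {A : Matrix n n (MonoidAlgebra ℤ G)} (hA : TorOK.{u, 0} A) (X : Type*)
    [Fintype X] [MulAction G X] : sX A X = 1 ∨ sX A X = -1 := by
  classical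
  have h1 := fin_main (L := ℂ) hA (rei (Fintype.equivFin (Unit × X)) (tns X (trv G ℂ)))
  have h2 : DD (rei (Fintype.equivFin (Unit × X)) (tns X (trv G ℂ))) A = ((sX A X : ℤ) : ℂ) := by
    rw [DD_rei]
    exact (sX_cast A X ℂ).symm
  rw [h2] at h1
  rcases h1 with h | h
  · left
    exact_mod_cast h
  · right
    have : ((sX A X : ℤ) : ℂ) = ((-1 : ℤ) : ℂ) := by rw [h]; push_cast; rfl
    exact_mod_cast this

end sgn

section mono

variable {G : Type u} [Group G] {n : Type} [Fintype n] [DecidableEq n]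
  {A : Matrix n n (MonoidAlgebra ℤ G)} {L : Type v} [Field L] {M : ℕ} [NeZero M]

open scoped Classical in
/-- **monomial representations and permutation representations have the same sign** -/
theorem DD_mono_set (hA : TorOK.{u, v} A) {κ : Type*} [Fintype κ] [DecidableEq κ] [MulAction G κ]
    (σ : G →* Matrix κ κ L)
    (hm : ∀ (g : G) j, ∃ c : L, c ^ M = 1 ∧ ∀ k, σ g k j = if k = g • j then c else 0) :
    DD σ A = ((sX A κ : ℤ) : L) := by
  have hm' : ∀ g j, ∃ i, ∃ c : L, c ^ M = 1 ∧ ∀ k, σ g k j = if k = i then c else 0 := by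
    intro g j
    obtain ⟨c, hc, h⟩ := hm g j
    exact ⟨g • j, c, hc, h⟩
  have h1 := hA (rootsOfUnity M L) (Fintype.card κ) (rei (Fintype.equivFin κ) (mlift σ hm'))
    (rei_unit σ hm' _)
  rw [DD_rei] at h1
  have h2 : DD σ A = evr M L (DD (mlift σ hm') A) := by
    rw [← DD_chg, chg_mlift]
  have e : chg (augT _) (mlift σ hm') = rei (Equiv.punitProd κ) (tns κ (trv G ℤ)) := by
    ext g i j
    obtain ⟨c, hc, h⟩ := hm g j
    have e1 : chg (augT _) (mlift σ hm') g i j = augT _ (lam M (σ g i j)) := rfl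
    have e2 : rei (Equiv.punitProd κ) (tns κ (trv G ℤ)) g i j =
        trv G ℤ g () () * (if i = g • j then 1 else 0) := rfl
    rw [e1, e2, trv_apply, one_mul, h i]
    split_ifs with hij
    · rw [lam_root hc, augT_single]
    · rw [lam_zero, map_zero]
  have h3 : augT _ (DD (mlift σ hm') A) = sX A κ := by
    rw [← DD_chg, e, DD_rei]
    exact sX_dec A κ
  rw [h2, ← h3]
  rcases h1 with h | h
  · rw [h, map_one, map_one, Int.cast_one]
  · rw [h, map_neg, map_one, map_neg, map_one, Int.cast_neg, Int.cast_one]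

end mono

end FSg1



/- from Sg2 -/

section FSg2

open Pool.Agent.Y72.Log Module MulAction
open scoped Kronecker

universe u v

section aff

variable {G : Type u} [Group G]

variable {Z C : Type*} [MulAction G Z] [CommGroup C]

variable (D : Aff G Z C)

end aff

section fourier

variable {G : Type u} [Group G] {Z C : Type*} [MulAction G Z] [CommGroup C] (D : Aff G Z C)
  [Fintype Z] [Fintype C] [DecidableEq Z] [DecidableEq C] [DecidableEq (YY D)]
  [DecidableEq (XX D)]

end fourier

section fmain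

variable {G : Type u} [Group G] [Finite G] {n : Type} [Fintype n] [DecidableEq n]
  {A : Matrix n n (MonoidAlgebra ℤ G)} {Z C : Type*} [MulAction G Z] [CommGroup C]
  (D : Aff G Z C) [Fintype Z] [Fintype C]

/-- **The Fourier transform preserves the sign** -/
theorem sX_fourier (hA : TorOK.{u, 0} A) : sX A (YY D) = sX A (XX D) := by
  classical
  have : NeZero (Fintype.card C) := ⟨Fintype.card_ne_zero⟩
  have h1 : DD (theta D) A = ((sX A (XX D) : ℤ) : ℂ) :=
    DD_mono_set (M := Fintype.card C) hA (theta D) (theta_apply D)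
  have h2 : DD (theta D) A = DD (pmr (YY D) ℂ) A :=
    DD_conj (pmr (YY D) ℂ) (theta D) (QQ D) (PP D) (QQ_mul_PP D) (PP_mul_QQ D) (fun g => rfl) A
  rw [h2, DD_pmr] at h1
  exact_mod_cast h1

end fmain

end FSg2



/- from Sg3 -/

section FSg3

open Pool.Agent.Y72.Log Module MulAction

universe u v

section inv

variable {G : Type u} [Group G] [Finite G] {n : Type} [Fintype n] [DecidableEq n]
  {A : Matrix n n (MonoidAlgebra ℤ G)}

section act

variable {W : Type*} [MulAction G W] (θ : W → W) (h1 : ∀ w, θ (θ w) = w) (h2 : ∀ w, θ w ≠ w)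
  (h3 : ∀ (g : G) w, θ (g • w) = g • θ w)

end act

/-- **sets with a free equivariant involution have sign one** -/
theorem sX_inv (hA : TorOK.{u, 0} A) (W : Type*) [Fintype W] [MulAction G W] (θ : W → W)
    (h1 : ∀ w, θ (θ w) = w) (h2 : ∀ w, θ w ≠ w) (h3 : ∀ (g : G) w, θ (g • w) = g • θ w) :
    sX A W = 1 := by
  classical
  let _ : MulAction G (QT θ h1) := qtAct θ h1 h3
  have hfin : Finite (QT θ h1) := Quotient.finite (stt θ h1)
  let _ : Fintype (QT θ h1) := Fintype.ofFinite _
  let mk : W → QT θ h1 := Quotient.mk (stt θ h1)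
  let out : QT θ h1 → W := Quotient.out (s := stt θ h1)
  have hmk : ∀ z, mk (out z) = z := fun z => Quotient.out_eq (s := stt θ h1) z
  have hsm : ∀ (g : G) w, g • mk w = mk (g • w) := fun g w => rfl
  have hex : ∀ w w', mk w = mk w' → ∃ e : ℤˣ, ac θ e w = w' := fun w w' h => Quotient.exact h
  have hτ : ∀ (g : G) z, ∃ e : ℤˣ, ac θ e (out (g • z)) = g • out z := by
    intro g z
    apply hex
    rw [hmk, ← hsm, hmk]
  choose τ hτ using hτ
  let D : Aff G (QT θ h1) ℤˣ :=
    { α := fun _ _ => MonoidHom.id _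
      τ := τ
      one := fun _ _ => rfl
      mul := fun _ _ _ _ => rfl
      tau := by
        intro g h z
        apply ac_inj θ h2 (w := out ((g * h) • z))
        rw [hτ]
        show _ = ac θ (τ g (h • z) * τ h z) _
        rw [mul_comm, ac_mul θ h1, mul_smul g h z, hτ, ac_comm θ h3, hτ, mul_smul] }
  have e1 : sX A (YY D) = sX A W := by
    let f : YY D → W := fun y => ac θ y.2 (out y.1)
    have hf : Function.Bijective f := by
      constructor
      · rintro ⟨z, e⟩ ⟨z', e'⟩ h
        have h4 : ac θ e (out z) = ac θ e' (out z') := h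
        have h5 : z = z' := by
          rw [← hmk z, ← hmk z']
          apply Quotient.sound (s := stt θ h1)
          refine ⟨e' * e, ?_⟩
          rw [ac_mul θ h1, h4, ← ac_mul θ h1, Int.units_mul_self, ac_one]
        subst h5
        have h6 := ac_inj θ h2 h4
        rw [h6]
      · intro w
        obtain ⟨e, he⟩ := hex (out (mk w)) w (hmk _)
        exact ⟨(mk w, e), he⟩
    apply sX_equiv A (YY D) W (Equiv.ofBijective f hf)
    intro g y
    show ac θ (τ g y.1 * y.2) (out (g • y.1)) = g • ac θ y.2 (out y.1)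
    rw [mul_comm, ac_mul θ h1, hτ, ac_comm θ h3]
  have e2 : sX A (XX D) = sX A (QT θ h1 ⊕ QT θ h1) := by
    apply sX_congr
    intro g
    rw [card_fix_sum']
    have h4 : Nat.card (fixedBy (XX D) g) =
        Nat.card (fixedBy (QT θ h1) g × AddChar (Additive ℤˣ) ℂ) := by
      refine Nat.card_congr
        { toFun := fun x => (⟨x.1.1, congrArg (fun w : XX D => w.1) x.2⟩, x.1.2)
          invFun := fun x => ⟨((x.1.1, x.2) : XX D), ?_⟩
          left_inv := fun x => rfl
          right_inv := fun x => rfl }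
      refine Prod.ext x.1.2 ?_
      ext a
      rfl
    rw [h4, Nat.card_prod, Nat.card_eq_fintype_card (α := AddChar (Additive ℤˣ) ℂ),
      AddChar.card_eq]
    have h5 : Fintype.card (Additive ℤˣ) = 2 := rfl
    rw [h5]
    ring
  rw [← e1, sX_fourier D hA, e2, sX_sum]
  rcases sX_pm hA (QT θ h1) with h | h <;> rw [h] <;> rfl

end inv

section odd

variable {G : Type u} [Group G] [Finite G] {n : Type} [Fintype n] [DecidableEq n]
  {A : Matrix n n (MonoidAlgebra ℤ G)} {Z C : Type*} [MulAction G Z] [CommGroup C]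
  (D : Aff G Z C) [Fintype Z] [Fintype C]

/-- **odd affine bundles have the sign of the base** -/
theorem sX_odd (hA : TorOK.{u, 0} A) (hC : Odd (Fintype.card C)) : sX A (YY D) = sX A Z := by
  classical
  rw [sX_fourier D hA]
  have e1 : sX A (XX D) = sX A (Z ⊕ XN D) := by
    let f : XX D → Z ⊕ XN D := fun x => if h : x.2 = 0 then Sum.inl x.1 else Sum.inr ⟨x, h⟩
    have hf : Function.Bijective f := by
      constructor
      · intro x y h
        by_cases hx : x.2 = 0 <;> by_cases hy : y.2 = 0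
        · simp only [f, dif_pos hx, dif_pos hy] at h
          exact Prod.ext (Sum.inl_injective h) (hx.trans hy.symm)
        · simp only [f, dif_pos hx, dif_neg hy] at h
          exact absurd h Sum.inl_ne_inr
        · simp only [f, dif_neg hx, dif_pos hy] at h
          exact absurd h Sum.inr_ne_inl
        · simp only [f, dif_neg hx, dif_neg hy] at h
          exact congrArg Subtype.val (Sum.inr_injective h)
      · rintro (z | x)
        · exact ⟨((z, 0) : Z × AddChar (Additive C) ℂ), dif_pos rfl⟩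
        · exact ⟨x.1, dif_neg x.2⟩
    apply sX_equiv A _ _ (Equiv.ofBijective f hf)
    intro g x
    show f (g • x) = g • f x
    by_cases hx : x.2 = 0
    · have hgx : (g • x).2 = 0 := by
        ext a
        show x.2 (Additive.ofMul (D.α g⁻¹ (g • x.1) a.toMul)) = _
        rw [hx]
        rfl
      have e2 : f x = Sum.inl x.1 := dif_pos hx
      have e3 : f (g • x) = Sum.inl (g • x).1 := dif_pos hgx
      rw [e2, e3]
      rfl
    · let x' : XN D := ⟨x, hx⟩
      have e2 : f x = Sum.inr x' := dif_neg hx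
      have e3 : f (g • x) = Sum.inr (g • x') := dif_neg (g • x').2
      rw [e2, e3]
      rfl
  rw [e1, sX_sum]
  have e2 : sX A (XN D) = 1 := by
    have hneg : ∀ ψ : AddChar (Additive C) ℂ, ψ ≠ 0 → -ψ ≠ 0 := fun ψ h h0 =>
      h (neg_eq_zero.1 h0)
    apply sX_inv hA (XN D) (fun x => ⟨((x.1.1, -x.1.2) : XX D), hneg _ x.2⟩)
    · intro x
      apply Subtype.ext
      refine Prod.ext rfl ?_
      exact neg_neg _
    · intro x hx
      apply x.2
      have h1 : -x.1.2 = x.1.2 := congrArg (fun y : XN D => y.1.2) hx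
      have h2 : (2 : ℕ) • x.1.2 = 0 := by
        rw [two_nsmul]
        nth_rewrite 1 [← h1]
        exact neg_add_cancel _
      have h3 : Fintype.card C • x.1.2 = 0 := by
        have h4 : Fintype.card (AddChar (Additive C) ℂ) = Fintype.card C := by
          rw [AddChar.card_eq]
          exact Fintype.card_congr Additive.toMul
        rw [← h4]
        exact card_nsmul_eq_zero
      obtain ⟨k, hk⟩ := hC
      have h5 : (2 * k) • x.1.2 = 0 := by rw [mul_nsmul, h2, nsmul_zero]
      rw [hk, add_nsmul, one_nsmul, h5, zero_add] at h3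
      exact h3
    · intro g x
      apply Subtype.ext
      refine Prod.ext rfl ?_
      ext a
      show (-(g • x.1).2) a = (-x.1.2) (Additive.ofMul (D.α g⁻¹ (g • x.1.1) a.toMul))
      rw [AddChar.neg_apply, AddChar.neg_apply]
      show x.1.2 (Additive.ofMul (D.α g⁻¹ (g • x.1.1) (-a).toMul)) = _
      rw [toMul_neg, map_inv, ofMul_inv]
  rw [e2, mul_one]

end odd

end FSg3



/- from Sg4 -/

section FSg4

open Pool.Agent.Y72.Log Module MulAction

universe u v

section compl

variable {K : Type u} [Group K] [Finite K]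

end compl

section bundle

variable {G : Type u} [Group G] [Finite G] {n : Type} [Fintype n] [DecidableEq n]
  {A : Matrix n n (MonoidAlgebra ℤ G)}

/-- reduction to `2`-groups -/
theorem exists_two (hA : TorOK.{u, 0} A) (K : Subgroup G) (hE : Ep 2 K) [Fintype (G ⧸ K)] :
    ∃ (Y : Type u) (_ : Fintype Y) (_ : MulAction G Y),
      (∀ (y : Y) (g : G), g • y = y → ∃ s, g ^ 2 ^ s = 1) ∧
      sX A Y = sX A (G ⧸ K) ∧ ∃ m, Odd m ∧ Fintype.card Y = Fintype.card (G ⧸ K) * m := by
  classical
  obtain ⟨C, hCn, hodd, hab, cc, hcC, hcr, hcc, hc2⟩ := exists_crossed hE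
  let _ : CommGroup C := { (inferInstance : Group C) with
    mul_comm := fun a b => Subtype.ext (hab a.1 a.2 b.1 b.2) }
  let _ : Fintype C := Fintype.ofFinite C
  let t : G ⧸ K → G := Quotient.out
  have ht : ∀ z, ((t z : G) : G ⧸ K) = z := fun z => Quotient.out_eq' z
  have hκ : ∀ (g : G) z, (t (g • z))⁻¹ * g * t z ∈ K := by
    intro g z
    have h1 : ((t (g • z) : G) : G ⧸ K) = ((g * t z : G) : G ⧸ K) := by
      rw [ht]
      conv_lhs => rw [← ht z]
      rfl
    rw [mul_assoc]
    exact QuotientGroup.eq.1 h1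
  let κ : G → G ⧸ K → K := fun g z => ⟨_, hκ g z⟩
  have hκ1 : ∀ z, κ 1 z = 1 := by
    intro z
    apply Subtype.ext
    show (t ((1 : G) • z))⁻¹ * 1 * t z = 1
    rw [one_smul, mul_one, inv_mul_cancel]
  have hκm : ∀ (g h : G) z, κ (g * h) z = κ g (h • z) * κ h z := by
    intro g h z
    apply Subtype.ext
    show (t ((g * h) • z))⁻¹ * (g * h) * t z =
      (t (g • h • z))⁻¹ * g * t (h • z) * ((t (h • z))⁻¹ * h * t z)
    rw [mul_smul]
    group
  let D : Aff G (G ⧸ K) C :=
    { α := fun g z => (MulAut.conjNormal (κ g z) : MulAut C).toMonoidHom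
      τ := fun g z => ⟨cc (κ g z), hcC _⟩
      one := by
        intro z x
        rw [hκ1, map_one]
        rfl
      mul := by
        intro g h z x
        rw [hκm, map_mul]
        rfl
      tau := by
        intro g h z
        apply Subtype.ext
        show cc (κ (g * h) z) = cc (κ g (h • z)) *
          ((MulAut.conjNormal (κ g (h • z)) ⟨cc (κ h z), hcC _⟩ : C) : K)
        rw [hκm, hcr, MulAut.conjNormal_apply] }
  refine ⟨YY D, inferInstance, inferInstance, ?_, ?_, ?_⟩
  · rintro ⟨z, c⟩ g hg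
    have h1 : g • z = z := congrArg (fun y : YY D => y.1) hg
    have h2 : cc (κ g z) * (κ g z * c.1 * (κ g z)⁻¹) = c.1 := by
      have h3 : D.τ g z * D.α g z c = c := congrArg (fun y : YY D => y.2) hg
      have h4 := congrArg (fun x : C => (x : K)) h3
      have h5 : (((D.α g z c : C)) : K) = κ g z * c.1 * (κ g z)⁻¹ := MulAut.conjNormal_apply _ _
      have h6 : ((D.τ g z * D.α g z c : C) : K) = cc (κ g z) * ((D.α g z c : C) : K) := rfl
      rw [h6, h5] at h4
      exact h4
    set k := κ g z with hk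
    have h3 : cc (c.1⁻¹ * k * c.1) = 1 := by
      rw [mul_assoc, hcr, hcc _ (C.inv_mem c.2), hcr, hcc _ c.2, h2]
      group
    obtain ⟨s, hs⟩ := hc2 _ h3
    refine ⟨s, ?_⟩
    have h4 : k ^ 2 ^ s = 1 := by
      have h5 := conj_pow (i := 2 ^ s) (a := c.1⁻¹) (b := k)
      rw [inv_inv, hs] at h5
      have h6 : k ^ 2 ^ s = c.1 * (c.1⁻¹ * k ^ 2 ^ s * c.1) * c.1⁻¹ := by group
      rw [h6, ← h5]
      group
    have h5 : g = t z * k.1 * (t z)⁻¹ := by
      have h6 : k.1 = (t (g • z))⁻¹ * g * t z := rfl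
      rw [h6, h1]
      group
    rw [h5, conj_pow, ← Subgroup.coe_pow, h4, Subgroup.coe_one, mul_one, mul_inv_cancel]
  · apply sX_odd D hA
    rw [← Nat.card_eq_fintype_card]
    exact hodd
  · refine ⟨Fintype.card C, ?_, ?_⟩
    · rw [← Nat.card_eq_fintype_card]
      exact hodd
    · exact Fintype.card_prod (G ⧸ K) C

end bundle

end FSg4



/- from Sg5 -/

section FSg5

open Pool.Agent.Y72.Log Module MulAction

universe u v

section orb

variable {G : Type u} [Group G] [Finite G] {n : Type} [Fintype n] [DecidableEq n]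
  {A : Matrix n n (MonoidAlgebra ℤ G)}

lemma sX_empty (hA : TorOK.{u, 0} A) (X : Type*) [Fintype X] [IsEmpty X] [MulAction G X] :
    sX A X = 1 := by
  have h1 : sX A X = sX A (X ⊕ X) := by
    apply sX_congr
    intro g
    rw [card_fix_sum']
    have : Nat.card (fixedBy X g) = 0 := Nat.card_of_isEmpty
    rw [this]
  rw [sX_sum] at h1
  rcases sX_pm hA X with h | h
  · exact h
  · rw [h] at h1
    norm_num at h1

/-- **induction over orbits** -/
theorem orbit_ind (hA : TorOK.{u, 0} A) (Pr : Subgroup G → Prop) (w : ℤ)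
    (h : ∀ (K : Subgroup G) [Fintype (G ⧸ K)], Pr K → sX A (G ⧸ K) = w ^ Fintype.card (G ⧸ K)) :
    ∀ (N : ℕ) (X : Type u) [Fintype X] [MulAction G X], Fintype.card X = N →
      (∀ x : X, Pr (stabilizer G x)) → sX A X = w ^ Fintype.card X := by
  classical
  intro N
  induction N using Nat.strong_induction_on with
  | _ N ih =>
  intro X _ _ hN hX
  rcases isEmpty_or_nonempty X with hE | ⟨⟨x0⟩⟩
  · rw [sX_empty hA, Fintype.card_eq_zero, pow_zero]
  · let _ : MulAction G {y : X // y ∉ orbit G x0} := coAct X x0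
    let _ : Fintype (G ⧸ stabilizer G x0) := Fintype.ofFinite _
    let f : (G ⧸ stabilizer G x0) ⊕ {y : X // y ∉ orbit G x0} → X := fun z => match z with
      | Sum.inl q => ofQuotientStabilizer G x0 q
      | Sum.inr y => y.1
    have hf : Function.Bijective f := by
      constructor
      · rintro (a | a) (b | b) hab
        · exact congrArg Sum.inl (injective_ofQuotientStabilizer G x0 hab)
        · exfalso
          apply b.2
          have hab' : ofQuotientStabilizer G x0 a = b.1 := hab
          rw [← hab']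
          exact ofQuotientStabilizer_mem_orbit G x0 a
        · exfalso
          apply a.2
          have hab' : a.1 = ofQuotientStabilizer G x0 b := hab
          rw [hab']
          exact ofQuotientStabilizer_mem_orbit G x0 b
        · exact congrArg Sum.inr (Subtype.ext hab)
      · intro x
        by_cases hx : x ∈ orbit G x0
        · obtain ⟨g, rfl⟩ := hx
          exact ⟨Sum.inl (QuotientGroup.mk g), rfl⟩
        · exact ⟨Sum.inr ⟨x, hx⟩, rfl⟩
    have e1 : sX A ((G ⧸ stabilizer G x0) ⊕ {y : X // y ∉ orbit G x0}) = sX A X := by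
      apply sX_equiv A _ _ (Equiv.ofBijective f hf)
      rintro g (a | a)
      · exact ofQuotientStabilizer_smul G x0 g a
      · rfl
    have e2 : Fintype.card X = Fintype.card (G ⧸ stabilizer G x0) +
        Fintype.card {y : X // y ∉ orbit G x0} := by
      rw [← Fintype.card_sum]
      exact (Fintype.card_congr (Equiv.ofBijective f hf)).symm
    have hpos : 0 < Fintype.card (G ⧸ stabilizer G x0) := Fintype.card_pos
    rw [← e1, sX_sum, h _ (hX x0), ih (Fintype.card {y : X // y ∉ orbit G x0}) (by omega) _ rfl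
      (fun y => by
        have h1 : stabilizer G y = stabilizer G y.1 := by
          ext g
          rw [mem_stabilizer_iff, mem_stabilizer_iff]
          exact Subtype.ext_iff
        rw [h1]
        exact hX y.1), e2, pow_add]

/-- the coset spaces of `2`-groups which are not Sylow subgroups -/
theorem sX_proper (hA : TorOK.{u, 0} A) (P K : Subgroup G) (hP : IsPGroup 2 P) (hKP : K ≤ P)
    (hne : K ≠ P) [Fintype (G ⧸ K)] : sX A (G ⧸ K) = 1 ∧ Even (Fintype.card (G ⧸ K)) := by
  classical
  obtain ⟨g, hg, hg2, hgK⟩ := exists_norm P K hP hKP hne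
  let θ : G ⧸ K → G ⧸ K := Quotient.map' (s₁ := QuotientGroup.leftRel K)
    (s₂ := QuotientGroup.leftRel K) (fun x => x * g) (by
      intro x y hxy
      rw [QuotientGroup.leftRel_apply] at hxy ⊢
      have h1 := hgK _ hxy
      rw [mul_inv_rev]
      have h2 : g⁻¹ * x⁻¹ * (y * g) = g⁻¹ * (x⁻¹ * y) * g := by group
      rw [h2]
      exact h1)
  have hθ : ∀ x : G, θ (x : G ⧸ K) = ((x * g : G) : G ⧸ K) := fun x => rfl
  have h1 : ∀ w, θ (θ w) = w := by
    intro w
    obtain ⟨x, rfl⟩ := QuotientGroup.mk_surjective w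
    rw [hθ, hθ]
    symm
    rw [QuotientGroup.eq, mul_assoc, inv_mul_cancel_left]
    exact hg2
  have h2 : ∀ w, θ w ≠ w := by
    intro w
    obtain ⟨x, rfl⟩ := QuotientGroup.mk_surjective w
    rw [hθ]
    intro h
    have h3 := QuotientGroup.eq.1 h.symm
    rw [inv_mul_cancel_left] at h3
    exact hg h3
  refine ⟨sX_inv hA (G ⧸ K) θ h1 h2 ?_, ?_⟩
  · intro y w
    obtain ⟨x, rfl⟩ := QuotientGroup.mk_surjective w
    show ((y * x * g : G) : G ⧸ K) = ((y * (x * g) : G) : G ⧸ K)
    rw [mul_assoc]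
  · have : Fact (Nat.Prime 2) := ⟨Nat.prime_two⟩
    have h3 := Equiv.Perm.card_fixedPoints_modEq (α := G ⧸ K) (f := (θ : Function.End (G ⧸ K)))
      (p := 2) (n := 1) (by
        rw [pow_one]
        funext w
        exact h1 w)
    have h4 : Fintype.card (Function.fixedPoints (θ : Function.End (G ⧸ K))) = 0 := by
      rw [Fintype.card_eq_zero_iff]
      exact ⟨fun x => h2 x.1 x.2⟩
    rw [h4] at h3
    exact even_iff_two_dvd.2 (Nat.modEq_zero_iff_dvd.1 h3)

/-- all permutation representations with `2`-groups as stabilizers -/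
theorem sX_two (hA : TorOK.{u, 0} A) : ∃ w : ℤ, (w = 1 ∨ w = -1) ∧
    ∀ (X : Type u) [Fintype X] [MulAction G X],
      (∀ (x : X) (g : G), g • x = x → ∃ s, g ^ 2 ^ s = 1) → sX A X = w ^ Fintype.card X := by
  classical
  have : Fact (Nat.Prime 2) := ⟨Nat.prime_two⟩
  obtain ⟨P⟩ : Nonempty (Sylow 2 G) := inferInstance
  let _ : Fintype (G ⧸ (P : Subgroup G)) := Fintype.ofFinite _
  let w := sX A (G ⧸ (P : Subgroup G))
  have hw : w = 1 ∨ w = -1 := sX_pm hA _
  have hPodd : Odd (Fintype.card (G ⧸ (P : Subgroup G))) := by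
    rw [← Nat.not_even_iff_odd, ← Nat.card_eq_fintype_card]
    intro he
    exact P.not_dvd_index he.two_dvd
  refine ⟨w, hw, fun X _ _ hX => ?_⟩
  refine orbit_ind hA (fun K => IsPGroup 2 K) w ?_ _ X rfl ?_
  · intro K _ hK
    obtain ⟨Q, hQ⟩ := hK.exists_le_sylow
    by_cases hne : K = (Q : Subgroup G)
    · obtain ⟨x, hx⟩ := MulAction.exists_smul_eq G Q P
      have h1 := sX_conj (A := A) (P : Subgroup G) K x (by
        intro k
        rw [← hx, hne]
        have h2 : ((x • Q : Sylow 2 G) : Subgroup G) =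
            (Q : Subgroup G).map (MulAut.conj x).toMonoidHom := rfl
        rw [h2]
        constructor
        · intro hk
          exact ⟨k, hk, rfl⟩
        · rintro ⟨k', hk', h3⟩
          have h4 : x * k' * x⁻¹ = x * k * x⁻¹ := h3
          have h5 : k' = k := by
            have := congrArg (fun y => x⁻¹ * y * x) h4
            simpa [mul_assoc] using this
          exact h5 ▸ hk')
      rw [h1.1, h1.2]
      exact (pm_pow_odd hw hPodd).symm
    · obtain ⟨h1, h2⟩ := sX_proper hA (Q : Subgroup G) K Q.2 hQ hne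
      rw [h1, pm_pow_even hw h2]
  · intro x
    rintro ⟨g, hg⟩
    obtain ⟨s, hs⟩ := hX x g hg
    exact ⟨s, Subtype.ext hs⟩

/-- all permutation representations with stabilizers in the class `Ep 2` -/
theorem sX_Ep (hA : TorOK.{u, 0} A) : ∃ w : ℤ, (w = 1 ∨ w = -1) ∧
    ∀ (X : Type u) [Fintype X] [MulAction G X],
      (∀ x : X, Ep 2 (stabilizer G x)) → sX A X = w ^ Fintype.card X := by
  classical
  obtain ⟨w, hw, h2⟩ := sX_two hA
  refine ⟨w, hw, fun X _ _ hX => ?_⟩
  refine orbit_ind hA (fun K => Ep 2 K) w ?_ _ X rfl hX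
  intro K _ hK
  obtain ⟨Y, i1, i2, hY, h3, m, hm, h4⟩ := exists_two hA K hK
  rw [← h3, h2 Y hY, h4, mul_comm, pow_mul, pm_pow_odd hw hm]

lemma eps_pm (hA : TorOK.{u, 0} A) : eps A = 1 ∨ eps A = -1 := by
  have h1 := fin_main (L := ℂ) hA (chg (Int.castRingHom ℂ) (trv G ℤ))
  rw [DD_chg] at h1
  have h2 : Int.castRingHom ℂ (DD (trv G ℤ) A) = ((eps A : ℤ) : ℂ) := rfl
  rw [h2] at h1
  rcases h1 with h | h
  · left
    exact_mod_cast h
  · right
    have : ((eps A : ℤ) : ℂ) = ((-1 : ℤ) : ℂ) := by rw [h]; push_cast; rfl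
    exact_mod_cast this

/-- **the signs of all permutation representations** -/
theorem sX_all (hA : TorOK.{u, 0} A) (Z : Type u) [Fintype Z] [MulAction G Z] :
    sX A Z = eps A ^ Fintype.card Z := by
  classical
  have : Fact (Nat.Prime 2) := ⟨Nat.prime_two⟩
  obtain ⟨w, hw, hEp⟩ := sX_Ep hA
  obtain ⟨m, X, Y, i1, i2, i3, i4, hm, hX, hY, h⟩ := solomon (G := G) (p := 2)
  cases nonempty_fintype X
  cases nonempty_fintype Y
  have hmo : Odd m := Nat.not_even_iff_odd.1 (fun he => hm he.two_dvd)
  have hcard : Fintype.card X = m + Fintype.card Y := by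
    have h1 := h 1
    have h2 : ∀ (W : Type u) [Fintype W] [MulAction G W],
        Nat.card (fixedBy W (1 : G)) = Fintype.card W := by
      intro W _ _
      rw [← Nat.card_eq_fintype_card]
      exact Nat.card_congr (Equiv.subtypeUnivEquiv (fun x => one_smul G x))
    rw [h2, h2] at h1
    exact h1
  -- the sign of `w`
  have hwe : w = eps A := by
    have h1 := DD_tns_shift (trv G ℤ) A m X Y h
    rw [sX_dec, sX_dec, hEp X hX, hEp Y hY, hcard, pow_add] at h1
    have h2 : w ^ Fintype.card Y ≠ 0 := pow_ne_zero _ (by rcases hw with h | h <;> rw [h] <;> norm_num)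
    have h3 := mul_right_cancel₀ h2 h1
    rw [pm_pow_odd hw hmo] at h3
    have h4 : DD (trv G ℤ) A ^ m = eps A := pm_pow_odd (eps_pm hA) hmo
    rw [h4] at h3
    exact h3
  -- the general case
  have h1 := sX_shift A Z m (Z × X) (Z × Y) (by
    intro g
    rw [card_fix_prod, card_fix_prod, h]
    ring)
  have hZX : ∀ (W : Type u) [MulAction G W], (∀ x : W, Ep 2 (stabilizer G x)) →
      ∀ x : Z × W, Ep 2 (stabilizer G x) := by
    intro W _ hW x
    apply (hW x.2).le
    intro g hg
    exact congrArg Prod.snd hg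
  rw [hEp (Z × X) (hZX X hX), hEp (Z × Y) (hZX Y hY), Fintype.card_prod, Fintype.card_prod, hcard,
    mul_add, pow_add, hwe] at h1
  have h2 : eps A ^ (Fintype.card Z * Fintype.card Y) ≠ 0 :=
    pow_ne_zero _ (by rcases eps_pm hA with h | h <;> rw [h] <;> norm_num)
  have h3 := mul_right_cancel₀ h2 h1
  rw [pm_pow_odd (sX_pm hA Z) hmo, mul_comm, pow_mul, pm_pow_odd (eps_pm hA) hmo] at h3
  exact h3.symm

end orb

end FSg5



/- from Sg6 -/

section FSg6

open Pool.Agent.Y72.Log Module MulAction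

universe u v

section act

variable {G : Type u} [Group G] {L : Type v} [Field L] {κ : Type u} [Fintype κ] [DecidableEq κ]
  {M : ℕ} [NeZero M]

end act

section exact

variable {G : Type u} [Group G] [Finite G] {L : Type v} [Field L] {n : Type} [Fintype n]
  [DecidableEq n] {A : Matrix n n (MonoidAlgebra ℤ G)} {M : ℕ} [NeZero M]

/-- the determinant of a monomial representation -/
lemma DD_mono_sign (hA : TorOK.{u, v} A) (hA0 : TorOK.{u, 0} A) {κ : Type} [Fintype κ]
    [DecidableEq κ] (σ : G →* Matrix κ κ L)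
    (hm : ∀ g j, ∃ i, ∃ c : L, c ^ M = 1 ∧ ∀ k, σ g k j = if k = i then c else 0) :
    DD σ A = ((eps A ^ Fintype.card κ : ℤ) : L) := by
  let e : κ ≃ ULift.{u} κ := Equiv.ulift.symm
  have hm' : ∀ g j, ∃ i, ∃ c : L, c ^ M = 1 ∧ ∀ k, rei e σ g k j = if k = i then c else 0 := by
    intro g j
    obtain ⟨i, c, hc, h⟩ := hm g (e.symm j)
    refine ⟨e i, c, hc, fun k => ?_⟩
    rw [rei_apply, h]
    by_cases hk : e.symm k = i
    · rw [if_pos hk, if_pos (by rw [← hk, Equiv.apply_symm_apply])]
    · rw [if_neg hk, if_neg (fun h => hk (by rw [h, Equiv.symm_apply_apply]))]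
  choose nx hnx using hm'
  let _ : MulAction G (ULift.{u} κ) := moAct (rei e σ) nx hnx
  have h1 := DD_mono_set (M := M) hA (rei e σ) hnx
  rw [DD_rei, sX_all hA0] at h1
  rw [h1]
  congr 2
  exact Fintype.card_congr e.symm

/-- triangular representations with monomial blocks -/
theorem DD_Mt_sign [Nonempty n] (hA : TorOK.{u, v} A) (hA0 : TorOK.{u, 0} A) {ι : Type*}
    [Fintype ι] [DecidableEq ι] (ρ : G →* Matrix ι ι L) (h : Mt M (toEnd ρ)) :
    DD ρ A = ((eps A ^ Fintype.card ι : ℤ) : L) := by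
  classical
  obtain ⟨m, σ, β, hmc, h1, h2⟩ := exists_tri' ρ h
  rw [← h1]
  have hβ : ∀ g, (σ g).BlockTriangular β := by
    intro g k j hkj
    obtain ⟨i, hi, c, hc, h3⟩ := h2 g j
    rw [h3 k (not_lt.2 hkj.le), if_neg]
    rintro rfl
    omega
  have himg : (Finset.univ : Finset (n × Fin m)).image (fun x => β x.2) = Finset.univ.image β := by
    ext k
    rw [Finset.mem_image, Finset.mem_image]
    constructor
    · rintro ⟨x, _, hx⟩
      exact ⟨x.2, Finset.mem_univ _, hx⟩
    · rintro ⟨j, _, hj⟩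
      exact ⟨(Classical.arbitrary n, j), Finset.mem_univ _, hj⟩
  rw [DD_tri σ β hβ A, himg]
  have h4 : ∀ k ∈ Finset.univ.image β, DD (dgb σ β hβ k) A =
      ((eps A ^ (Fintype.card {i // β i = k}) : ℤ) : L) := by
    intro k _
    apply DD_mono_sign (M := M) hA hA0
    rintro g ⟨j, hj⟩
    obtain ⟨i, hi, c, hc, h3⟩ := h2 g j
    refine ⟨⟨i, hi.trans hj⟩, c, hc, ?_⟩
    rintro ⟨k', hk'⟩
    rw [dgb_apply, h3 k' (by rw [hk', hj]; exact lt_irrefl k)]
    by_cases h4 : k' = i
    · rw [if_pos h4, if_pos (Subtype.ext h4)]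
    · rw [if_neg h4, if_neg (fun hc => h4 (congrArg Subtype.val hc))]
  rw [Finset.prod_congr rfl h4, ← Int.cast_prod, Finset.prod_pow_eq_pow_sum]
  congr 2
  rw [← hmc]
  have h5 := Finset.card_eq_sum_card_image β (Finset.univ : Finset (Fin m))
  rw [Finset.card_univ, Fintype.card_fin] at h5
  refine Eq.trans ?_ h5.symm
  apply Finset.sum_congr rfl
  intro k _
  rw [Fintype.card_subtype]

/-- **the exact determinants in all representations of a finite group over an algebraically closed
field** -/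
theorem fin_sign [Nonempty n] [IsAlgClosed L] (hA : TorOK.{u, v} A) (hA0 : TorOK.{u, 0} A)
    {ι : Type} [Fintype ι] [DecidableEq ι] (ρ : G →* Matrix ι ι L) :
    DD ρ A = ((eps A ^ Fintype.card ι : ℤ) : L) := by
  classical
  have : Fact (Nat.Prime 2) := ⟨Nat.prime_two⟩
  have : NeZero (Nat.card G) := ⟨Nat.card_pos.ne'⟩
  obtain ⟨m, X, Y, i1, i2, i3, i4, hm, hX, hY, h⟩ := solomon (G := G) (p := 2)
  cases nonempty_fintype X
  cases nonempty_fintype Y
  have hmo : Odd m := Nat.not_even_iff_odd.1 (fun he => hm he.two_dvd)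
  have hcard : Fintype.card X = m + Fintype.card Y := by
    have h1 := h 1
    have h2 : ∀ (W : Type u) [Fintype W] [MulAction G W],
        Nat.card (fixedBy W (1 : G)) = Fintype.card W := by
      intro W _ _
      rw [← Nat.card_eq_fintype_card]
      exact Nat.card_congr (Equiv.subtypeUnivEquiv (fun x => one_smul G x))
    rw [h2, h2] at h1
    exact h1
  have h1 := DD_tns_shift ρ A m X Y h
  have h2 := DD_Mt_sign hA hA0 (tns X ρ) (tns_Mt X hX ρ)
  have h3 := DD_Mt_sign hA hA0 (tns Y ρ) (tns_Mt Y hY ρ)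
  have h4 := fin_main hA ρ
  have h5 : DD ρ A ^ m = DD ρ A := by
    obtain ⟨r, rfl⟩ := hmo
    rcases h4 with h | h
    · rw [h, one_pow]
    · rw [h, pow_succ, pow_mul, neg_one_sq, one_pow, one_mul]
  have hne : ((eps A ^ (Fintype.card ι * Fintype.card Y) : ℤ) : L) ≠ 0 := by
    rcases eps_pm hA0 with h | h
    · rw [h, one_pow, Int.cast_one]
      exact one_ne_zero
    · rw [h]
      push_cast
      exact pow_ne_zero _ (neg_ne_zero.2 one_ne_zero)
  rw [h2, h3, h5, Fintype.card_prod, Fintype.card_prod, hcard, mul_add, pow_add, Int.cast_mul] at h1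
  have h6 := mul_right_cancel₀ hne h1
  rw [← h6, mul_comm, pow_mul, pm_pow_odd (eps_pm hA0) hmo]

end exact

end FSg6



end Pool.Agent.V5helper75.RN.Sg
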