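import Pool.Agent.V5helper75.RN.MCdet
import Pool.Agent.V5helper75.RN.Sg
import Pool.Agent.R791.Disc

/-!
# Hermitian matrices in unitary representations over group rings of finite commutative groups
-/

set_option autoImplicit false
set_option linter.unusedSectionVars false

namespace Pool.Agent.V5helper75.RN

open Finset H219.Wh Pool.Agent.Y72.Log Pool.Agent.Y72.Dt Pool.Agent.R791
open Pool.Agent.H23R2 (cf supp mem_supp pairing jacobi)
open scoped Classical

universe u

section pair

variable {Γ : Type*} [Group Γ] {n : ℕ}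

/-- the pairing with a function which is odd under inversion -/
lemma pairing_herm (h2 : ∀ g : Γ, g * g = 1 → g = 1) (ε : ℤ) (hε : ε = 1 ∨ ε = -1)
    (A : (Matrix (Fin n) (Fin n) (MonoidAlgebra ℤ Γ))ˣ)
    (hA : ∀ i j g, (A.val i j).coeff g = ε * (A.val j i).coeff g⁻¹)
    {M : Type*} [AddCommGroup M] (f : Γ → Γ → M) (hf : ∀ g h, f g⁻¹ h⁻¹ = - f g h)
    (hf1 : f 1 1 = 0) : pairing f (A⁻¹).val A.val = 0 := by
  have hB := inv_herm ε hε A hA
  have hεε : ε * ε = 1 := by rcases hε with rfl | rfl <;> norm_num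
  have hε0 : ε ≠ 0 := by rcases hε with rfl | rfl <;> norm_num
  let S : Finset Γ := supp A.val ∪ supp (A⁻¹).val
  have hSA : ∀ i j g, (A.val i j).coeff g ≠ 0 → g ∈ S :=
    fun i j g hg => Finset.mem_union_left _ (mem_supp _ i j g hg)
  have hSB : ∀ i j g, ((A⁻¹).val i j).coeff g ≠ 0 → g ∈ S :=
    fun i j g hg => Finset.mem_union_right _ (mem_supp _ i j g hg)
  have hsup : ∀ (V : Matrix (Fin n) (Fin n) (MonoidAlgebra ℤ Γ)),
      (∀ i j g, (V i j).coeff g = ε * (V j i).coeff g⁻¹) → ∀ g, g ∈ supp V → g⁻¹ ∈ supp V := by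
    intro V hV g hg
    unfold supp at hg
    simp only [Finset.mem_biUnion, Finset.mem_univ, true_and, Finsupp.mem_support_iff] at hg
    obtain ⟨i, j, hij⟩ := hg
    apply mem_supp V j i
    intro hc
    apply hij
    rw [hV, hc, mul_zero]
  have hS : ∀ g, g ∈ S → g⁻¹ ∈ S := by
    intro g hg
    rcases Finset.mem_union.1 hg with h | h
    · exact Finset.mem_union_left _ (hsup _ hA g h)
    · exact Finset.mem_union_right _ (hsup _ hB g h)
  have e1 : pairing f (A⁻¹).val A.val = ∑ y ∈ ((Finset.univ : Finset (Fin n × Fin n)) ×ˢ (S ×ˢ S)),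
      (((A⁻¹).val y.1.1 y.1.2).coeff y.2.1 * (A.val y.1.2 y.1.1).coeff y.2.2) •
        f y.2.1 y.2.2 := by
    rw [Finset.sum_product, Fintype.sum_prod_type]
    unfold pairing
    apply Finset.sum_congr rfl
    intro i _
    apply Finset.sum_congr rfl
    intro j _
    rw [Finset.sum_product, Finsupp.sum_of_support_subset (s := S)]
    · apply Finset.sum_congr rfl
      intro g _
      rw [Finsupp.sum_of_support_subset (s := S)]
      · intro h hh
        exact hSA j i h (by simpa using hh)
      · intro h _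
        rw [mul_zero, zero_smul]
    · intro g hg
      exact hSB i j g (by simpa using hg)
    · intro g _
      simp [Finsupp.sum]
  rw [e1]
  refine Finset.sum_involution (fun y _ => ((y.1.2, y.1.1), (y.2.1⁻¹, y.2.2⁻¹))) ?_ ?_ ?_ ?_
  · rintro ⟨⟨i, j⟩, ⟨g, h⟩⟩ _
    show (((A⁻¹).val i j).coeff g * (A.val j i).coeff h) • f g h +
      (((A⁻¹).val j i).coeff g⁻¹ * (A.val i j).coeff h⁻¹) • f g⁻¹ h⁻¹ = 0
    have e2 : ((A⁻¹).val i j).coeff g = ε * ((A⁻¹).val j i).coeff g⁻¹ := hB i j g
    have e3 : (A.val j i).coeff h = ε * (A.val i j).coeff h⁻¹ := hA j i h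
    have e4 : ((A⁻¹).val i j).coeff g * (A.val j i).coeff h =
        ((A⁻¹).val j i).coeff g⁻¹ * (A.val i j).coeff h⁻¹ := by
      rw [e2, e3]
      calc _ = (ε * ε) * (((A⁻¹).val j i).coeff g⁻¹ * (A.val i j).coeff h⁻¹) := by ring
        _ = _ := by rw [hεε, one_mul]
    rw [e4, hf, smul_neg, add_neg_cancel]
  · rintro ⟨⟨i, j⟩, ⟨g, h⟩⟩ _ hne heq
    apply hne
    simp only [Prod.mk.injEq] at heq
    have hg : g = 1 := by
      apply h2
      calc g * g = g * g⁻¹ := by rw [heq.2.1]
        _ = 1 := mul_inv_cancel g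
    have hh : h = 1 := by
      apply h2
      calc h * h = h * h⁻¹ := by rw [heq.2.2]
        _ = 1 := mul_inv_cancel h
    show (((A⁻¹).val i j).coeff g * (A.val j i).coeff h) • f g h = 0
    rw [hg, hh, hf1, smul_zero]
  · rintro ⟨⟨i, j⟩, ⟨g, h⟩⟩ hy
    simp only [Finset.mem_product, Finset.mem_univ, true_and] at hy ⊢
    exact ⟨hS _ hy.1, hS _ hy.2⟩
  · rintro ⟨⟨i, j⟩, ⟨g, h⟩⟩ _
    simp only [inv_inv]

end pair

section fin

variable {Γ : Type u} [Group Γ] {n d : ℕ}

lemma adj_sq {ε : ℤ} (hε : ε = 1 ∨ ε = -1) (A : (Matrix (Fin n) (Fin n) (MonoidAlgebra ℤ Γ))ˣ)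
    (hA : ∀ i j g, (A.val i j).coeff g = ε * (A.val j i).coeff g⁻¹) :
    adj (A * A).val = (A * A).val := by
  have h1 : A.val = ε • adj A.val := by
    ext i j g
    rw [hA i j g, Matrix.smul_apply, adj_apply, MonoidAlgebra.coeff_smul, Finsupp.smul_apply,
      coeff_bar, smul_eq_mul]
  have hεε : ε * ε = 1 := by rcases hε with rfl | rfl <;> norm_num
  rw [Units.val_mul, adj_mul]
  conv_rhs => rw [h1]
  rw [smul_mul_smul_comm, hεε, one_smul]

/-- **determinants of hermitian matrices in representations with finite image** -/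
theorem det_fin {F : Type*} [Field F] [CharZero F] (hs : SepU Γ) {ε : ℤ} (hε : ε = 1 ∨ ε = -1)
    (A : (Matrix (Fin n) (Fin n) (MonoidAlgebra ℤ Γ))ˣ)
    (hA : ∀ i j g, (A.val i j).coeff g = ε * (A.val j i).coeff g⁻¹)
    (ρ : Γ →* Matrix (Fin d) (Fin d) F) (hρ : (Set.range ρ).Finite) :
    ∃ N : ℕ, 0 < N ∧ (DD ρ A.val) ^ N = 1 := by
  let ρu : Γ →* (Matrix (Fin d) (Fin d) F)ˣ := ρ.toHomUnits
  let G := ρu.range
  have hfin : Finite G := by
    have h1 : (Set.range ρu).Finite := by
      apply Set.Finite.of_finite_image (f := Units.val) _ Units.val_injective.injOn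
      apply hρ.subset
      rintro _ ⟨_, ⟨g, rfl⟩, rfl⟩
      exact ⟨g, rfl⟩
    exact h1.to_subtype
  have : Fintype G := Fintype.ofFinite G
  let π : Γ →* G := ρu.rangeRestrict
  have hπ : Function.Surjective π := ρu.rangeRestrict_surjective
  let ρ' : G →* Matrix (Fin d) (Fin d) F := (Units.coeHom _).comp G.subtype
  obtain ⟨N, hN, h1⟩ := det_rep2 (mpU π (A * A)) (mc_of_sep hs π hπ (A * A) (adj_sq hε A hA)) ρ'
  refine ⟨2 * N, Nat.mul_pos two_pos hN, ?_⟩
  have h2 : blkR (lr ρ') (mpU π (A * A)).val = blkR (lrG ρ) (A * A).val := by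
    have h3 := blkR_mpU π ρ' (A * A)
    exact h3
  rw [h2, Units.val_mul] at h1
  have h4 : (blkR (lrG ρ) (A.val * A.val)).det = DD ρ A.val ^ 2 := by
    rw [map_mul, Matrix.det_mul, pow_two]
    rfl
  rw [h4, ← pow_mul] at h1
  exact h1

end fin

section odd

variable {T : Type*} [CommGroup T] {S : Type*} [CommRing S]

lemma DM_bar (μ : T →* Multiplicative S) (x : MonoidAlgebra S T) :
    DM μ (bar x) = - bar (DM μ x) := by
  ext t
  have e1 : (-bar ((DM μ) x)).coeff t = -((bar ((DM μ) x)).coeff t) := rfl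
  rw [e1, DM_coeff, coeff_bar, coeff_bar, DM_coeff, map_inv μ t, toAdd_inv]
  ring

lemma bar_sum' {ι : Type*} (s : Finset ι) (f : ι → MonoidAlgebra S T) :
    bar (∑ i ∈ s, f i) = ∑ i ∈ s, bar (f i) := bar_sum s f

lemma bar_neg' (x : MonoidAlgebra S T) : bar (-x) = - bar x := by
  have h : bar (-x) + bar x = 0 := by rw [← bar_add, neg_add_cancel, bar_zero]
  exact eq_neg_of_add_eq_zero_left h

/-- the logarithmic derivative is odd -/
lemma tr_odd {Γ : Type*} [Group Γ] {d : ℕ} (μ : T →* Multiplicative S)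
    (ρ : Γ →* Matrix (Fin d) (Fin d) (MonoidAlgebra S T))
    (hρ : ∀ g i j, ρ g⁻¹ i j = bar (ρ g j i)) (g h : Γ) :
    (ρ g⁻¹ * (ρ h⁻¹).map (DM μ)).trace = - bar ((ρ g * (ρ h).map (DM μ)).trace) := by
  have e1 : (ρ g⁻¹ * (ρ h⁻¹).map (DM μ)).trace =
      ∑ i, ∑ j, - bar (DM μ (ρ h i j) * ρ g j i) := by
    unfold Matrix.trace
    apply Finset.sum_congr rfl
    intro i _
    rw [Matrix.diag_apply, Matrix.mul_apply]
    apply Finset.sum_congr rfl
    intro j _
    rw [Matrix.map_apply, hρ, hρ, DM_bar, bar_mul, mul_neg]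
  have e2 : (ρ g * (ρ h).map (DM μ)).trace = ∑ j, ∑ i, ρ g j i * DM μ (ρ h i j) := by
    unfold Matrix.trace
    apply Finset.sum_congr rfl
    intro j _
    rw [Matrix.diag_apply, Matrix.mul_apply]
    apply Finset.sum_congr rfl
    intro i _
    rw [Matrix.map_apply]
  rw [e1, e2, Finset.sum_comm, bar_sum, ← Finset.sum_neg_distrib]
  apply Finset.sum_congr rfl
  intro j _
  rw [bar_sum, ← Finset.sum_neg_distrib]
  apply Finset.sum_congr rfl
  intro i _
  rw [mul_comm]

end odd

section tors

variable {Γ : Type u} [Group Γ] {n d : ℕ}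

/-- the logarithmic derivative of the determinant as a pairing -/
lemma dlog_pair (A : (Matrix (Fin n) (Fin n) (MonoidAlgebra ℤ Γ))ˣ) {R : Type*} [CommRing R]
    (D : Derivation ℤ R R) (ρ : Γ →* Matrix (Fin d) (Fin d) R) :
    D (block ρ A.val).det = (block ρ A.val).det *
      pairing (fun g h => (ρ g * (ρ h).map D).trace) (A⁻¹).val A.val := by
  have hXY : block ρ A.val * block ρ (A⁻¹).val = 1 := by
    rw [← block_mul, A.mul_inv, block_one]
  rw [jacobi D (block ρ A.val) (block ρ (A⁻¹).val) hXY, trace_block]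

/-- **determinants of hermitian matrices in unitary representations over integral group rings of
finite commutative groups** -/
theorem tors2 (hs : SepU Γ) (h2 : ∀ g : Γ, g * g = 1 → g = 1) {ε : ℤ} (hε : ε = 1 ∨ ε = -1)
    (A : (Matrix (Fin n) (Fin n) (MonoidAlgebra ℤ Γ))ˣ)
    (hA : ∀ i j g, (A.val i j).coeff g = ε * (A.val j i).coeff g⁻¹)
    {T : Type*} [CommGroup T] [Finite T]
    (ρ : Γ →* Matrix (Fin d) (Fin d) (MonoidAlgebra ℤ T)) (hρ : (Set.range ρ).Finite)
    (hun : ∀ g i j, ρ g⁻¹ i j = bar (ρ g j i)) :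
    DD ρ A.val = 1 ∨ DD ρ A.val = -1 := by
  have hDD : DD ρ A.val = (block ρ A.val).det := by
    unfold DD
    rw [block_eq_blkR]
  rw [hDD]
  set u := (block ρ A.val).det with hudef
  -- the character values
  have h1 : ∀ ψ : AddChar (Additive T) ℂ, ‖chr ψ u‖ = 1 := by
    intro ψ
    have hr : (Set.range (((chr ψ).mapMatrix.toMonoidHom).comp ρ :
        Γ →* Matrix (Fin d) (Fin d) ℂ)).Finite := by
      have : Set.range (((chr ψ).mapMatrix.toMonoidHom).comp ρ :
        Γ →* Matrix (Fin d) (Fin d) ℂ) = (chr ψ).mapMatrix '' Set.range ρ := by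
        ext x
        simp only [Set.mem_range, Set.mem_image, exists_exists_eq_and]
        rfl
      rw [this]
      exact hρ.image _
    obtain ⟨N, hN, h3⟩ := det_fin hs hε A hA (((chr ψ).mapMatrix.toMonoidHom).comp ρ) hr
    have h5 : (chr ψ u) ^ N = 1 := by
      rw [← h3, hudef]
      congr 1
      have h6 : DD (((chr ψ).mapMatrix.toMonoidHom).comp ρ) A.val =
          (block (((chr ψ).mapMatrix.toMonoidHom).comp ρ) A.val).det := by
        unfold DD
        rw [block_eq_blkR]
      rw [h6, block_map]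
      exact RingHom.map_det _ _
    exact Complex.norm_eq_one_of_pow_eq_one h5 hN.ne'
  obtain ⟨t, ht⟩ := triv_unit u h1
  -- the logarithmic derivative
  have h2' : t = 1 := by
    by_contra hne
    obtain ⟨p, N, hp, μ, hμ⟩ := exists_char t hne
    let π : MonoidAlgebra ℤ T →+* MonoidAlgebra (ZMod (p ^ N)) T :=
      MonoidAlgebra.mapRingHom T (Int.castRingHom (ZMod (p ^ N)))
    let ρN : Γ →* Matrix (Fin d) (Fin d) (MonoidAlgebra (ZMod (p ^ N)) T) :=
      (π.mapMatrix.toMonoidHom).comp ρ
    have hπbar : ∀ x, π (bar x) = bar (π x) := by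
      intro x
      ext s
      rw [coeff_bar]
      show (MonoidAlgebra.mapRingHom T (Int.castRingHom (ZMod (p ^ N))) (bar x)).coeff s =
        (MonoidAlgebra.mapRingHom T (Int.castRingHom (ZMod (p ^ N))) x).coeff s⁻¹
      rw [MonoidAlgebra.coeff_mapRingHom, MonoidAlgebra.coeff_mapRingHom, coeff_bar]
    have hρN : ∀ g i j, ρN g⁻¹ i j = bar (ρN g j i) := by
      intro g i j
      show π (ρ g⁻¹ i j) = bar (π (ρ g j i))
      rw [hun, hπbar]
    have h3 := dlog_pair A (DM μ) ρN
    have h4 : (block ρN A.val).det = π u := by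
      rw [hudef]
      show (block ((π.mapMatrix.toMonoidHom).comp ρ) A.val).det = _
      rw [block_map]
      exact (RingHom.map_det π _).symm
    rw [h4] at h3
    set P : MonoidAlgebra (ZMod (p ^ N)) T :=
      pairing (fun g h => (ρN g * (ρN h).map (DM μ)).trace) (A⁻¹).val A.val with hP
    -- the coefficient of the trace at one
    have hP1 : P.coeff 1 = 0 := by
      let L : MonoidAlgebra (ZMod (p ^ N)) T →+ ZMod (p ^ N) :=
        { toFun := fun x => x.coeff 1
          map_zero' := rfl
          map_add' := fun _ _ => rfl }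
      have e1 : L P = pairing (fun g h => L ((ρN g * (ρN h).map (DM μ)).trace))
          (A⁻¹).val A.val := by
        rw [hP]
        unfold pairing
        simp only [map_sum, Finsupp.sum, map_zsmul]
      have e2 : pairing (fun g h => L ((ρN g * (ρN h).map (DM μ)).trace))
          (A⁻¹).val A.val = 0 := by
        apply pairing_herm h2 ε hε A hA
        · intro g h
          rw [tr_odd μ ρN hρN]
          show (-bar ((ρN g * (ρN h).map (DM μ)).trace)).coeff 1 =
            -(((ρN g * (ρN h).map (DM μ)).trace).coeff 1)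
          have e3 : (-bar ((ρN g * (ρN h).map (DM μ)).trace)).coeff 1 =
            -((bar ((ρN g * (ρN h).map (DM μ)).trace)).coeff 1) := rfl
          rw [e3, coeff_bar, inv_one]
        · have e3 : (ρN 1).map (DM μ) = 0 := by
            rw [map_one]
            ext1 i j
            rw [Matrix.map_apply, Matrix.one_apply, Matrix.zero_apply]
            split_ifs
            · exact Derivation.map_one_eq_zero _
            · exact map_zero _
          show L ((ρN 1 * (ρN 1).map (DM μ)).trace) = 0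
          rw [e3, mul_zero, Matrix.trace_zero, map_zero]
      have e3 : L P = 0 := e1.trans e2
      exact e3
    -- comparison of the coefficients at `t`
    have h5 : ∃ c : ZMod (p ^ N), π u = MonoidAlgebra.single t c ∧ (c = 1 ∨ c = -1) := by
      rcases ht with h | h
      · refine ⟨1, ?_, Or.inl rfl⟩
        rw [h]
        ext s
        show (MonoidAlgebra.mapRingHom T (Int.castRingHom (ZMod (p ^ N)))
          (MonoidAlgebra.single t 1)).coeff s = _
        rw [MonoidAlgebra.coeff_mapRingHom, MonoidAlgebra.coeff_single, MonoidAlgebra.coeff_single,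
          Finsupp.single_apply, Finsupp.single_apply]
        split_ifs <;> simp
      · refine ⟨-1, ?_, Or.inr rfl⟩
        rw [h]
        ext s
        show (MonoidAlgebra.mapRingHom T (Int.castRingHom (ZMod (p ^ N)))
          (MonoidAlgebra.single t (-1))).coeff s = _
        rw [MonoidAlgebra.coeff_mapRingHom, MonoidAlgebra.coeff_single, MonoidAlgebra.coeff_single,
          Finsupp.single_apply, Finsupp.single_apply]
        split_ifs <;> simp
    obtain ⟨c, hc, hc1⟩ := h5
    have h6 : (DM μ (π u)).coeff t = (π u * P).coeff t :=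
      congrArg (fun x : MonoidAlgebra (ZMod (p ^ N)) T => x.coeff t) h3
    rw [DM_coeff, hc, MonoidAlgebra.coeff_single, Finsupp.single_eq_same] at h6
    have h7 : (MonoidAlgebra.single t c * P).coeff t = c * P.coeff 1 := by
      rw [MonoidAlgebra.coeff_single_mul_apply, inv_mul_cancel]
    rw [h7, hP1, mul_zero] at h6
    apply hμ
    have h8 : (μ t).toAdd = 0 := by
      rcases hc1 with h | h
      · rw [h, mul_one] at h6
        exact h6
      · rw [h, mul_neg, mul_one, neg_eq_zero] at h6
        exact h6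
    exact toAdd_eq_zero.1 h8
  rw [h2'] at ht
  rcases ht with h | h
  · left
    rw [h]
    rfl
  · right
    rw [h, MonoidAlgebra.single_neg]
    rfl

end tors

end Pool.Agent.V5helper75.RN
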