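import Pool.Agent.V5helper75.RN.Van
import Pool.Agent.R791.Bar

/-!
# The congruences for hermitian matrices
-/

set_option autoImplicit false
set_option linter.unusedSectionVars false

namespace Pool.Agent.V5helper75.RN

open Finset Pool.Agent.H23R2 H219.Wh Pool.Agent.Y72.Log Pool.Agent.R791
open scoped Classical

universe u

section cong

variable {I S : Type*} [Fintype I] [Fintype S] {Γ : Type u} {G : Type*} [Group Γ] [Group G]
  [Fintype G] {gr : S → Γ} {A B : I → I → S → ℤ}

lemma zp_comm (g : G) (a b : Subgroup.zpowers g) : a * b = b * a := by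
  obtain ⟨j, hj⟩ := a.2
  obtain ⟨k, hk⟩ := b.2
  apply Subtype.ext
  show (a : G) * b = b * a
  rw [← hj, ← hk]
  exact (Commute.zpow_zpow_self g j k)

/-- the generators of a cyclic group of order divisible by `p` are not `p`-th powers -/
lemma isCls_gen {p : ℕ} (hp : p.Prime) {g : G} (hg : p ∣ orderOf g) :
    IsCls p (fun q : Subgroup.zpowers g => Subgroup.zpowers q =
      Subgroup.zpowers (⟨g, Subgroup.mem_zpowers g⟩ : Subgroup.zpowers g)) := by
  refine ⟨?_, ?_⟩
  · intro w x hw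
    have h1 : x⁻¹ * w * x = w := by
      rw [mul_assoc, zp_comm g w x, inv_mul_cancel_left]
    rw [h1, hw]
  · intro x hx
    have h1 : (⟨g, Subgroup.mem_zpowers g⟩ : Subgroup.zpowers g) ∈ Subgroup.zpowers (x ^ p) :=
      hx ▸ Subgroup.mem_zpowers _
    obtain ⟨k, hk⟩ := Subgroup.mem_zpowers_iff.1 h1
    apply (isCls_zpowers hp hg).npow (x ^ k)
    show (x ^ k) ^ p = _
    rw [← hk, ← zpow_natCast, ← zpow_natCast, ← zpow_mul, ← zpow_mul, mul_comm]

/-- **the main congruence** -/
theorem main_cong2 {p : ℕ} (hp : p.Prime) (h : IP gr A B) (hs : SepU Γ)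
    (π : Γ →* G) (hπ : Function.Surjective π) {a : ℕ} (ha : 1 ≤ a)
    (hnA : NearOne ((p : ℤ) ^ a) (tot (fun s => π (gr s)) A))
    (hnB : NearOne ((p : ℤ) ^ a) (tot (fun s => π (gr s)) B)) {g : G} (hg : p ∣ orderOf g) :
    (p : ℤ) ^ (2 * a) ∣ (∑ x : G, ∑ i, tot (fun s => π (gr s)) A i i (x * g * x⁻¹)) +
      ∑ x : G, ∑ i, tot (fun s => π (gr s)) A i i (x * g⁻¹ * x⁻¹) := by
  have : Fintype (G ⧸ Subgroup.zpowers g) := Fintype.ofFinite _
  have hsep : Sep (Subgroup.closure (Set.range (grR π hπ (Subgroup.zpowers g) gr))) := by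
    have hfg : Group.FG (Subgroup.closure (Set.range (grR π hπ (Subgroup.zpowers g) gr))) :=
      Group.closure_finite_fg _
    exact (hs.subgroup (Subgroup.comap π (Subgroup.zpowers g))) _
      (Subgroup.subtype _) (Subgroup.subtype_injective _)
  have h1 := trace_van2 (zp_comm g) hp (ip_res π hπ (Subgroup.zpowers g) h) hsep
    (toQ π (Subgroup.zpowers g)) (isCls_gen hp hg) ha
    (near_res π hπ (Subgroup.zpowers g) hnA) (near_res π hπ (Subgroup.zpowers g) hnB)
  set q0 : Subgroup.zpowers g := ⟨g, Subgroup.mem_zpowers g⟩ with hq0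
  set T : Subgroup.zpowers g → ℤ := fun q => ∑ x : I × (G ⧸ Subgroup.zpowers g),
      tot (fun s => toQ π (Subgroup.zpowers g) (grR π hπ (Subgroup.zpowers g) gr s))
        (matR π (Subgroup.zpowers g) gr A) x x q with hT
  have hTe : ∀ q : Subgroup.zpowers g, T q = ∑ t : G ⧸ Subgroup.zpowers g, ∑ i : I,
      tot (fun s => π (gr s)) A i i (Quotient.out t * (q : G) * (Quotient.out t)⁻¹) := by
    intro q
    rw [hT]
    simp only
    rw [Fintype.sum_prod_type, Finset.sum_comm]
    apply Finset.sum_congr rfl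
    intro t _
    apply Finset.sum_congr rfl
    intro i _
    rw [tot_res]
  have e1 : ∑ x : G, ∑ i, tot (fun s => π (gr s)) A i i (x * g * x⁻¹) =
      (Nat.card (Subgroup.zpowers g) : ℤ) * T q0 := by
    rw [sum_conj_eq g (fun y => ∑ i, tot (fun s => π (gr s)) A i i y), hTe]
  have e2 : ∑ x : G, ∑ i, tot (fun s => π (gr s)) A i i (x * g⁻¹ * x⁻¹) =
      (Nat.card (Subgroup.zpowers g) : ℤ) * T q0⁻¹ := by
    have h2 := sum_conj_eq g (fun y => ∑ i, tot (fun s => π (gr s)) A i i y⁻¹)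
    have h3 : ∀ x : G, (x * g * x⁻¹)⁻¹ = x * g⁻¹ * x⁻¹ := by
      intro x
      group
    simp only [h3] at h2
    rw [h2, hTe]
    rfl
  rw [e1, e2, ← mul_add]
  apply Dvd.dvd.mul_left
  have h1' : (p : ℤ) ^ (2 * a) ∣ ∑ q with (q = q0 ∨ q = q0⁻¹), T q := by
    refine dvd_trans h1 (dvd_of_eq ?_)
    apply Finset.sum_congr _ (fun _ _ => rfl)
    ext q
    simp only [Finset.mem_filter]
  by_cases hq : q0 = q0⁻¹
  · have h2 : ∑ q with (q = q0 ∨ q = q0⁻¹), T q = T q0 := by
      rw [Finset.sum_filter, Finset.sum_eq_single q0]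
      · exact if_pos (Or.inl rfl)
      · intro b _ hb
        rw [if_neg]
        rintro (hc | hc)
        · exact hb hc
        · exact hb (hc.trans hq.symm)
      · intro hc
        exact absurd (Finset.mem_univ _) hc
    rw [h2] at h1'
    rw [← hq]
    exact dvd_add h1' h1'
  · have h2 : ∑ q with (q = q0 ∨ q = q0⁻¹), T q = T q0 + T q0⁻¹ := by
      rw [Finset.sum_filter]
      have h3 : ∀ q : Subgroup.zpowers g, (if (q = q0 ∨ q = q0⁻¹) then T q else 0) =
          (if q = q0 then T q else 0) + (if q = q0⁻¹ then T q else 0) := by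
        intro q
        by_cases h4 : q = q0
        · have h5 : q ≠ q0⁻¹ := fun hc => hq (h4.symm.trans hc)
          rw [if_pos (Or.inl h4), if_pos h4, if_neg h5, add_zero]
        · by_cases h5 : q = q0⁻¹
          · rw [if_pos (Or.inr h5), if_neg h4, if_pos h5, zero_add]
          · rw [if_neg (fun hc => hc.elim h4 h5), if_neg h4, if_neg h5, add_zero]
      simp_rw [h3]
      rw [Finset.sum_add_distrib, Finset.sum_ite_eq', Finset.sum_ite_eq',
        if_pos (Finset.mem_univ _), if_pos (Finset.mem_univ _)]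
    rw [h2] at h1'
    exact h1'

end cong

section herm

variable {Γ G : Type*} [Group Γ] [Group G] {n : ℕ}

lemma mp_bar (π : Γ →* G) (x : MonoidAlgebra ℤ Γ) : mp π (bar x) = bar (mp π x) := by
  induction x using MonoidAlgebra.induction_linear with
  | zero => simp
  | add a b ha hb => rw [bar_add, map_add, map_add, ha, hb, bar_add]
  | single g r => rw [bar_single, mp_single, mp_single, bar_single, map_inv]

lemma adj_pow (V : Matrix (Fin n) (Fin n) (MonoidAlgebra ℤ Γ)) (k : ℕ) :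
    adj (V ^ k) = (adj V) ^ k := by
  induction k with
  | zero => rw [pow_zero, pow_zero, adj_one]
  | succ k ih => rw [pow_succ', adj_mul, ih, pow_succ]

lemma mpU_symm [Fintype G] (π : Γ →* G) (V : (Matrix (Fin n) (Fin n) (MonoidAlgebra ℤ Γ))ˣ)
    (hV : adj V.val = V.val) (i : Fin n) (g : G) :
    ((mpU π V).val i i).coeff g⁻¹ = ((mpU π V).val i i).coeff g := by
  have h1 : V.val i i = bar (V.val i i) := by
    conv_lhs => rw [← hV]
    rfl
  have h2 : (mpU π V).val i i = bar ((mpU π V).val i i) := by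
    rw [mpU_val, ← mp_bar, ← h1]
  conv_rhs => rw [h2]
  rw [coeff_bar]

end herm

section mc

variable {G : Type*} [Group G] [Fintype G] {n : Type*} [Fintype n] [DecidableEq n]

/-- the congruences for the powers of a matrix, up to a factor two -/
def MC2 (X : (Matrix n n (MonoidAlgebra ℤ G))ˣ) : Prop :=
  ∀ p : ℕ, p.Prime → ∀ a : ℕ, 1 ≤ a → ∀ k : ℕ,
    (∃ Z : Matrix n n (MonoidAlgebra ℤ G),
      (X : Matrix n n (MonoidAlgebra ℤ G)) ^ k = 1 + ((p : ℤ) ^ a) • Z) →
    ∀ g : G, p ∣ orderOf g → (p : ℤ) ^ (2 * a) ∣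
      2 * ∑ x : G, ∑ i, (((X : Matrix n n (MonoidAlgebra ℤ G)) ^ k) i i).coeff (x * g * x⁻¹)

end mc

section mc

variable {Γ : Type u} {G : Type*} [Group Γ] [Group G] [Fintype G] {n : ℕ}

/-- **the congruences for the images of a hermitian matrix** -/
theorem mc_of_sep (hs : SepU Γ) (π : Γ →* G) (hπ : Function.Surjective π)
    (A : (Matrix (Fin n) (Fin n) (MonoidAlgebra ℤ Γ))ˣ) (hA : adj A.val = A.val) :
    MC2 (mpU π A) := by
  intro p hp a ha k hk g hg
  obtain ⟨Z, hZ⟩ := hk
  set V := A ^ k with hV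
  have hXV : (mpU π A).val ^ k = (mpU π V).val := by
    rw [hV, mpU, mpU, map_pow, Units.val_pow_eq_pow_val]
  have hVh : adj V.val = V.val := by
    rw [hV, Units.val_pow_eq_pow_val, adj_pow, hA]
  rw [hXV] at hZ ⊢
  have hinv : (mpU π V⁻¹).val = 1 + ((p : ℤ) ^ a) • (-(Z * (mpU π V⁻¹).val)) := by
    have h1 : (mpU π V).val * (mpU π V⁻¹).val = 1 := by
      have h2 : mpU π V⁻¹ = (mpU π V)⁻¹ := map_inv _ _
      rw [h2, Units.mul_inv]
    rw [hZ, add_mul, one_mul, smul_mul_assoc] at h1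
    rw [smul_neg, ← sub_eq_add_neg, eq_sub_iff_add_eq]
    exact h1
  set T := supp V.val ∪ supp (V⁻¹).val with hT
  have hTA : ∀ i j g, (V.val i j).coeff g ≠ 0 → g ∈ T :=
    fun i j g hg => Finset.mem_union_left _ (mem_supp _ i j g hg)
  have hTB : ∀ i j g, ((V⁻¹).val i j).coeff g ≠ 0 → g ∈ T :=
    fun i j g hg => Finset.mem_union_right _ (mem_supp _ i j g hg)
  have hKA : ∀ i j g, (cf V.val i j g).natAbs ≤ Kb V :=
    fun i j g => ((exists_bound V.val).choose_spec i j g).trans (le_max_left _ _)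
  have hKB : ∀ i j g, (cf (V⁻¹).val i j g).natAbs ≤ Kb V :=
    fun i j g => ((exists_bound (V⁻¹).val).choose_spec i j g).trans (le_max_right _ _)
  have htA : tot (fun s => π (grl T (Kb V) s)) (lett (cf V.val) T (Kb V)) =
      fun i j g => ((mpU π V).val i j).coeff g := by
    funext i j g
    exact tot_lett π V.val T (Kb V) hTA hKA i j g
  have htB : tot (fun s => π (grl T (Kb V) s)) (lett (cf (V⁻¹).val) T (Kb V)) =
      fun i j g => ((mpU π V⁻¹).val i j).coeff g := by
    funext i j g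
    exact tot_lett π (V⁻¹).val T (Kb V) hTB hKB i j g
  have h1 := main_cong2 hp (ip_of_invPair (invPair_units V) (Kb V) hKA hKB) hs π hπ ha
    (by rw [htA]; exact nearOne_of hZ) (by rw [htB]; exact nearOne_of hinv) hg
  rw [htA] at h1
  have h2 : ∑ x : G, ∑ i, ((mpU π V).val i i).coeff (x * g⁻¹ * x⁻¹) =
      ∑ x : G, ∑ i, ((mpU π V).val i i).coeff (x * g * x⁻¹) := by
    apply Finset.sum_congr rfl
    intro x _
    apply Finset.sum_congr rfl
    intro i _
    rw [← mpU_symm π V hVh]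
    congr 1
    group
  have h3 : 2 * ∑ x : G, ∑ i, ((mpU π V).val i i).coeff (x * g * x⁻¹) =
      (∑ x : G, ∑ i, ((mpU π V).val i i).coeff (x * g * x⁻¹)) +
      ∑ x : G, ∑ i, ((mpU π V).val i i).coeff (x * g⁻¹ * x⁻¹) := by
    rw [h2, two_mul]
  rw [h3]
  exact h1

end mc

end Pool.Agent.V5helper75.RN
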