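import Pool.Agent.V5helper75.RN.Compat

/-!
# The slice sum of a product
-/

set_option autoImplicit false
set_option linter.unusedSectionVars false

namespace Pool.Agent.V5helper75.RN

open Finset Pool.Agent.H23R2 H219.Wh Pool.Agent.Y72.Log
open scoped Classical

section fiber

variable {m : ℕ} [NeZero m] {M : Type*} [AddCommGroup M]

/-- sums over words with independent letters -/
lemma sum_fib {Q Y : Type*} [Fintype Q] [Fintype Y] (w : ZMod m → Q → ℤ) (ν : Q → Y)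
    (Φ : (ZMod m → Y) → M) :
    ∑ q : ZMod m → Q, (∏ j, w j (q j)) • Φ (fun j => ν (q j)) =
      ∑ y : ZMod m → Y, (∏ j, ∑ x with ν x = y j, w j x) • Φ y := by
  rw [← Finset.sum_fiberwise (s := Finset.univ) (g := fun (q : ZMod m → Q) j => ν (q j))]
  apply Finset.sum_congr rfl
  intro y _
  rw [Finset.prod_univ_sum, Finset.sum_smul]
  have h1 : (Finset.univ : Finset (ZMod m → Q)).filter (fun q => (fun j => ν (q j)) = y) =
      Fintype.piFinset (fun j => Finset.univ.filter (fun x => ν x = y j)) := by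
    ext q
    rw [Fintype.mem_piFinset]
    simp only [Finset.mem_filter, Finset.mem_univ, true_and]
    exact funext_iff
  rw [h1]
  apply Finset.sum_congr rfl
  intro q hq
  rw [← h1, Finset.mem_filter] at hq
  rw [hq.2]

/-- contraction -/
lemma sum_con {Q R : Type*} [Fintype Q] [Fintype R] [Group R] (w : ZMod m → Q → ℤ) (ν : Q → R)
    (c : ZMod m → ℤ) (hw : ∀ j g, ∑ x with ν x = g, w j x = if g = 1 then c j else 0)
    (Φ : (ZMod m → R) → M) :
    ∑ q : ZMod m → Q, (∏ j, w j (q j)) • Φ (fun j => ν (q j)) = (∏ j, c j) • Φ (fun _ => 1) := by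
  rw [sum_fib]
  simp_rw [hw]
  rw [Finset.sum_eq_single (fun _ => (1 : R))]
  · simp
  · intro y _ hy
    obtain ⟨j, hj⟩ : ∃ j, y j ≠ 1 := by
      by_contra hc
      push Not at hc
      exact hy (funext hc)
    rw [Finset.prod_eq_zero (Finset.mem_univ j) (if_neg hj), zero_smul]
  · intro hc
    exact absurd (Finset.mem_univ _) hc

end fiber

section mul

variable {I : Type*} [Fintype I] {R : Type*} [Group R] [Fintype R] {m : ℕ} [NeZero m]

/-- the product -/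
noncomputable def cmul (A B : I → I → R → ℤ) : I → I → R → ℤ :=
  fun i l g => ∑ k, ∑ a, ∑ b, if a * b = g then A i k a * B k l b else 0

/-- letters: `i, k, l, k', a₁, a₂, b₂, b₁` -/
abbrev Zz (I R : Type*) := (I × I × I × I) × (R × R × R × R)

variable {A₁ A₂ B₁ B₂ : I → I → R → ℤ}

/-- the weight -/
def w4 (A₁ A₂ B₂ B₁ : I → I → R → ℤ) (x : ZMod m → Zz I R) : ℤ :=
  ∏ j, (A₁ (x j).1.1 (x j).1.2.1 (x j).2.1 * A₂ (x j).1.2.1 (x j).1.2.2.1 (x j).2.2.1 *
    (B₂ (x j).1.2.2.1 (x j).1.2.2.2 (x j).2.2.2.1 *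
      B₁ (x j).1.2.2.2 (x (j + 1)).1.1 (x j).2.2.2.2))

def U4 (x : ZMod m → Zz I R) : ZMod m → R := fun j =>
  (x j).2.1 * ((x j).2.2.1 * (x j).2.2.2.1 * (x j).2.2.2.2)

def X4 (x : ZMod m → Zz I R) : ZMod m → R := fun j =>
  (x j).2.2.1 * (x j).2.2.2.1 * (x j).2.2.2.2 * (x (j + 1)).2.1

def V4 (x : ZMod m → Zz I R) : ZMod m → R := fun j =>
  (x j).2.2.2.1 * (x j).2.2.2.2 * (x (j + 1)).2.1 * (x (j + 1)).2.2.1

lemma w4_shift (c : ZMod m) (x : ZMod m → Zz I R) :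
    w4 A₁ A₂ B₂ B₁ (shift c x) = w4 A₁ A₂ B₂ B₁ x := by
  unfold w4
  refine Fintype.prod_equiv (Equiv.addRight c) _ _ ?_
  intro k
  simp only [shift_apply, Equiv.coe_addRight]
  rw [show k + 1 + c = k + c + 1 by ring]

lemma U4_shift (c : ZMod m) (x : ZMod m → Zz I R) : U4 (shift c x) = shift c (U4 x) := rfl

lemma X4_shift (c : ZMod m) (x : ZMod m → Zz I R) : X4 (shift c x) = shift c (X4 x) := by
  funext k
  simp only [X4, shift_apply]
  rw [show k + 1 + c = k + c + 1 by ring]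

lemma V4_shift (c : ZMod m) (x : ZMod m → Zz I R) : V4 (shift c x) = shift c (V4 x) := by
  funext k
  simp only [V4, shift_apply]
  rw [show k + 1 + c = k + c + 1 by ring]

variable {p : ℕ} {P : R → Prop}

lemma PX4 (hP : IsCls p P) (x : ZMod m → Zz I R) : P (W (X4 x) 0) ↔ P (W (U4 x) 0) := by
  have h := W_interleave (fun j => (x j).2.1)
    (fun j => (x j).2.2.1 * (x j).2.2.2.1 * (x j).2.2.2.2) 0
  have h1 : W (X4 x) 0 = ((x 0).2.1)⁻¹ * W (U4 x) 0 * (x 0).2.1 := h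
  rw [h1]
  exact hP.conj_iff _ _

lemma PV4 (hP : IsCls p P) (x : ZMod m → Zz I R) : P (W (V4 x) 0) ↔ P (W (X4 x) 0) := by
  have h := W_interleave (fun j => (x j).2.2.1)
    (fun j => (x j).2.2.2.1 * (x j).2.2.2.2 * (x (j + 1)).2.1) 0
  have e1 : (fun j => (x j).2.2.1 * ((x j).2.2.2.1 * (x j).2.2.2.2 * (x (j + 1)).2.1)) = X4 x := by
    funext j
    simp only [X4, mul_assoc]
  have h1 : W (V4 x) 0 = ((x 0).2.2.1)⁻¹ * W (X4 x) 0 * (x 0).2.2.1 := by
    rw [← e1]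
    exact h
  rw [h1]
  exact hP.conj_iff _ _

/-- first rearrangement: outer letters `i, k', a₁, b₁`, inner letters `k, l, a₂, b₂` -/
def e1 : (ZMod m → Zz I R) ≃ (ZMod m → Yy I R) × (ZMod m → I × I × R × R) where
  toFun x := (fun j => ((x j).1.1, (x j).1.2.2.2, (x j).2.1, (x j).2.2.2.2),
    fun j => ((x j).1.2.1, (x j).1.2.2.1, (x j).2.2.1, (x j).2.2.2.1))
  invFun y := fun j => (((y.1 j).1, (y.2 j).1, (y.2 j).2.1, (y.1 j).2.1),
    ((y.1 j).2.2.1, (y.2 j).2.2.1, (y.2 j).2.2.2, (y.1 j).2.2.2))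
  left_inv _ := rfl
  right_inv _ := rfl

/-- second rearrangement: outer letters `k, l, a₂, b₂`, inner letters `k', i, b₁, a₁` -/
def e2 : (ZMod m → Zz I R) ≃ (ZMod m → Yy I R) × (ZMod m → I × I × R × R) where
  toFun x := (fun j => ((x j).1.2.1, (x j).1.2.2.1, (x j).2.2.1, (x j).2.2.2.1),
    fun j => ((x j).1.2.2.2, (x (j + 1)).1.1, (x j).2.2.2.2, (x (j + 1)).2.1))
  invFun y := fun j => (((y.2 (j - 1)).2.1, (y.1 j).1, (y.1 j).2.1, (y.2 j).1),
    ((y.2 (j - 1)).2.2.2, (y.1 j).2.2.1, (y.1 j).2.2.2, (y.2 j).2.2.1))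
  left_inv x := by
    funext j
    simp only [sub_add_cancel]
  right_inv y := by
    refine Prod.ext rfl ?_
    funext j
    simp only [add_sub_cancel_right]

/-- third rearrangement -/
def e3 : (ZMod m → Zz I R) ≃ (ZMod m → I × I) × (ZMod m → (I × R × R) × (I × R × R)) where
  toFun x := (fun j => ((x j).1.1, (x j).1.2.2.1),
    fun j => (((x j).1.2.1, (x j).2.1, (x j).2.2.1),
      ((x j).1.2.2.2, (x j).2.2.2.1, (x j).2.2.2.2)))
  invFun y := fun j => (((y.1 j).1, (y.2 j).1.1, (y.1 j).2, (y.2 j).2.1),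
    ((y.2 j).1.2.1, (y.2 j).1.2.2, (y.2 j).2.2.1, (y.2 j).2.2.2))
  left_inv _ := rfl
  right_inv _ := rfl

/-- splitting the states from the letters -/
def e4 : (ZMod m → Yy I R) ≃ (ZMod m → I × I) × (ZMod m → R × R) where
  toFun x := (fun j => ((x j).1, (x j).2.1), fun j => (x j).2.2)
  invFun y := fun j => ((y.1 j).1, (y.1 j).2, y.2 j)
  left_inv _ := rfl
  right_inv _ := rfl

variable {M : Type*} [AddCommGroup M]

lemma ip_inner {A B : I → I → R → ℤ} (h : IP (id : R → R) A B) (k l : I) (g : R) :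
    ∑ x : I × R × R with x.2.1 * x.2.2 = g, A k x.1 x.2.1 * B x.1 l x.2.2 =
      if k = l ∧ g = 1 then 1 else 0 := by
  rw [← h.ab k l g, Finset.sum_filter, Fintype.sum_prod_type]
  apply Finset.sum_congr rfl
  intro j _
  rw [Fintype.sum_prod_type]
  rfl

/-- the first contraction -/
lemma con1 (h₂ : IP (id : R → R) A₂ B₂) (Φ : (ZMod m → Yy I R) → (ZMod m → R) → M) :
    ∑ x : ZMod m → Zz I R, w4 A₁ A₂ B₂ B₁ x •
      Φ (e1 x).1 (fun j => (x j).2.2.1 * (x j).2.2.2.1) =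
    ∑ o : ZMod m → Yy I R, wt A₁ B₁ o • Φ o (fun _ => 1) := by
  rw [← e1.symm.sum_comp, Fintype.sum_prod_type]
  apply Finset.sum_congr rfl
  intro o _
  have h1 := sum_con (m := m) (M := M) (Q := I × I × R × R) (R := R)
    (fun j q => A₁ (o j).1 q.1 (o j).2.2.1 * A₂ q.1 q.2.1 q.2.2.1 *
      (B₂ q.2.1 (o j).2.1 q.2.2.2 * B₁ (o j).2.1 (o (j + 1)).1 (o j).2.2.2))
    (fun q => q.2.2.1 * q.2.2.2)
    (fun j => A₁ (o j).1 (o j).2.1 (o j).2.2.1 * B₁ (o j).2.1 (o (j + 1)).1 (o j).2.2.2)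
    (by
      intro j g
      rw [Finset.sum_filter, Fintype.sum_prod_type]
      have h2 : ∀ k : I, (∑ y : I × R × R, if y.2.1 * y.2.2 = g then
          A₁ (o j).1 k (o j).2.2.1 * A₂ k y.1 y.2.1 *
          (B₂ y.1 (o j).2.1 y.2.2 * B₁ (o j).2.1 (o (j + 1)).1 (o j).2.2.2) else 0) =
          A₁ (o j).1 k (o j).2.2.1 * B₁ (o j).2.1 (o (j + 1)).1 (o j).2.2.2 *
            (if k = (o j).2.1 ∧ g = 1 then 1 else 0) := by
        intro k
        rw [← ip_inner h₂ k (o j).2.1 g, Finset.sum_filter, Finset.mul_sum]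
        apply Finset.sum_congr rfl
        intro y _
        split_ifs
        · ring
        · rw [mul_zero]
      simp only [h2]
      rw [Finset.sum_eq_single (o j).2.1]
      · by_cases hg : g = 1
        · rw [if_pos ⟨rfl, hg⟩, if_pos hg, mul_one]
        · rw [if_neg (fun hc => hg hc.2), if_neg hg, mul_zero]
      · intro k _ hk
        rw [if_neg (fun hc => hk hc.1), mul_zero]
      · intro hc
        exact absurd (Finset.mem_univ _) hc)
    (fun y => Φ o y)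
  exact h1

/-- the second contraction -/
lemma con2 (h₁ : IP (id : R → R) A₁ B₁) (Φ : (ZMod m → Yy I R) → (ZMod m → R) → M) :
    ∑ x : ZMod m → Zz I R, w4 A₁ A₂ B₂ B₁ x •
      Φ (e2 x).1 (fun j => (x j).2.2.2.2 * (x (j + 1)).2.1) =
    ∑ o : ZMod m → Yy I R, wt A₂ B₂ o • Φ o (fun _ => 1) := by
  rw [← e2.symm.sum_comp, Fintype.sum_prod_type]
  apply Finset.sum_congr rfl
  intro o _
  have h1 := sum_con (m := m) (M := M) (Q := I × I × R × R) (R := R)
    (fun j q => A₁ q.2.1 (o (j + 1)).1 q.2.2.2 * A₂ (o j).1 (o j).2.1 (o j).2.2.1 *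
      (B₂ (o j).2.1 q.1 (o j).2.2.2 * B₁ q.1 q.2.1 q.2.2.1))
    (fun q => q.2.2.1 * q.2.2.2)
    (fun j => A₂ (o j).1 (o j).2.1 (o j).2.2.1 * B₂ (o j).2.1 (o (j + 1)).1 (o j).2.2.2)
    (by
      intro j g
      rw [Finset.sum_filter, Fintype.sum_prod_type]
      have h2 : ∀ k : I, (∑ y : I × R × R, if y.2.1 * y.2.2 = g then
          A₁ y.1 (o (j + 1)).1 y.2.2 * A₂ (o j).1 (o j).2.1 (o j).2.2.1 *
          (B₂ (o j).2.1 k (o j).2.2.2 * B₁ k y.1 y.2.1) else 0) =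
          A₂ (o j).1 (o j).2.1 (o j).2.2.1 * B₂ (o j).2.1 k (o j).2.2.2 *
            (if k = (o (j + 1)).1 ∧ g = 1 then 1 else 0) := by
        intro k
        rw [← ip_inner h₁.symm k (o (j + 1)).1 g, Finset.sum_filter, Finset.mul_sum]
        apply Finset.sum_congr rfl
        intro y _
        split_ifs
        · ring
        · rw [mul_zero]
      simp only [h2]
      rw [Finset.sum_eq_single (o (j + 1)).1]
      · by_cases hg : g = 1
        · rw [if_pos ⟨rfl, hg⟩, if_pos hg, mul_one]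
        · rw [if_neg (fun hc => hg hc.2), if_neg hg, mul_zero]
      · intro k _ hk
        rw [if_neg (fun hc => hk hc.1), mul_zero]
      · intro hc
        exact absurd (Finset.mem_univ _) hc)
    (fun y => Φ o y)
  refine Eq.trans ?_ h1
  apply Finset.sum_congr rfl
  intro q _
  congr 1
  · unfold w4
    have h2 : ∏ j : ZMod m, A₁ ((e2.symm (o, q) : ZMod m → Zz I R) j).1.1
        ((e2.symm (o, q) : ZMod m → Zz I R) j).1.2.1 ((e2.symm (o, q) : ZMod m → Zz I R) j).2.1 =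
        ∏ j : ZMod m, A₁ (q j).2.1 (o (j + 1)).1 (q j).2.2.2 := by
      rw [← Equiv.prod_comp (Equiv.addRight (1 : ZMod m))]
      apply Finset.prod_congr rfl
      intro j _
      simp only [e2, Equiv.coe_fn_symm_mk, Equiv.coe_addRight, add_sub_cancel_right]
    simp only [Finset.prod_mul_distrib] at h2 ⊢
    rw [h2]
    simp only [e2, Equiv.coe_fn_symm_mk, add_sub_cancel_right]
  · congr 1
    funext j
    simp only [e2, Equiv.coe_fn_symm_mk, add_sub_cancel_right]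

/-- the product -/
lemma con3 (Φ : (ZMod m → Yy I R) → M) :
    ∑ x : ZMod m → Zz I R, w4 A₁ A₂ B₂ B₁ x •
      Φ (fun j => ((x j).1.1, (x j).1.2.2.1, (x j).2.1 * (x j).2.2.1,
        (x j).2.2.2.1 * (x j).2.2.2.2)) =
    ∑ o : ZMod m → Yy I R, wt (cmul A₁ A₂) (cmul B₂ B₁) o • Φ o := by
  rw [← e3.symm.sum_comp, Fintype.sum_prod_type, ← e4.symm.sum_comp, Fintype.sum_prod_type]
  apply Finset.sum_congr rfl
  intro s _
  have h1 := sum_fib (m := m) (M := M) (Q := (I × R × R) × (I × R × R)) (Y := R × R)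
    (fun j q => A₁ (s j).1 q.1.1 q.1.2.1 * A₂ q.1.1 (s j).2 q.1.2.2 *
      (B₂ (s j).2 q.2.1 q.2.2.1 * B₁ q.2.1 (s (j + 1)).1 q.2.2.2))
    (fun q => (q.1.2.1 * q.1.2.2, q.2.2.1 * q.2.2.2))
    (fun y => Φ (fun j => ((s j).1, (s j).2, y j)))
  have h2 : ∀ (j : ZMod m) (y : R × R),
      (∑ q : (I × R × R) × (I × R × R) with (q.1.2.1 * q.1.2.2, q.2.2.1 * q.2.2.2) = y,
        A₁ (s j).1 q.1.1 q.1.2.1 * A₂ q.1.1 (s j).2 q.1.2.2 *
      (B₂ (s j).2 q.2.1 q.2.2.1 * B₁ q.2.1 (s (j + 1)).1 q.2.2.2)) =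
      cmul A₁ A₂ (s j).1 (s j).2 y.1 * cmul B₂ B₁ (s j).2 (s (j + 1)).1 y.2 := by
    intro j y
    have h3 : ∀ (A B : I → I → R → ℤ) (i l : I) (g : R), cmul A B i l g =
        ∑ q : I × R × R, if q.2.1 * q.2.2 = g then A i q.1 q.2.1 * B q.1 l q.2.2 else 0 := by
      intro A B i l g
      rw [Fintype.sum_prod_type]
      unfold cmul
      apply Finset.sum_congr rfl
      intro k _
      rw [Fintype.sum_prod_type]
    rw [h3, h3, Finset.sum_mul_sum, Finset.sum_filter, Fintype.sum_prod_type]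
    apply Finset.sum_congr rfl
    intro q _
    apply Finset.sum_congr rfl
    intro q' _
    by_cases hq : q.2.1 * q.2.2 = y.1
    · by_cases hq' : q'.2.1 * q'.2.2 = y.2
      · rw [if_pos hq, if_pos hq', if_pos (Prod.ext hq hq')]
      · rw [if_neg hq', mul_zero, if_neg (fun hc => hq' (congrArg Prod.snd hc))]
    · rw [if_neg hq, zero_mul, if_neg (fun hc => hq (congrArg Prod.fst hc))]
  refine Eq.trans h1 ?_
  apply Finset.sum_congr rfl
  intro y _
  congr 1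
  apply Finset.prod_congr rfl
  intro j _
  show _ = cmul A₁ A₂ (s j).1 (s j).2 (y j).1 * cmul B₂ B₁ (s j).2 (s (j + 1)).1 (y j).2
  convert h2 j (y j)

/-- **the slice sum of a product** -/
theorem EE_mul (h₁ : IP (id : R → R) A₁ B₁) (h₂ : IP (id : R → R) A₂ B₂) (hP : IsCls p P)
    {κ : (ZMod m → R) → ZMod m} (hκ : IsPh P κ) :
    (m : ℤ) ∣ EE (id : R → R) (cmul A₁ A₂) (cmul B₂ B₁) P κ -
      (EE (id : R → R) A₁ B₁ P κ + EE (id : R → R) A₂ B₂ P κ) := by
  have hE : ∀ A B : I → I → R → ℤ, ((EE (id : R → R) A B P κ : ℤ) : ZMod m) =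
      ∑ o : ZMod m → Yy I R, wt A B o • (if P (W (UU id o) 0) ∧ κ (UU id o) = 0 then
        κ (VV id o) else 0) := by
    intro A B
    unfold EE
    rw [Int.cast_sum, Finset.sum_filter]
    apply Finset.sum_congr rfl
    intro o _
    by_cases ho : RR (id : R → R) P o ∧ κ (UU id o) = 0
    · have ho' : P (W (UU id o) 0) ∧ κ (UU id o) = 0 := ho
      rw [if_pos ho, if_pos ho', Int.cast_mul, zsmul_eq_mul, Int.cast_natCast,
        ZMod.natCast_zmod_val]
    · have ho' : ¬ (P (W (UU id o) 0) ∧ κ (UU id o) = 0) := ho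
      rw [if_neg ho, if_neg ho', smul_zero]
  rw [← ZMod.intCast_zmod_eq_zero_iff_dvd, Int.cast_sub, sub_eq_zero, Int.cast_add, hE, hE, hE]
  -- the product as a sum over words with four letters
  rw [← con3 (A₁ := A₁) (A₂ := A₂) (B₂ := B₂) (B₁ := B₁)]
  have t0 : ∀ x : ZMod m → Zz I R, (if P (W (UU (id : R → R) (fun j => (((x j).1.1, (x j).1.2.2.1,
      (x j).2.1 * (x j).2.2.1, (x j).2.2.2.1 * (x j).2.2.2.2) : Yy I R))) 0) ∧
      κ (UU (id : R → R) (fun j => (((x j).1.1, (x j).1.2.2.1,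
      (x j).2.1 * (x j).2.2.1, (x j).2.2.2.1 * (x j).2.2.2.2) : Yy I R))) = 0 then
      κ (VV (id : R → R) (fun j => (((x j).1.1, (x j).1.2.2.1,
      (x j).2.1 * (x j).2.2.1, (x j).2.2.2.1 * (x j).2.2.2.2) : Yy I R))) else 0) =
      if P (W (U4 x) 0) ∧ κ (U4 x) = 0 then κ (V4 x) else 0 := by
    intro x
    have e1 : UU (id : R → R) (fun j => (((x j).1.1, (x j).1.2.2.1,
      (x j).2.1 * (x j).2.2.1, (x j).2.2.2.1 * (x j).2.2.2.2) : Yy I R)) = U4 x := by
      funext j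
      simp only [UU, la, lb, id, U4, mul_assoc]
    have e2 : VV (id : R → R) (fun j => (((x j).1.1, (x j).1.2.2.1,
      (x j).2.1 * (x j).2.2.1, (x j).2.2.2.1 * (x j).2.2.2.2) : Yy I R)) = V4 x := by
      funext j
      simp only [VV, la, lb, id, V4, mul_assoc]
    rw [e1, e2]
  simp_rw [t0]
  -- the first slice sum
  have t1 : ∑ x : ZMod m → Zz I R, w4 A₁ A₂ B₂ B₁ x •
      (if P (W (U4 x) 0) ∧ κ (U4 x) = 0 then κ (X4 x) else 0) =
      ∑ o : ZMod m → Yy I R, wt A₁ B₁ o • (if P (W (UU id o) 0) ∧ κ (UU id o) = 0 then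
        κ (VV id o) else 0) := by
    have h1 := con1 (A₁ := A₁) (B₁ := B₁) h₂ (M := ZMod m) (m := m) (fun o g =>
      if P (W (fun j => (o j).2.2.1 * (g j * (o j).2.2.2)) 0) ∧
        κ (fun j => (o j).2.2.1 * (g j * (o j).2.2.2)) = 0 then
        κ (fun j => g j * (o j).2.2.2 * (o (j + 1)).2.2.1) else 0)
    have h2 : ∀ x : ZMod m → Zz I R, (if P (W (U4 x) 0) ∧ κ (U4 x) = 0 then κ (X4 x) else 0) =
        (fun (o : ZMod m → Yy I R) (g : ZMod m → R) =>
      if P (W (fun j => (o j).2.2.1 * (g j * (o j).2.2.2)) 0) ∧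
        κ (fun j => (o j).2.2.1 * (g j * (o j).2.2.2)) = 0 then
        κ (fun j => g j * (o j).2.2.2 * (o (j + 1)).2.2.1) else 0) (e1 x).1
        (fun j => (x j).2.2.1 * (x j).2.2.2.1) := fun x => rfl
    simp_rw [h2]
    rw [h1]
    apply Finset.sum_congr rfl
    intro o _
    simp only [one_mul]
    rfl
  -- the second slice sum
  have t2 : ∑ x : ZMod m → Zz I R, w4 A₁ A₂ B₂ B₁ x •
      (if P (W (X4 x) 0) ∧ κ (X4 x) = 0 then κ (V4 x) else 0) =
      ∑ o : ZMod m → Yy I R, wt A₂ B₂ o • (if P (W (UU id o) 0) ∧ κ (UU id o) = 0 then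
        κ (VV id o) else 0) := by
    have h1 := con2 (A₂ := A₂) (B₂ := B₂) h₁ (M := ZMod m) (m := m) (fun o g =>
      if P (W (fun j => (o j).2.2.1 * (o j).2.2.2 * g j) 0) ∧
        κ (fun j => (o j).2.2.1 * (o j).2.2.2 * g j) = 0 then
        κ (fun j => (o j).2.2.2 * g j * (o (j + 1)).2.2.1) else 0)
    have h2 : ∀ x : ZMod m → Zz I R, (if P (W (X4 x) 0) ∧ κ (X4 x) = 0 then κ (V4 x) else 0) =
        (fun (o : ZMod m → Yy I R) (g : ZMod m → R) =>
      if P (W (fun j => (o j).2.2.1 * (o j).2.2.2 * g j) 0) ∧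
        κ (fun j => (o j).2.2.1 * (o j).2.2.2 * g j) = 0 then
        κ (fun j => (o j).2.2.2 * g j * (o (j + 1)).2.2.1) else 0) (e2 x).1
        (fun j => (x j).2.2.2.2 * (x (j + 1)).2.1) := by
      intro x
      have e5 : X4 x = fun j => (x j).2.2.1 * (x j).2.2.2.1 *
          ((x j).2.2.2.2 * (x (j + 1)).2.1) := by
        funext j
        simp only [X4, mul_assoc]
      have e6 : V4 x = fun j => (x j).2.2.2.1 * ((x j).2.2.2.2 * (x (j + 1)).2.1) *
          (x (j + 1)).2.2.1 := by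
        funext j
        simp only [V4, mul_assoc]
      rw [e5, e6]
      rfl
    simp_rw [h2]
    rw [h1]
    apply Finset.sum_congr rfl
    intro o _
    simp only [mul_one]
    rfl
  rw [← t1, ← t2]
  -- change of the slice
  have t3 : ∑ x : ZMod m → Zz I R with (P (W (U4 x) 0) ∧ κ (U4 x) = 0),
      w4 A₁ A₂ B₂ B₁ x • (κ (V4 x) - κ (X4 x)) =
      ∑ x : ZMod m → Zz I R with (P (W (U4 x) 0) ∧ κ (X4 x) = 0),
      w4 A₁ A₂ B₂ B₁ x • (κ (V4 x) - κ (X4 x)) := by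
    have hR : ∀ (c : ZMod m) (x : ZMod m → Zz I R), P (W (U4 (shift c x)) 0) ↔
        P (W (U4 x) 0) := by
      intro c x
      rw [U4_shift]
      exact hP.shift_iff _ _
    refine sum_slice (fun c x => shift c x) (fun x => shift_zero x)
      (fun a b x => shift_shift a b x) (fun x => P (W (U4 x) 0)) (fun c x hx => (hR c x).2 hx)
      (fun x => κ (U4 x)) (fun x => κ (X4 x)) ?_ ?_
      (fun x => w4 A₁ A₂ B₂ B₁ x • (κ (V4 x) - κ (X4 x))) ?_
    · intro x hx c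
      show κ (U4 (shift c x)) = _
      rw [U4_shift]
      exact hκ _ hx c
    · intro x hx c
      show κ (X4 (shift c x)) = _
      rw [X4_shift]
      exact hκ _ ((PX4 hP x).2 hx) c
    · intro x hx c
      show w4 A₁ A₂ B₂ B₁ (shift c x) • (κ (V4 (shift c x)) - κ (X4 (shift c x))) = _
      rw [w4_shift, X4_shift, V4_shift, hκ _ ((PX4 hP x).2 hx),
        hκ _ ((PV4 hP x).2 ((PX4 hP x).2 hx)), add_sub_add_right_eq_sub]
  have t4 : ∑ x : ZMod m → Zz I R, w4 A₁ A₂ B₂ B₁ x •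
      (if P (W (X4 x) 0) ∧ κ (X4 x) = 0 then κ (V4 x) else 0) =
      ∑ x : ZMod m → Zz I R with (P (W (U4 x) 0) ∧ κ (X4 x) = 0),
      w4 A₁ A₂ B₂ B₁ x • (κ (V4 x) - κ (X4 x)) := by
    rw [Finset.sum_filter]
    apply Finset.sum_congr rfl
    intro x _
    by_cases hx : P (W (U4 x) 0) ∧ κ (X4 x) = 0
    · rw [if_pos hx, if_pos ⟨(PX4 hP x).2 hx.1, hx.2⟩, hx.2, sub_zero]
    · rw [if_neg hx, if_neg (fun hc => hx ⟨(PX4 hP x).1 hc.1, hc.2⟩), smul_zero]
  rw [t4, ← t3, Finset.sum_filter, ← Finset.sum_add_distrib]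
  apply Finset.sum_congr rfl
  intro x _
  by_cases hx : P (W (U4 x) 0) ∧ κ (U4 x) = 0
  · rw [if_pos hx, if_pos hx, if_pos hx, ← smul_add]
    congr 1
    abel
  · rw [if_neg hx, if_neg hx, if_neg hx, smul_zero, add_zero]

end mul

end Pool.Agent.V5helper75.RN
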