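import Pool.Agent.V5helper75.RN.Cyc

/-!
# Vanishing of the slice sum over rational classes of finite groups
-/

set_option autoImplicit false
set_option linter.unusedSectionVars false

namespace Pool.Agent.V5helper75.RN

open Finset Pool.Agent.H23R2 H219.Wh Pool.Agent.Y72.Log
open scoped Classical

section units

variable {R : Type*} [Group R] [Fintype R] {I : Type*} [Fintype I]

lemma cf_mul' (X Y : Matrix I I (MonoidAlgebra ℤ R)) : cf (X * Y) = cmul (cf X) (cf Y) := by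
  funext i l g
  show ((X * Y) i l).coeff g = _
  rw [Matrix.mul_apply, coeff_sum']
  unfold cmul
  apply Finset.sum_congr rfl
  intro k _
  exact mul_coeff_eq _ _ Finset.univ (fun _ _ => Finset.mem_univ _)
    (fun _ _ => Finset.mem_univ _) g

variable [DecidableEq I]

lemma ip_units' (X : (Matrix I I (MonoidAlgebra ℤ R))ˣ) :
    IP (id : R → R) (cf X.val) (cf (X⁻¹).val) := by
  constructor
  · refine fun i i' g => invPair_half (fun i i' => ?_) Finset.univ (fun _ _ _ _ => Finset.mem_univ _)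
      (fun _ _ _ _ => Finset.mem_univ _) i i' g
    have := congrFun (congrFun X.mul_inv i) i'
    rw [Matrix.mul_apply, Matrix.one_apply] at this
    rw [this]
    congr 1
  · refine fun i i' g => invPair_half (fun i i' => ?_) Finset.univ (fun _ _ _ _ => Finset.mem_univ _)
      (fun _ _ _ _ => Finset.mem_univ _) i i' g
    have := congrFun (congrFun X.inv_mul i) i'
    rw [Matrix.mul_apply, Matrix.one_apply] at this
    rw [this]
    congr 1

/-- the slice sum of a unit -/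
noncomputable def Eu {m : ℕ} [NeZero m] (D : R → Prop) (κ : (ZMod m → R) → ZMod m)
    (X : (Matrix I I (MonoidAlgebra ℤ R))ˣ) : ℤ :=
  EE (id : R → R) (cf X.val) (cf (X⁻¹).val) D κ

variable {m : ℕ} [NeZero m] {p : ℕ} {D : R → Prop} {κ : (ZMod m → R) → ZMod m}

lemma Eu_mul (hD : IsCls p D) (hκ : IsPh D κ) (X Y : (Matrix I I (MonoidAlgebra ℤ R))ˣ) :
    (m : ℤ) ∣ Eu D κ (X * Y) - (Eu D κ X + Eu D κ Y) := by
  have h := EE_mul (ip_units' X) (ip_units' Y) hD hκ
  unfold Eu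
  have h1 : cf ((X * Y)⁻¹).val = cmul (cf (Y⁻¹).val) (cf (X⁻¹).val) := by
    rw [mul_inv_rev, Units.val_mul, cf_mul']
  rw [Units.val_mul, cf_mul', h1]
  exact h

lemma Eu_pow (hD : IsCls p D) (hκ : IsPh D κ) (X : (Matrix I I (MonoidAlgebra ℤ R))ˣ) (k : ℕ) :
    (m : ℤ) ∣ Eu D κ (X ^ k) - k * Eu D κ X := by
  induction k with
  | zero =>
    have h := Eu_mul hD hκ (1 : (Matrix I I (MonoidAlgebra ℤ R))ˣ) 1
    rw [mul_one] at h
    rw [pow_zero, Nat.cast_zero, zero_mul, sub_zero]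
    have h2 : Eu D κ (1 : (Matrix I I (MonoidAlgebra ℤ R))ˣ) =
        -(Eu D κ (1 : (Matrix I I (MonoidAlgebra ℤ R))ˣ) -
        (Eu D κ (1 : (Matrix I I (MonoidAlgebra ℤ R))ˣ) +
          Eu D κ (1 : (Matrix I I (MonoidAlgebra ℤ R))ˣ))) := by ring
    rw [h2]
    exact (dvd_neg).2 h
  | succ k ih =>
    have h := Eu_mul hD hκ (X ^ k) X
    rw [← pow_succ] at h
    have h2 : Eu D κ (X ^ (k + 1)) - ((k + 1 : ℕ) : ℤ) * Eu D κ X =
        (Eu D κ (X ^ (k + 1)) - (Eu D κ (X ^ k) + Eu D κ X)) +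
        (Eu D κ (X ^ k) - k * Eu D κ X) := by
      push_cast
      ring
    rw [h2]
    exact dvd_add h ih

/-- **vanishing over rational classes** -/
theorem Eu_rat (hp : p.Prime) (hD : IsCls p D)
    (hgen : ∀ x y, D x → Subgroup.zpowers x = Subgroup.zpowers y → D y) {i : ℕ}
    (hm : m = p ^ (i + 1)) (hκ : IsPh D κ) (X : (Matrix I I (MonoidAlgebra ℤ R))ˣ) :
    (p : ℤ) ^ (i + 1) ∣ Eu D κ X := by
  obtain ⟨k, hk, Z, hZ⟩ := exists_pow_near X hp
  have hN0 : Fintype.card R * k ≠ 0 := Nat.mul_ne_zero Fintype.card_ne_zero hk.ne'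
  obtain ⟨v, u, hu, hNe⟩ := Nat.exists_eq_pow_mul_and_not_dvd hN0 p hp.ne_one
  set a := v + i + 2 with ha
  obtain ⟨Z', hZ'⟩ := pow_near hZ (a - 1)
  have ha1 : a - 1 + 1 = a := by omega
  rw [ha1, ← pow_mul] at hZ'
  set W : (Matrix I I (MonoidAlgebra ℤ R))ˣ := X ^ (k * p ^ (a - 1)) with hW
  have hWv : W.val = 1 + ((p : ℤ) ^ a) • Z' := by
    rw [hW, Units.val_pow_eq_pow_val]
    exact hZ'
  have hWi : (W⁻¹).val = 1 + ((p : ℤ) ^ a) • (-(Z' * (W⁻¹).val)) := by
    have h1 : W.val * (W⁻¹).val = 1 := W.mul_inv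
    rw [hWv, add_mul, one_mul, smul_mul_assoc] at h1
    rw [smul_neg, ← sub_eq_add_neg, eq_sub_iff_add_eq]
    exact h1
  have hnear : ∀ {V Z : Matrix I I (MonoidAlgebra ℤ R)} {q : ℤ}, V = 1 + q • Z →
      NearOne q (cf V) := by
    intro V Z q h i j g
    refine ⟨(Z i j).coeff g, ?_⟩
    show (V i j).coeff g - _ = _
    rw [h, Matrix.add_apply, MonoidAlgebra.coeff_add, Finsupp.add_apply, Matrix.smul_apply,
      MonoidAlgebra.coeff_smul, Finsupp.smul_apply, Matrix.one_apply, smul_eq_mul]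
    have h1 : (if i = j then (1 : MonoidAlgebra ℤ R) else 0).coeff g =
        if i = j ∧ g = 1 then 1 else 0 := by
      by_cases hij : i = j
      · rw [if_pos hij, one_coeff']
        simp only [hij, true_and]
      · rw [if_neg hij, if_neg (fun hc => hij hc.1)]
        rfl
    rw [h1]
    by_cases hc : i = j ∧ g = 1
    · rw [if_pos hc, if_pos hc]
      ring
    · rw [if_neg hc, if_neg hc]
      ring
  -- the long words
  set r := p ^ (2 * a - (i + 1)) with hr
  have : NeZero r := ⟨pow_ne_zero _ hp.ne_zero⟩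
  have hmr : m * r = p ^ (2 * a) := by
    rw [hm, hr, ← pow_add]
    congr 1
    omega
  have hmr' : m * r = p ^ ((2 * a - 1) + 1) := by
    rw [hmr]
    congr 1
  have : NeZero (m * r) := ⟨mul_ne_zero (NeZero.ne m) (NeZero.ne r)⟩
  obtain ⟨κ', hκ'⟩ := exists_isPh (m := m * r) hp hmr' hD
  have h1 : (p : ℤ) ^ (2 * a) ∣ Eu D κ' W - ∑ g with D g, ∑ i, cf W.val i i g :=
    near hp hD hmr' (hnear hWv) (hnear hWi) hκ'
  have h2 : (p : ℤ) ^ (2 * a) ∣ Eu D κ' W - (k * p ^ (a - 1) : ℕ) * Eu D κ' X := by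
    have h3 := Eu_pow hD hκ' X (k * p ^ (a - 1))
    have h30 : ((m * r : ℕ) : ℤ) = (p : ℤ) ^ (2 * a) := by
      rw [hmr]
      push_cast
      rfl
    rw [h30] at h3
    exact h3
  have hq : (3 : ℤ) ≤ (p : ℤ) ^ a := by
    have e1 : 2 ^ 2 ≤ p ^ a := by
      calc 2 ^ 2 ≤ p ^ 2 := Nat.pow_le_pow_left hp.two_le 2
        _ ≤ p ^ a := Nat.pow_le_pow_right hp.pos (by omega)
    have e2 : 3 ≤ p ^ a := by omega
    exact_mod_cast e2
  have h3 : (p : ℤ) ^ (2 * a) ∣ (Fintype.card R : ℤ) * ∑ g with D g, ∑ i, cf W.val i i g := by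
    have e1 := trace_rat W hq hWv hD.conj hD.not_one hgen
    rw [← pow_mul, mul_comm a 2] at e1
    exact e1
  have h4 : (p : ℤ) ^ (2 * a) ∣ (Fintype.card R : ℤ) * ((k * p ^ (a - 1) : ℕ) * Eu D κ' X) := by
    have e1 := dvd_sub (Dvd.dvd.mul_left h1 (Fintype.card R : ℤ))
      (Dvd.dvd.mul_left h2 (Fintype.card R : ℤ))
    have e2 := dvd_add e1 h3
    have e3 : (Fintype.card R : ℤ) * ((k * p ^ (a - 1) : ℕ) * Eu D κ' X) =
        (Fintype.card R : ℤ) * (Eu D κ' W - ∑ g with D g, ∑ i, cf W.val i i g) -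
        (Fintype.card R : ℤ) * (Eu D κ' W - (k * p ^ (a - 1) : ℕ) * Eu D κ' X) +
        (Fintype.card R : ℤ) * ∑ g with D g, ∑ i, cf W.val i i g := by ring
    rw [e3]
    exact e2
  have h5 : (p : ℤ) ^ (i + 1) ∣ Eu D κ' X := by
    have e1 : (Fintype.card R : ℤ) * ((k * p ^ (a - 1) : ℕ) * Eu D κ' X) =
        (p : ℤ) ^ (v + (a - 1)) * (u * Eu D κ' X) := by
      have e2 : ((Fintype.card R * k : ℕ) : ℤ) = ((p ^ v * u : ℕ) : ℤ) := by rw [hNe]
      push_cast at e2 ⊢
      rw [pow_add]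
      linear_combination ((p : ℤ) ^ (a - 1) * Eu D κ' X) * e2
    have e3 : 2 * a = (v + (a - 1)) + (i + 3) := by omega
    rw [e1, e3, pow_add] at h4
    have e4 : (p : ℤ) ^ (i + 3) ∣ u * Eu D κ' X :=
      (mul_dvd_mul_iff_left (pow_ne_zero _ (by exact_mod_cast hp.ne_zero))).1 h4
    have e5 : (p : ℤ) ^ (i + 1) ∣ u * Eu D κ' X := dvd_trans (pow_dvd_pow _ (by omega)) e4
    have e6 : IsCoprime ((p : ℤ) ^ (i + 1)) (u : ℤ) := by
      apply IsCoprime.pow_left
      exact Nat.isCoprime_iff_coprime.2 ((Nat.Prime.coprime_iff_not_dvd hp).2 hu)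
    exact e6.dvd_of_dvd_mul_left e5
  have h6 := compat (m := m) (r := r) (ip_units' X) hD hκ hκ'
  have h60 : (m : ℤ) = (p : ℤ) ^ (i + 1) := by
    rw [hm]
    push_cast
    rfl
  rw [h60] at h6
  have h7 : Eu D κ X = Eu D κ' X - (Eu D κ' X - Eu D κ X) := by ring
  rw [h7]
  exact dvd_sub h5 h6

/-- the group ring matrix of a function -/
noncomputable def toM (A : I → I → R → ℤ) : Matrix I I (MonoidAlgebra ℤ R) :=
  Matrix.of fun i j => MonoidAlgebra.ofCoeff (Finsupp.equivFunOnFinite.symm (A i j))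

omit [DecidableEq I] in
lemma cf_toM (A : I → I → R → ℤ) : cf (toM A) = A := rfl

lemma toM_mul {A B : I → I → R → ℤ} (h : ∀ i i' g, ∑ j, ∑ a, ∑ b,
    (if a * b = g then A i j a * B j i' b else 0) = if i = i' ∧ g = 1 then 1 else 0) :
    toM A * toM B = 1 := by
  ext1 i i'
  apply MonoidAlgebra.coeff_injective
  ext g
  have h1 := congrFun (congrFun (congrFun (cf_mul' (toM A) (toM B)) i) i') g
  have h2 : ((toM A * toM B) i i').coeff g = cmul A B i i' g := h1
  rw [h2]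
  unfold cmul
  rw [h, Matrix.one_apply]
  by_cases hi : i = i'
  · simp only [hi, if_true, true_and]
    rw [one_coeff']
  · simp only [hi, if_false, false_and]
    rfl

/-- **vanishing over rational classes, for pairs of functions** -/
theorem EE_rat {A B : I → I → R → ℤ} (h : IP (id : R → R) A B) (hp : p.Prime) (hD : IsCls p D)
    (hgen : ∀ x y, D x → Subgroup.zpowers x = Subgroup.zpowers y → D y) {i : ℕ}
    (hm : m = p ^ (i + 1)) (hκ : IsPh D κ) :
    (p : ℤ) ^ (i + 1) ∣ EE (id : R → R) A B D κ := by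
  let X : (Matrix I I (MonoidAlgebra ℤ R))ˣ :=
    ⟨toM A, toM B, toM_mul (fun i i' g => by
        have h1 := h.ab i i' g
        simp only [id] at h1
        convert h1),
      toM_mul (fun i i' g => by
        have h1 := h.ba i i' g
        simp only [id] at h1
        convert h1)⟩
  exact Eu_rat hp hD hgen hm hκ X

end units

end Pool.Agent.V5helper75.RN
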