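import Pool.Agent.V5helper75.RN.UT

/-!
# The separation property from homomorphisms to unitriangular integral matrices
-/

set_option autoImplicit false
set_option linter.unusedSectionVars false

namespace Pool.Agent.V5helper75.RN

open Finset

universe u

section main

variable {H : Type u} [Group H] {K : Subgroup H} {r : ℕ}

open scoped Classical in
/-- the extension of a homomorphism by one -/
noncomputable def ext1 (f : K →* Matrix (Fin r) (Fin r) ℤ) (w : H) : Matrix (Fin r) (Fin r) ℤ :=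
  if hw : w ∈ K then f ⟨w, hw⟩ else 1

lemma ext1_mem (f : K →* Matrix (Fin r) (Fin r) ℤ) {w : H} (hw : w ∈ K) :
    ext1 f w = f ⟨w, hw⟩ := dif_pos hw

lemma ext1_utf (f : K →* Matrix (Fin r) (Fin r) ℤ) (hf : ∀ k, Up 1 (f k - 1)) :
    UTf K (ext1 f) := by
  refine ⟨?_, ?_, ?_⟩
  · rw [ext1_mem f (one_mem K)]
    exact map_one f
  · intro w hw w' hw'
    rw [ext1_mem f hw, ext1_mem f hw', ext1_mem f (mul_mem hw hw'), ← map_mul]
    rfl
  · intro w
    by_cases hw : w ∈ K
    · rw [ext1_mem f hw]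
      exact hf _
    · unfold ext1
      rw [dif_neg hw, sub_self]
      exact Up.zero

/-- subgroups of finite index on which the matrices are congruent to one -/
lemma exists_cong [K.FiniteIndex] (f : K →* Matrix (Fin r) (Fin r) ℤ)
    (N : Subgroup H) [N.Normal] [N.FiniteIndex] {l : ℕ} (hl : l ≠ 0) :
    ∃ M : Subgroup H, M.Normal ∧ M.FiniteIndex ∧ M ≤ N ∧ M ≤ K.normalCore ∧
      ∀ h ∈ M, ∀ c i j, (l : ℤ) ∣ (ext1 f (c⁻¹ * h * c) - 1) i j := by
  have : NeZero l := ⟨hl⟩
  let f1 : K →* Matrix (Fin r) (Fin r) (ZMod l) :=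
    ((Int.castRingHom (ZMod l)).mapMatrix.toMonoidHom).comp f
  let fu : K →* (Matrix (Fin r) (Fin r) (ZMod l))ˣ := f1.toHomUnits
  have hfin : Finite (Matrix (Fin r) (Fin r) (ZMod l)) :=
    inferInstanceAs (Finite (Fin r → Fin r → ZMod l))
  have hker : fu.ker.FiniteIndex := by
    have : Finite fu.range := Subtype.finite
    exact Subgroup.finiteIndex_ker fu
  let M0 : Subgroup H := fu.ker.map K.subtype
  have hM0 : M0.FiniteIndex := by
    refine ⟨?_⟩
    rw [Subgroup.index_map_subtype]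
    exact Nat.mul_ne_zero hker.index_ne_zero (Subgroup.FiniteIndex.index_ne_zero)
  have hM0K : M0 ≤ K := by
    rintro _ ⟨k, _, rfl⟩
    exact k.2
  refine ⟨M0.normalCore ⊓ N, inferInstance, inferInstance, inf_le_right,
    inf_le_left.trans (Subgroup.normalCore_mono hM0K), ?_⟩
  intro h hh c i j
  have h1 : c⁻¹ * h * c ∈ M0 := by
    have := (Subgroup.normalCore_normal M0).conj_mem h hh.1 c⁻¹
    rw [inv_inv] at this
    exact Subgroup.normalCore_le M0 this
  obtain ⟨k, hk, hk2⟩ := h1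
  have h2 : ext1 f (c⁻¹ * h * c) = f k := by
    rw [← hk2]
    exact ext1_mem f k.2
  have h3 : f1 k = 1 := congrArg Units.val (show fu k = 1 from hk)
  have h4 := congrFun (congrFun h3 i) j
  rw [h2, ← ZMod.intCast_zmod_eq_zero_iff_dvd, Matrix.sub_apply, Int.cast_sub, sub_eq_zero]
  have h5 : f1 k i j = ((f k i j : ℤ) : ZMod l) := rfl
  rw [← h5, h4, Matrix.one_apply, Matrix.one_apply]
  split_ifs <;> simp

/-- congruent elements have congruent matrices -/
lemma cong_diff {g : H → Matrix (Fin r) (Fin r) ℤ} (hg : UTf K g) {M : Subgroup H}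
    (hMK : M ≤ K.normalCore) {l : ℤ} (hM : ∀ h ∈ M, ∀ c i j, l ∣ (g (c⁻¹ * h * c) - 1) i j)
    {w w' : H} (hw : w ∈ K.normalCore) (hww : w⁻¹ * w' ∈ M) (c : H) (i j : Fin r) :
    l ∣ (g (c⁻¹ * w' * c) - 1) i j - (g (c⁻¹ * w * c) - 1) i j := by
  have e1 : g (c⁻¹ * w' * c) = g (c⁻¹ * w * c) * g (c⁻¹ * (w⁻¹ * w') * c) := by
    rw [← hg.mul _ (core_conj' hw c) _ (core_conj' (hMK hww) c)]
    congr 1
    group
  have e2 : (g (c⁻¹ * w' * c) - 1) i j - (g (c⁻¹ * w * c) - 1) i j =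
      (g (c⁻¹ * w * c) * (g (c⁻¹ * (w⁻¹ * w') * c) - 1)) i j := by
    rw [mul_sub, mul_one, ← e1, Matrix.sub_apply, Matrix.sub_apply, Matrix.sub_apply]
    ring
  rw [e2, Matrix.mul_apply]
  apply Finset.dvd_sum
  intro k _
  exact Dvd.dvd.mul_left (hM _ hww c k j) _

/-- **separation** -/
theorem exists_sep (N : Subgroup H) (hN : N.Normal) (hNf : N.FiniteIndex)
    (hNc : ∀ a b : H, a * b * a⁻¹ * b⁻¹ ∈ N) (x y : H) (hK : K.FiniteIndex) {m : ℕ}
    (hm : x ^ m ∈ K) (f : K →* Matrix (Fin r) (Fin r) ℤ) (hf : ∀ k, Up 1 (f k - 1))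
    (hne : f ⟨x ^ m, hm⟩ ≠ 1) :
    ∃ M : Subgroup H, M.Normal ∧ M.FiniteIndex ∧ M ≤ N ∧
      (Rel M x y → x⁻¹ * y ∈ N ∨ x * y ∈ N) := by
  have hg := ext1_utf f hf
  set g := ext1 f with hgdef
  set K' := K.normalCore with hK'
  have hK'f : K'.FiniteIndex := inferInstance
  have hn' : K'.index ≠ 0 := hK'f.index_ne_zero
  set n := m * K'.index with hn
  have hpow : ∀ v : H, v ^ n ∈ K' := by
    intro v
    rw [hn, mul_comm, pow_mul]
    exact pow_mem (Subgroup.pow_index_mem K' v) m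
  set z := x ^ n with hz
  set z' := y ^ n with hz'
  have hzK : z ∈ K' := hpow x
  have hz'K : z' ∈ K' := hpow y
  -- the matrix of `z` is not one
  have hgz : g z ≠ 1 := by
    intro hc
    apply hne
    apply up_tf (hf _) hn'
    rw [← map_pow, ← hc, hgdef, ext1_mem f (Subgroup.normalCore_le K hzK)]
    congr 1
    apply Subtype.ext
    show (x ^ m) ^ K'.index = z
    rw [hz, hn, pow_mul]
  have hex : ∃ s, 1 ≤ s ∧ ¬ Qs g s z := by
    by_contra hc
    push Not at hc
    apply hgz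
    have h1 : g z - 1 = 0 := by
      apply Up.eq_zero
      intro s hs
      have h2 := hc s hs 1
      rwa [inv_one, one_mul, mul_one] at h2
    exact sub_eq_zero.1 h1
  classical
  obtain ⟨s1, ⟨hs1, hs2⟩, hmin⟩ : ∃ s1 : ℕ, (1 ≤ s1 ∧ ¬ Qs g s1 z) ∧
      ∀ t < s1, ¬ (1 ≤ t ∧ ¬ Qs g t z) :=
    ⟨Nat.find hex, Nat.find_spec hex, fun t ht => Nat.find_min hex ht⟩
  have hs3 : s1 ≠ 1 := by
    rintro rfl
    exact hs2 (fun c => hg.up _)
  obtain ⟨s, rfl⟩ : ∃ s, s1 = s + 1 := ⟨s1 - 1, by omega⟩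
  have hs : 1 ≤ s := by omega
  have hQz : Qs g s z := by
    have h1 := hmin s (by omega)
    by_contra hc
    exact h1 ⟨hs, hc⟩
  unfold Qs at hs2
  push Not at hs2
  obtain ⟨c0, hc0⟩ := hs2
  unfold Up at hc0
  push Not at hc0
  obtain ⟨i0, j0, hij0, ha0⟩ := hc0
  have hij : (j0 : ℕ) = i0 + s := by
    by_contra hc
    exact ha0 (hQz c0 i0 j0 (by omega))
  set a : ℤ := lam' g i0 j0 c0 z with ha
  have ha1 : a ≠ 0 := ha0
  -- consequences of the relation
  have hrel : ∀ (M : Subgroup H) (_ : M.Normal) (t : H) (k k' : ℤ),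
      y⁻¹ * (t⁻¹ * x * t) ^ k ∈ M → (t⁻¹ * x * t)⁻¹ * y ^ k' ∈ M →
      z'⁻¹ * (t⁻¹ * z * t) ^ k ∈ M ∧ (t⁻¹ * z * t)⁻¹ * z' ^ k' ∈ M := by
    intro M hM t k k' h1 h2
    have hX : (t⁻¹ * x * t) ^ n = t⁻¹ * z * t := by
      have := conj_pow (i := n) (a := t⁻¹) (b := x)
      rwa [inv_inv] at this
    rw [← QuotientGroup.eq] at h1 h2
    constructor
    · rw [← QuotientGroup.eq]
      have h3 : (((y ^ n : H)) : H ⧸ M) = ((((t⁻¹ * x * t) ^ k) ^ n : H) : H ⧸ M) := by
        rw [QuotientGroup.mk_pow, QuotientGroup.mk_pow, h1]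
      rw [hz', h3]
      congr 1
      rw [← hX, ← zpow_natCast, ← zpow_natCast, ← zpow_mul, ← zpow_mul, mul_comm]
    · rw [← QuotientGroup.eq]
      have h3 : ((((t⁻¹ * x * t) ^ n : H)) : H ⧸ M) = (((y ^ k') ^ n : H) : H ⧸ M) := by
        rw [QuotientGroup.mk_pow, QuotientGroup.mk_pow, h2]
      rw [← hX, h3]
      congr 1
      rw [hz', ← zpow_natCast, ← zpow_natCast, ← zpow_mul, ← zpow_mul, mul_comm]
  by_cases hQ : Qs g s z'
  · -- the second element has the same level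
    let β : H ⧸ K' → ℤ := fun q => lam' g i0 j0 (Quotient.out q) z'
    have hfq : Finite (H ⧸ K') := Subgroup.finite_quotient_of_finiteIndex
    have : Fintype (H ⧸ K') := Fintype.ofFinite _
    have hβ : ∀ c, lam' g i0 j0 c z' = β (c : H ⧸ K') := by
      intro c
      have h1 : (Quotient.out (c : H ⧸ K'))⁻¹ * c ∈ K' := by
        rw [← QuotientGroup.eq]
        exact Quotient.out_eq' _
      have h2 := lam_coset hg hz'K hQ hij (Quotient.out (c : H ⧸ K')) h1
      rw [mul_inv_cancel_left] at h2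
      exact h2
    set e := N.index with he
    have he0 : e ≠ 0 := hNf.index_ne_zero
    set Pr : ℕ := ∏ q : H ⧸ K', (if β q = 0 then 1 else (β q).natAbs) with hP
    have hP0 : Pr ≠ 0 := by
      rw [hP, Finset.prod_ne_zero_iff]
      intro q _
      split_ifs with h
      · exact one_ne_zero
      · exact Int.natAbs_ne_zero.2 h
    set l : ℕ := 2 * e * a.natAbs * Pr with hl
    have hl0 : l ≠ 0 := by
      rw [hl]
      exact Nat.mul_ne_zero (Nat.mul_ne_zero (Nat.mul_ne_zero two_ne_zero he0)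
        (Int.natAbs_ne_zero.2 ha1)) hP0
    obtain ⟨M, hM1, hM2, hM3, hM4, hM5⟩ := exists_cong f N hl0
    refine ⟨M, hM1, hM2, hM3, ?_⟩
    rintro ⟨t, k, k', h1, h2⟩
    obtain ⟨h3, h4⟩ := hrel M hM1 t k k' h1 h2
    have htz : t⁻¹ * z * t ∈ K' := core_conj hzK t
    have hQt : Qs g s (t⁻¹ * z * t) := Qs_conj hQz t
    set c := t⁻¹ * c0 with hc
    set b : ℤ := lam' g i0 j0 c z' with hb
    have h5 : lam' g i0 j0 c (t⁻¹ * z * t) = a := by
      rw [lam_conj, hc, mul_inv_cancel_left]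
    have h6 : (l : ℤ) ∣ k * a - b := by
      have e1 := cong_diff hg hM4 hM5 hz'K h3 c i0 j0
      have e2 : (g (c⁻¹ * (t⁻¹ * z * t) ^ k * c) - 1) i0 j0 = k * a := by
        rw [← h5]
        exact (Qs_zpow hg hs htz hQt hij k).2 c
      rw [e2] at e1
      exact e1
    have h7 : (l : ℤ) ∣ k' * b - a := by
      have e1 := cong_diff hg hM4 hM5 htz h4 c i0 j0
      have e2 : (g (c⁻¹ * z' ^ k' * c) - 1) i0 j0 = k' * b :=
        (Qs_zpow hg hs hz'K hQ hij k').2 c
      have e3 : (g (c⁻¹ * (t⁻¹ * z * t) * c) - 1) i0 j0 = a := h5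
      rw [e2, e3] at e1
      exact e1
    have hla : a ∣ (l : ℤ) := by
      rw [hl]
      push_cast
      have : a ∣ |a| := (dvd_abs a a).2 (dvd_refl a)
      exact Dvd.dvd.mul_right (Dvd.dvd.mul_left this _) _
    have hb0 : b ≠ 0 := by
      intro hb0
      rw [hb0, mul_zero, zero_sub, dvd_neg] at h7
      have h8 := Int.natAbs_dvd_natAbs.2 h7
      rw [Int.natAbs_natCast] at h8
      have h9 := Nat.le_of_dvd (Int.natAbs_pos.2 ha1) h8
      have h10 : 2 * a.natAbs ≤ l := by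
        rw [hl]
        have e1 : 1 ≤ e := Nat.one_le_iff_ne_zero.2 he0
        have e2 : 1 ≤ Pr := Nat.one_le_iff_ne_zero.2 hP0
        calc 2 * a.natAbs = 2 * 1 * a.natAbs * 1 := by ring
          _ ≤ 2 * e * a.natAbs * Pr := by gcongr
      have h11 := Int.natAbs_pos.2 ha1
      omega
    have hlb : b ∣ (l : ℤ) := by
      have e1 : b = β (c : H ⧸ K') := hβ c
      have e2 : (β (c : H ⧸ K')).natAbs ∣ Pr := by
        have e3 := Finset.dvd_prod_of_mem (fun q : H ⧸ K' => if β q = 0 then 1 else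
          (β q).natAbs) (Finset.mem_univ (c : H ⧸ K'))
        rw [if_neg (by rw [← e1]; exact hb0)] at e3
        exact e3
      rw [e1, ← Int.natAbs_dvd]
      exact_mod_cast Dvd.dvd.mul_left e2 _
    have hab : a ∣ b := by
      have e1 := dvd_trans hla h6
      have e2 : b = k * a - (k * a - b) := by ring
      rw [e2]
      exact dvd_sub (Dvd.intro_left _ rfl) e1
    have hba : b ∣ a := by
      have e1 := dvd_trans hlb h7
      have e2 : a = k' * b - (k' * b - a) := by ring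
      rw [e2]
      exact dvd_sub (Dvd.intro_left _ rfl) e1
    have hel : (e : ℤ) * a ∣ (l : ℤ) := by
      rw [hl]
      push_cast
      have e1 : a ∣ |a| := (dvd_abs a a).2 (dvd_refl a)
      have e2 : (e : ℤ) * a ∣ 2 * e * |a| := by
        rw [mul_assoc]
        exact Dvd.dvd.mul_left (mul_dvd_mul_left _ e1) _
      exact Dvd.dvd.mul_right e2 _
    -- the element modulo `N`
    have hcom : ∀ u v : H ⧸ N, u * v = v * u := by
      intro u v
      induction u using QuotientGroup.induction_on with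
      | H u =>
        induction v using QuotientGroup.induction_on with
        | H v =>
          rw [← QuotientGroup.mk_mul, ← QuotientGroup.mk_mul]
          symm
          rw [QuotientGroup.eq]
          have h8 := hNc u⁻¹ v⁻¹
          have h9 := hNc v⁻¹ u⁻¹
          have e1 : (v * u)⁻¹ * (u * v) = u⁻¹ * v⁻¹ * u⁻¹⁻¹ * v⁻¹⁻¹ := by group
          rw [e1]
          exact h8
    have hX : ((t⁻¹ * x * t : H) : H ⧸ N) = (x : H ⧸ N) := by
      rw [QuotientGroup.mk_mul, hcom, ← QuotientGroup.mk_mul]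
      congr 1
      group
    have hy : (y : H ⧸ N) = (x : H ⧸ N) ^ k := by
      have e1 : y⁻¹ * (t⁻¹ * x * t) ^ k ∈ N := hM3 h1
      rw [← QuotientGroup.eq] at e1
      rw [e1, QuotientGroup.mk_zpow, hX]
    have hxe : (x : H ⧸ N) ^ (e : ℤ) = 1 := by
      rw [zpow_natCast, ← QuotientGroup.mk_pow]
      exact (QuotientGroup.eq_one_iff _).2 (Subgroup.pow_index_mem N x)
    rcases Int.natAbs_eq_natAbs_iff.1 (Int.natAbs_eq_of_dvd_dvd hba hab) with hba' | hba'
    · left
      have e1 : (e : ℤ) ∣ k - 1 := by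
        have e2 : (e : ℤ) * a ∣ (k - 1) * a := by
          have e3 := dvd_trans hel h6
          rw [hba'] at e3
          have e4 : (k - 1) * a = k * a - a := by ring
          rw [e4]
          exact e3
        exact (mul_dvd_mul_iff_right ha1).1 e2
      obtain ⟨v, hv⟩ := e1
      have e2 : k = e * v + 1 := by linear_combination hv
      have e3 : (y : H ⧸ N) = (x : H ⧸ N) := by
        rw [hy, e2, zpow_add, zpow_mul, hxe, one_zpow, one_mul, zpow_one]
      rw [← QuotientGroup.eq]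
      exact e3.symm
    · right
      have e1 : (e : ℤ) ∣ k + 1 := by
        have e2 : (e : ℤ) * a ∣ (k + 1) * a := by
          have e3 := dvd_trans hel h6
          rw [hba'] at e3
          have e4 : (k + 1) * a = k * a - -a := by ring
          rw [e4]
          exact e3
        exact (mul_dvd_mul_iff_right ha1).1 e2
      obtain ⟨v, hv⟩ := e1
      have e2 : k = e * v + (-1) := by linear_combination hv
      have e3 : (y : H ⧸ N) = (x : H ⧸ N)⁻¹ := by
        rw [hy, e2, zpow_add, zpow_mul, hxe, one_zpow, one_mul, zpow_neg_one]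
      have e4 : ((x * y : H) : H ⧸ N) = 1 := by
        rw [QuotientGroup.mk_mul, e3, mul_inv_cancel]
      exact (QuotientGroup.eq_one_iff _).1 e4
  · -- the second element has a smaller level
    unfold Qs at hQ
    push Not at hQ
    obtain ⟨c1, hc1⟩ := hQ
    unfold Up at hc1
    push Not at hc1
    obtain ⟨i1, j1, hij1, hb1⟩ := hc1
    set b1 := (g (c1⁻¹ * z' * c1) - 1) i1 j1 with hb1def
    obtain ⟨M, hM1, hM2, hM3, hM4, hM5⟩ := exists_cong f N (l := b1.natAbs + 1) (by omega)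
    refine ⟨M, hM1, hM2, hM3, ?_⟩
    rintro ⟨t, k, k', h1, h2⟩
    exfalso
    obtain ⟨h3, h4⟩ := hrel M hM1 t k k' h1 h2
    have htz : t⁻¹ * z * t ∈ K' := core_conj hzK t
    have hQt : Qs g s (t⁻¹ * z * t) := Qs_conj hQz t
    have h5 := cong_diff hg hM4 hM5 hz'K h3 c1 i1 j1
    have h6 : (g (c1⁻¹ * (t⁻¹ * z * t) ^ k * c1) - 1) i1 j1 = 0 :=
      (Qs_zpow hg hs htz hQt hij k).1 c1 i1 j1 hij1
    rw [h6, ← hb1def, zero_sub, dvd_neg] at h5
    have h7 := Int.natAbs_dvd_natAbs.2 h5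
    rw [Int.natAbs_natCast] at h7
    have h8 := Nat.le_of_dvd (Int.natAbs_pos.2 hb1) h7
    omega

/-- **the separation property** -/
theorem sep_of_ut (hH : ∀ x : H, x ≠ 1 → ∃ K : Subgroup H, K.FiniteIndex ∧ ∃ (m : ℕ)
    (hm : x ^ m ∈ K) (r : ℕ) (f : K →* Matrix (Fin r) (Fin r) ℤ),
    (∀ k, Up 1 (f k - 1)) ∧ f ⟨x ^ m, hm⟩ ≠ 1) : Sep H := by
  intro N hN hNf hNc x y
  by_cases hx : x = 1
  · refine ⟨N, hN, hNf, le_rfl, ?_⟩
    rintro ⟨t, k, k', h1, _⟩
    left
    rw [hx, mul_one, inv_mul_cancel, one_zpow, mul_one] at h1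
    rw [hx, inv_one, one_mul]
    exact (inv_mem_iff).1 h1
  · obtain ⟨K, hK, m, hm, r, f, hf, hne⟩ := hH x hx
    exact exists_sep N hN hNf hNc x y hK hm f hf hne

end main

end Pool.Agent.V5helper75.RN
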