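import Pool.Agent.V5helper75.RN.Van

/-!
# Separation in finite quotients from homomorphisms to unitriangular integral matrices
-/

set_option autoImplicit false
set_option linter.unusedSectionVars false

namespace Pool.Agent.V5helper75.RN

open Finset

universe u

section up

variable {r : ℕ}

/-- the entries below the `s`-th superdiagonal vanish -/
def Up (s : ℕ) (A : Matrix (Fin r) (Fin r) ℤ) : Prop := ∀ i j : Fin r, (j : ℕ) < i + s → A i j = 0

lemma Up.mono {s t : ℕ} (h : s ≤ t) {A : Matrix (Fin r) (Fin r) ℤ} (hA : Up t A) : Up s A :=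
  fun i j hij => hA i j (by omega)

lemma Up.mul {s t : ℕ} {A B : Matrix (Fin r) (Fin r) ℤ} (hA : Up s A) (hB : Up t B) :
    Up (s + t) (A * B) := by
  intro i j hij
  rw [Matrix.mul_apply]
  apply Finset.sum_eq_zero
  intro k _
  by_cases hk : (k : ℕ) < i + s
  · rw [hA i k hk, zero_mul]
  · rw [hB k j (by omega), mul_zero]

lemma Up.add {s : ℕ} {A B : Matrix (Fin r) (Fin r) ℤ} (hA : Up s A) (hB : Up s B) :
    Up s (A + B) := by
  intro i j hij
  rw [Matrix.add_apply, hA i j hij, hB i j hij, add_zero]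

lemma Up.neg {s : ℕ} {A : Matrix (Fin r) (Fin r) ℤ} (hA : Up s A) : Up s (-A) := by
  intro i j hij
  rw [Matrix.neg_apply, hA i j hij, neg_zero]

lemma Up.zero {s : ℕ} : Up s (0 : Matrix (Fin r) (Fin r) ℤ) := fun _ _ _ => rfl

lemma up_zero_of {U : Matrix (Fin r) (Fin r) ℤ} (hU : Up 1 (U - 1)) : Up 0 U := by
  intro i j hij
  have h1 := hU i j (by omega)
  rw [Matrix.sub_apply, Matrix.one_apply, if_neg (by rintro rfl; omega), sub_zero] at h1
  exact h1

lemma Up.eq_zero {A : Matrix (Fin r) (Fin r) ℤ} (hA : ∀ s, 1 ≤ s → Up s A) : A = 0 := by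
  ext i j
  exact hA (r + 1) (by omega) i j (by omega)

/-- powers of unitriangular matrices -/
lemma up_pow {s : ℕ} (hs : 1 ≤ s) {U : Matrix (Fin r) (Fin r) ℤ} (hU : Up s (U - 1)) (n : ℕ) :
    Up (s + 1) ((U ^ n - 1) - (n : ℤ) • (U - 1)) ∧ Up s (U ^ n - 1) := by
  induction n with
  | zero =>
    refine ⟨?_, ?_⟩
    · rw [pow_zero, sub_self, Nat.cast_zero, zero_smul, sub_zero]
      exact Up.zero
    · rw [pow_zero, sub_self]
      exact Up.zero
  | succ n ih =>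
    obtain ⟨h1, h2⟩ := ih
    have h3 : Up (s + 1) ((U ^ n - 1) * (U - 1)) := (h2.mul hU).mono (by omega)
    have e1 : U ^ (n + 1) - 1 - ((n + 1 : ℕ) : ℤ) • (U - 1) =
        ((U ^ n - 1) - (n : ℤ) • (U - 1)) + (U ^ n - 1) * (U - 1) := by
      rw [pow_succ]
      push_cast
      rw [add_smul, one_smul, sub_mul, mul_sub, mul_one, one_mul]
      abel
    have h4 : Up (s + 1) (U ^ (n + 1) - 1 - ((n + 1 : ℕ) : ℤ) • (U - 1)) := by
      rw [e1]
      exact h1.add h3
    refine ⟨h4, ?_⟩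
    have e2 : U ^ (n + 1) - 1 = (U ^ n - 1) + (U ^ n - 1) * (U - 1) + (U - 1) := by
      rw [pow_succ, sub_mul, mul_sub, mul_one, one_mul]
      abel
    rw [e2]
    exact (h2.add (h3.mono (by omega))).add hU

/-- unitriangular integral matrices have no torsion -/
lemma up_tf {U : Matrix (Fin r) (Fin r) ℤ} (hU : Up 1 (U - 1)) {n : ℕ} (hn : n ≠ 0)
    (h : U ^ n = 1) : U = 1 := by
  have key : ∀ s, 1 ≤ s → Up s (U - 1) := by
    intro s hs
    induction s, hs using Nat.le_induction with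
    | base => exact hU
    | succ s hs ih =>
      have h1 := (up_pow hs ih n).1
      rw [h, sub_self, zero_sub] at h1
      intro i j hij
      have h2 := h1 i j hij
      rw [Matrix.neg_apply, neg_eq_zero, Matrix.smul_apply, smul_eq_mul] at h2
      rcases mul_eq_zero.1 h2 with h3 | h3
      · exact absurd (by exact_mod_cast h3) hn
      · exact h3
  exact sub_eq_zero.1 (Up.eq_zero key)

end up

section grp

variable {H : Type u} [Group H] {K : Subgroup H} {r : ℕ} {g : H → Matrix (Fin r) (Fin r) ℤ}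

/-- a homomorphism on `K` with unitriangular values, extended to a function on the group -/
structure UTf (K : Subgroup H) (g : H → Matrix (Fin r) (Fin r) ℤ) : Prop where
  one : g 1 = 1
  mul : ∀ w ∈ K, ∀ w' ∈ K, g (w * w') = g w * g w'
  up : ∀ w, Up 1 (g w - 1)

/-- the level, with respect to all conjugates -/
def Qs (g : H → Matrix (Fin r) (Fin r) ℤ) (s : ℕ) (w : H) : Prop :=
  ∀ c : H, Up s (g (c⁻¹ * w * c) - 1)

variable (hg : UTf K g)

lemma core_conj {w : H} (hw : w ∈ K.normalCore) (c : H) : c⁻¹ * w * c ∈ K.normalCore := by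
  have := (Subgroup.normalCore_normal K).conj_mem w hw c⁻¹
  rwa [inv_inv] at this

lemma core_conj' {w : H} (hw : w ∈ K.normalCore) (c : H) : c⁻¹ * w * c ∈ K :=
  Subgroup.normalCore_le K (core_conj hw c)

include hg in
lemma Qs_mul {s : ℕ} (hs : 1 ≤ s) {w w' : H} (hw : w ∈ K.normalCore) (hw' : w' ∈ K.normalCore)
    (h : Qs g s w) (h' : Qs g s w') :
    Qs g s (w * w') ∧ ∀ c, Up (s + 1) ((g (c⁻¹ * (w * w') * c) - 1) -
      ((g (c⁻¹ * w * c) - 1) + (g (c⁻¹ * w' * c) - 1))) := by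
  have e1 : ∀ c, g (c⁻¹ * (w * w') * c) = g (c⁻¹ * w * c) * g (c⁻¹ * w' * c) := by
    intro c
    rw [← hg.mul _ (core_conj' hw c) _ (core_conj' hw' c)]
    congr 1
    group
  have e2 : ∀ c, Up (s + 1) ((g (c⁻¹ * w * c) - 1) * (g (c⁻¹ * w' * c) - 1)) := by
    intro c
    exact ((h c).mul (h' c)).mono (by omega)
  refine ⟨?_, ?_⟩
  · intro c
    have e3 : g (c⁻¹ * (w * w') * c) - 1 = (g (c⁻¹ * w * c) - 1) + (g (c⁻¹ * w' * c) - 1) +
        (g (c⁻¹ * w * c) - 1) * (g (c⁻¹ * w' * c) - 1) := by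
      rw [e1, sub_mul, mul_sub, mul_one, one_mul]
      abel
    rw [e3]
    exact ((h c).add (h' c)).add ((e2 c).mono (by omega))
  · intro c
    have e3 : (g (c⁻¹ * (w * w') * c) - 1) -
      ((g (c⁻¹ * w * c) - 1) + (g (c⁻¹ * w' * c) - 1)) =
        (g (c⁻¹ * w * c) - 1) * (g (c⁻¹ * w' * c) - 1) := by
      rw [e1, sub_mul, mul_sub, mul_one, one_mul]
      abel
    rw [e3]
    exact e2 c

include hg in
lemma Qs_one (s : ℕ) : Qs g s 1 := by
  intro c
  rw [mul_one, inv_mul_cancel, hg.one, sub_self]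
  exact Up.zero

include hg in
lemma Qs_inv {s : ℕ} {w : H} (hw : w ∈ K.normalCore) (h : Qs g s w) : Qs g s w⁻¹ := by
  intro c
  have h1 : g (c⁻¹ * w⁻¹ * c) * g (c⁻¹ * w * c) = 1 := by
    rw [← hg.mul _ (core_conj' (inv_mem hw) c) _ (core_conj' hw c)]
    have : c⁻¹ * w⁻¹ * c * (c⁻¹ * w * c) = 1 := by group
    rw [this, hg.one]
  have h2 : g (c⁻¹ * w⁻¹ * c) - 1 = -(g (c⁻¹ * w⁻¹ * c) * (g (c⁻¹ * w * c) - 1)) := by
    rw [mul_sub, h1, mul_one]
    abel
  rw [h2]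
  have h3 := ((up_zero_of (hg.up (c⁻¹ * w⁻¹ * c))).mul (h c)).neg
  rwa [Nat.zero_add] at h3

/-- the coordinate -/
def lam' (g : H → Matrix (Fin r) (Fin r) ℤ) (i j : Fin r) (c w : H) : ℤ :=
  (g (c⁻¹ * w * c) - 1) i j

include hg in
lemma lam_mul {s : ℕ} (hs : 1 ≤ s) {w w' : H} (hw : w ∈ K.normalCore) (hw' : w' ∈ K.normalCore)
    (h : Qs g s w) (h' : Qs g s w') {i j : Fin r} (hij : (j : ℕ) = i + s) (c : H) :
    lam' g i j c (w * w') = lam' g i j c w + lam' g i j c w' := by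
  have h1 := (Qs_mul hg hs hw hw' h h').2 c i j (by omega)
  rw [Matrix.sub_apply, Matrix.add_apply, sub_eq_zero] at h1
  exact h1

include hg in
lemma Qs_pow {s : ℕ} (hs : 1 ≤ s) {w : H} (hw : w ∈ K.normalCore) (h : Qs g s w) {i j : Fin r}
    (hij : (j : ℕ) = i + s) (k : ℕ) :
    Qs g s (w ^ k) ∧ ∀ c, lam' g i j c (w ^ k) = k * lam' g i j c w := by
  induction k with
  | zero =>
    refine ⟨by rw [pow_zero]; exact Qs_one hg s, ?_⟩
    intro c
    rw [pow_zero, Nat.cast_zero, zero_mul]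
    exact Qs_one hg (s + 1) c i j (by omega)
  | succ k ih =>
    refine ⟨?_, ?_⟩
    · rw [pow_succ]
      exact (Qs_mul hg hs (pow_mem hw k) hw ih.1 h).1
    · intro c
      rw [pow_succ, lam_mul hg hs (pow_mem hw k) hw ih.1 h hij, ih.2]
      push_cast
      ring

include hg in
lemma Qs_zpow {s : ℕ} (hs : 1 ≤ s) {w : H} (hw : w ∈ K.normalCore) (h : Qs g s w) {i j : Fin r}
    (hij : (j : ℕ) = i + s) (k : ℤ) :
    Qs g s (w ^ k) ∧ ∀ c, lam' g i j c (w ^ k) = k * lam' g i j c w := by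
  rcases Int.eq_nat_or_neg k with ⟨n, rfl | rfl⟩
  · rw [zpow_natCast]
    obtain ⟨h1, h2⟩ := Qs_pow hg hs hw h hij n
    exact ⟨h1, fun c => by rw [h2]⟩
  · rw [zpow_neg, zpow_natCast]
    obtain ⟨h1, h2⟩ := Qs_pow hg hs hw h hij n
    have h3 := Qs_inv hg (pow_mem hw n) h1
    refine ⟨h3, ?_⟩
    intro c
    have h4 := lam_mul hg hs (inv_mem (pow_mem hw n)) (pow_mem hw n) h3 h1 hij c
    rw [inv_mul_cancel, h2] at h4
    have h5 : lam' g i j c 1 = 0 := Qs_one hg (s + 1) c i j (by omega)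
    rw [h5] at h4
    linear_combination -h4

lemma Qs_conj {s : ℕ} {w : H} (h : Qs g s w) (t : H) : Qs g s (t⁻¹ * w * t) := by
  intro c
  have : c⁻¹ * (t⁻¹ * w * t) * c = (t * c)⁻¹ * w * (t * c) := by group
  rw [this]
  exact h (t * c)

lemma lam_conj (i j : Fin r) (c t w : H) : lam' g i j c (t⁻¹ * w * t) = lam' g i j (t * c) w := by
  unfold lam'
  have : c⁻¹ * (t⁻¹ * w * t) * c = (t * c)⁻¹ * w * (t * c) := by group
  rw [this]

include hg in
/-- the coordinate only depends on the coset -/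
lemma lam_coset {s : ℕ} {w : H} (hw : w ∈ K.normalCore) (h : Qs g s w)
    {i j : Fin r} (hij : (j : ℕ) = i + s) (c : H) {q : H} (hq : q ∈ K.normalCore) :
    lam' g i j (c * q) w = lam' g i j c w := by
  have hqK : q ∈ K := Subgroup.normalCore_le K hq
  have huK : c⁻¹ * w * c ∈ K := core_conj' hw c
  unfold lam'
  have e0 : (c * q)⁻¹ * w * (c * q) = q⁻¹ * (c⁻¹ * w * c) * q := by group
  have e1 : g (q⁻¹ * (c⁻¹ * w * c) * q) = g q⁻¹ * g (c⁻¹ * w * c) * g q := by
    rw [hg.mul _ (mul_mem (inv_mem hqK) huK) _ hqK, hg.mul _ (inv_mem hqK) _ huK]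
  have e2 : g q⁻¹ * g q = 1 := by
    rw [← hg.mul _ (inv_mem hqK) _ hqK, inv_mul_cancel, hg.one]
  have e3 : g q⁻¹ * g (c⁻¹ * w * c) * g q - 1 = (g (c⁻¹ * w * c) - 1) +
      (g q⁻¹ - 1) * (g (c⁻¹ * w * c) - 1) * g q + (g (c⁻¹ * w * c) - 1) * (g q - 1) := by
    have e4 : (g q⁻¹ - 1) * (g (c⁻¹ * w * c) - 1) * g q =
        g q⁻¹ * g (c⁻¹ * w * c) * g q - g q⁻¹ * g q - g (c⁻¹ * w * c) * g q + g q := by
      rw [sub_mul, one_mul, mul_sub, mul_one, sub_mul, sub_mul, sub_mul, one_mul]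
      abel
    rw [e4, e2, mul_sub, mul_one, sub_mul, one_mul]
    abel
  have h1 : Up (s + 1) ((g q⁻¹ - 1) * (g (c⁻¹ * w * c) - 1) * g q) :=
    (((hg.up q⁻¹).mul (h c)).mul (up_zero_of (hg.up q))).mono (by omega)
  have h2 : Up (s + 1) ((g (c⁻¹ * w * c) - 1) * (g q - 1)) :=
    ((h c).mul (hg.up q)).mono (by omega)
  rw [e0, e1, e3, Matrix.add_apply, Matrix.add_apply, h1 i j (by omega), h2 i j (by omega),
    add_zero, add_zero]

end grp

end Pool.Agent.V5helper75.RN
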