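import Pool.Agent.V5helper75.RN.Rat

/-!
# Vanishing of the slice sum over symmetric classes in commutative quotients
-/

set_option autoImplicit false
set_option linter.unusedSectionVars false

namespace Pool.Agent.V5helper75.RN

open Finset Pool.Agent.H23R2 H219.Wh Pool.Agent.Y72.Log
open scoped Classical

universe u

/-- `x` and `y` generate conjugate subgroups modulo `M` -/
def Rel {H : Type*} [Group H] (M : Subgroup H) (x y : H) : Prop :=
  ∃ (t : H) (k k' : ℤ), y⁻¹ * (t⁻¹ * x * t) ^ k ∈ M ∧ (t⁻¹ * x * t)⁻¹ * y ^ k' ∈ M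

/-- elements which generate conjugate subgroups in all finite quotients are equal or inverse to
each other in all finite commutative quotients -/
def Sep (H : Type*) [Group H] : Prop :=
  ∀ N : Subgroup H, N.Normal → N.FiniteIndex → (∀ a b : H, a * b * a⁻¹ * b⁻¹ ∈ N) → ∀ x y : H,
    ∃ M : Subgroup H, M.Normal ∧ M.FiniteIndex ∧ M ≤ N ∧
      (Rel M x y → x⁻¹ * y ∈ N ∨ x * y ∈ N)

/-- all finitely generated groups embedded in `Γ` have the property `Sep` -/
def SepU (Γ : Type u) [Group Γ] : Prop :=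
  ∀ (H : Type u) [Group H] [Group.FG H] (j : H →* Γ), Function.Injective j → Sep H

lemma SepU.subgroup {Γ : Type u} [Group Γ] (h : SepU Γ) (K : Subgroup Γ) : SepU K := by
  intro H _ _ j hj
  exact h H (K.subtype.comp j) (K.subtype_injective.comp hj)

section zp

variable {R : Type*} [Group R]

lemma zp_conj {x y : R} (h : Subgroup.zpowers x = Subgroup.zpowers y) (u : R) :
    Subgroup.zpowers (u⁻¹ * x * u) = Subgroup.zpowers (u⁻¹ * y * u) := by
  have key : ∀ {x y : R}, x ∈ Subgroup.zpowers y →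
      u⁻¹ * x * u ∈ Subgroup.zpowers (u⁻¹ * y * u) := by
    intro x y hxy
    obtain ⟨k, rfl⟩ := Subgroup.mem_zpowers_iff.1 hxy
    refine Subgroup.mem_zpowers_iff.2 ⟨k, ?_⟩
    have := conj_zpow (i := k) (a := u⁻¹) (b := y)
    rwa [inv_inv] at this
  apply le_antisymm
  · rw [Subgroup.zpowers_le]
    exact key (h ▸ Subgroup.mem_zpowers x)
  · rw [Subgroup.zpowers_le]
    exact key (h ▸ Subgroup.mem_zpowers y)

lemma zp_map {Q : Type*} [Group Q] (f : R →* Q) {x y : R}
    (h : Subgroup.zpowers x = Subgroup.zpowers y) :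
    Subgroup.zpowers (f x) = Subgroup.zpowers (f y) := by
  have := congrArg (Subgroup.map f) h
  rwa [MonoidHom.map_zpowers, MonoidHom.map_zpowers] at this

end zp

section ip

variable {I S : Type*} [Fintype I] [Fintype S] {Γ : Type*} [Group Γ] {gr : S → Γ}
  {A B : I → I → S → ℤ}

/-- contraction of a pair -/
lemma pair_ab' {M : Type*} [AddCommGroup M]
    (hab : ∀ i i' g, ∑ j, ∑ a, ∑ b, (if gr a * gr b = g then A i j a * B j i' b else 0)
      = if i = i' ∧ g = 1 then 1 else 0) (k i : I) (φ : Γ → M) :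
    ∑ l, ∑ c, ∑ d, (A k l c * B l i d) • φ (gr c * gr d) = if k = i then φ 1 else 0 := by
  let T : Finset Γ := insert 1 ((Finset.univ : Finset (S × S)).image (fun y => gr y.1 * gr y.2))
  have hT : ∀ c d, gr c * gr d ∈ T := fun c d => Finset.mem_insert_of_mem
    (Finset.mem_image_of_mem (fun y : S × S => gr y.1 * gr y.2) (Finset.mem_univ (c, d)))
  have h1 : ∀ l c d, (A k l c * B l i d) • φ (gr c * gr d) =
      ∑ g ∈ T, (if gr c * gr d = g then A k l c * B l i d else 0) • φ g := by
    intro l c d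
    simp only [ite_smul, zero_smul]
    rw [Finset.sum_ite_eq, if_pos (hT c d)]
  simp_rw [h1]
  have h2 : ∑ l, ∑ c, ∑ d, ∑ g ∈ T, (if gr c * gr d = g then A k l c * B l i d else 0) • φ g =
      ∑ g ∈ T, (∑ l, ∑ c, ∑ d, (if gr c * gr d = g then A k l c * B l i d else 0)) • φ g := by
    simp_rw [Finset.sum_smul]
    symm
    rw [Finset.sum_comm]
    apply Finset.sum_congr rfl
    intro l _
    rw [Finset.sum_comm]
    apply Finset.sum_congr rfl
    intro c _
    rw [Finset.sum_comm]
  rw [h2]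
  simp_rw [hab]
  simp only [ite_smul, one_smul, zero_smul]
  by_cases hk : k = i
  · rw [if_pos hk]
    simp only [hk, true_and]
    rw [Finset.sum_ite_eq', if_pos (Finset.mem_insert_self _ _)]
  · rw [if_neg hk]
    simp only [hk, false_and, if_false, Finset.sum_const_zero]

lemma tot_half {R : Type*} [Group R] [Fintype R] (f : Γ →* R)
    (hab : ∀ i i' g, ∑ j, ∑ a, ∑ b, (if gr a * gr b = g then A i j a * B j i' b else 0)
      = if i = i' ∧ g = 1 then 1 else 0) (i i' : I) (g : R) :
    ∑ j, ∑ a, ∑ b, (if a * b = g then tot (fun s => f (gr s)) A i j a *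
      tot (fun s => f (gr s)) B j i' b else 0) = if i = i' ∧ g = 1 then 1 else 0 := by
  have h1 := pair_ab' (M := ℤ) hab i i' (fun h => if f h = g then 1 else 0)
  have h2 : ∀ j, ∑ a, ∑ b, (if a * b = g then tot (fun s => f (gr s)) A i j a *
      tot (fun s => f (gr s)) B j i' b else 0) =
      ∑ c, ∑ d, (A i j c * B j i' d) • (if f (gr c * gr d) = g then (1 : ℤ) else 0) := by
    intro j
    have h3 : ∀ a b : R, (if a * b = g then tot (fun s => f (gr s)) A i j a *
        tot (fun s => f (gr s)) B j i' b else 0) =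
        ∑ c with f (gr c) = a, ∑ d with f (gr d) = b,
          (A i j c * B j i' d) • (if f (gr c * gr d) = g then (1 : ℤ) else 0) := by
      intro a b
      unfold tot
      rw [Finset.sum_mul_sum]
      by_cases hab : a * b = g
      · rw [if_pos hab]
        apply Finset.sum_congr rfl
        intro c hc
        apply Finset.sum_congr rfl
        intro d hd
        rw [Finset.mem_filter] at hc hd
        have hc2 : f (gr c) = a := hc.2
        have hd2 : f (gr d) = b := hd.2
        rw [map_mul, hc2, hd2, if_pos hab, smul_eq_mul, mul_one]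
      · rw [if_neg hab]
        symm
        apply Finset.sum_eq_zero
        intro c hc
        apply Finset.sum_eq_zero
        intro d hd
        rw [Finset.mem_filter] at hc hd
        have hc2 : f (gr c) = a := hc.2
        have hd2 : f (gr d) = b := hd.2
        rw [map_mul, hc2, hd2, if_neg hab, smul_zero]
    simp_rw [h3]
    rw [← Finset.sum_fiberwise (s := (Finset.univ : Finset S)) (g := fun c => f (gr c))]
    apply Finset.sum_congr rfl
    intro a _
    rw [Finset.sum_comm]
    apply Finset.sum_congr rfl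
    intro c _
    rw [← Finset.sum_fiberwise (s := (Finset.univ : Finset S)) (g := fun c => f (gr c))]
  simp_rw [h2]
  rw [h1, map_one]
  by_cases hi : i = i'
  · simp only [hi, if_true, true_and, eq_comm]
  · simp only [hi, if_false, false_and]

/-- the images in a finite group -/
lemma ip_tot {R : Type*} [Group R] [Fintype R] (f : Γ →* R) (h : IP gr A B) :
    IP (id : R → R) (tot (fun s => f (gr s)) A) (tot (fun s => f (gr s)) B) :=
  ⟨fun i i' g => tot_half f h.ab i i' g, fun i i' g => tot_half f h.ba i i' g⟩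

/-- the letters in the subgroup generated by them -/
lemma ip_closure (h : IP gr A B) (gr' : S → Subgroup.closure (Set.range gr))
    (hgr : ∀ s, ((gr' s : Subgroup.closure (Set.range gr)) : Γ) = gr s) : IP gr' A B := by
  have key : ∀ (A B : I → I → S → ℤ), (∀ i i' g, ∑ j, ∑ a, ∑ b,
      (if gr a * gr b = g then A i j a * B j i' b else 0) = if i = i' ∧ g = 1 then 1 else 0) →
      ∀ i i' g, ∑ j, ∑ a, ∑ b,
      (if gr' a * gr' b = g then A i j a * B j i' b else 0) = if i = i' ∧ g = 1 then 1 else 0 := by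
    intro A B hh i i' g
    have h1 := hh i i' (g : Γ)
    have h2 : ∀ a b, (gr a * gr b = (g : Γ)) ↔ (gr' a * gr' b = g) := by
      intro a b
      rw [Subtype.ext_iff, Subgroup.coe_mul, hgr, hgr]
    have h3 : ((g : Γ) = 1) ↔ (g = 1) := by
      rw [Subtype.ext_iff, Subgroup.coe_one]
    simp only [h2, h3] at h1
    exact h1
  exact ⟨fun i i' g => by convert key A B h.ab i i' g,
    fun i i' g => by convert key B A h.ba i i' g⟩

end ip

section main

variable {I S : Type*} [Fintype I] [Fintype S] {Γ : Type u} [Group Γ] {gr : S → Γ}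
  {A B : I → I → S → ℤ} {p : ℕ}

/-- the slice sum only depends on the words -/
lemma EE_congr {m : ℕ} [NeZero m] {P P' : Γ → Prop} {κ : (ZMod m → Γ) → ZMod m}
    (h : ∀ o : ZMod m → Yy I S, RR gr P o ↔ RR gr P' o) : EE gr A B P κ = EE gr A B P' κ := by
  unfold EE
  apply Finset.sum_congr _ (fun _ _ => rfl)
  ext o
  simp only [Finset.mem_filter, Finset.mem_univ, true_and]
  rw [h]

/-- **vanishing of the slice sum** -/
theorem EE_van2 {Q : Type*} [Group Q] [Finite Q] (hcomm : ∀ a b : Q, a * b = b * a)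
    (hp : p.Prime) (h : IP gr A B) (hs : Sep (Subgroup.closure (Set.range gr)))
    (φ : Γ →* Q) {q0 : Q}
    (hP : IsCls p (fun q : Q => Subgroup.zpowers q = Subgroup.zpowers q0)) {i m : ℕ} [NeZero m]
    (hm : m = p ^ (i + 1)) {κ : (ZMod m → Q) → ZMod m}
    (hκ : IsPh (fun q : Q => Subgroup.zpowers q = Subgroup.zpowers q0) κ) :
    (p : ℤ) ^ (i + 1) ∣ EE (fun s => φ (gr s)) A B (fun q => q = q0 ∨ q = q0⁻¹) κ := by
  let H := Subgroup.closure (Set.range gr)
  let gr' : S → H := fun s => ⟨gr s, Subgroup.subset_closure (Set.mem_range_self s)⟩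
  have h' : IP gr' A B := ip_closure h gr' (fun _ => rfl)
  let φ' : H →* Q := φ.comp H.subtype
  have e0 : EE (fun s => φ (gr s)) A B (fun q => q = q0 ∨ q = q0⁻¹) κ =
      EE (fun s => φ' (gr' s)) A B (fun q => q = q0 ∨ q = q0⁻¹) κ := rfl
  rw [e0]
  let N : Subgroup H := φ'.ker
  have hNfi : N.FiniteIndex := by
    have : Finite (H ⧸ N) := Finite.of_injective _ (QuotientGroup.kerLift_injective φ')
    exact Subgroup.finiteIndex_of_finite_quotient
  have hNc : ∀ a b : H, a * b * a⁻¹ * b⁻¹ ∈ N := by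
    intro a b
    show φ' _ = 1
    rw [map_mul, map_mul, map_mul, map_inv, map_inv, hcomm (φ' a) (φ' b)]
    group
  have hM0 := fun x y => hs N inferInstance hNfi hNc x y
  choose M hM1 hM2 hM3 hM4 using hM0
  let F : Finset H := (Finset.univ : Finset (ZMod m → Yy I S)).image (fun o => W (UU gr' o) 0)
  let M0 : Subgroup H := N ⊓ ⨅ z : F × F, M z.1 z.2
  have hM0n : M0.Normal := by
    have : (⨅ z : F × F, M z.1 z.2).Normal :=
      Subgroup.normal_iInf_normal (fun z => hM1 _ _)
    exact Subgroup.normal_inf_normal _ _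
  have hM0f : M0.FiniteIndex := by
    have e1 : (⨅ z : F × F, M z.1 z.2).FiniteIndex :=
      Subgroup.finiteIndex_iInf (fun z => hM2 _ _)
    exact inferInstance
  have hM0N : M0 ≤ N := inf_le_left
  let R := H ⧸ M0
  have : Finite R := inferInstance
  have : Fintype R := Fintype.ofFinite R
  let mk : H →* R := QuotientGroup.mk' M0
  let φb : R →* Q := QuotientGroup.lift M0 φ' hM0N
  have hφb : ∀ x, φb (mk x) = φ' x := fun x => rfl
  let D : R → Prop := fun z => ∃ x : H, x ∈ F ∧ (φ' x = q0 ∨ φ' x = q0⁻¹) ∧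
    ∃ t : R, Subgroup.zpowers z = Subgroup.zpowers (t⁻¹ * mk x * t)
  have hDgen : ∀ z, D z → Subgroup.zpowers (φb z) = Subgroup.zpowers q0 := by
    rintro z ⟨x, _, hx, t, ht⟩
    have h1 := zp_map φb ht
    rw [h1, map_mul, map_mul, map_inv, hcomm, ← mul_assoc, mul_inv_cancel, one_mul, hφb]
    rcases hx with hx | hx
    · rw [hx]
    · rw [hx, Subgroup.zpowers_inv]
  have hD : IsCls p D := by
    refine ⟨?_, ?_⟩
    · rintro w u ⟨x, hxF, hx, t, ht⟩
      refine ⟨x, hxF, hx, t * u, ?_⟩
      have h1 := zp_conj ht u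
      rw [h1]
      congr 1
      group
    · intro u hu
      have h1 := hDgen _ hu
      rw [map_pow] at h1
      exact hP.npow _ h1
  have hDg : ∀ x y, D x → Subgroup.zpowers x = Subgroup.zpowers y → D y := by
    rintro x y ⟨x0, hxF, hx, t, ht⟩ hxy
    exact ⟨x0, hxF, hx, t, hxy ▸ ht⟩
  let κR : (ZMod m → R) → ZMod m := fun w => κ (fun l => φb (w l))
  have hκR : IsPh D κR := by
    intro g hg c
    show κ (fun l => φb (shift c g l)) = κ (fun l => φb (g l)) + c
    have h1 := hκ (fun l => φb (g l)) (by rw [W_map]; exact hDgen _ hg) c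
    rw [← h1]
    rfl
  have h1 := EE_rat (ip_tot mk h') hp hD hDg hm hκR
  rw [← EE_tot (fun s => mk (gr' s)), ← EE_comp mk] at h1
  rw [← EE_comp φ']
  have h2 : EE gr' A B (fun g => D (mk g)) (fun g => κR (fun l => mk (g l))) =
      EE gr' A B (fun g => φ' g = q0 ∨ φ' g = q0⁻¹) (fun g => κ (fun l => φ' (g l))) := by
    apply EE_congr
    intro o
    have hoF : W (UU gr' o) 0 ∈ F := Finset.mem_image_of_mem _ (Finset.mem_univ o)
    show D (mk (W (UU gr' o) 0)) ↔ (φ' (W (UU gr' o) 0) = q0 ∨ φ' (W (UU gr' o) 0) = q0⁻¹)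
    generalize W (UU gr' o) 0 = y at hoF
    constructor
    · rintro ⟨x, hxF, hx, t, ht⟩
      obtain ⟨t0, rfl⟩ := QuotientGroup.mk'_surjective M0 t
      have e1 : mk y ∈ Subgroup.zpowers ((mk t0)⁻¹ * mk x * mk t0) :=
        ht ▸ Subgroup.mem_zpowers (mk y)
      have e2 : (mk t0)⁻¹ * mk x * mk t0 ∈ Subgroup.zpowers (mk y) :=
        ht ▸ Subgroup.mem_zpowers _
      obtain ⟨k, hk⟩ := Subgroup.mem_zpowers_iff.1 e1
      obtain ⟨k', hk'⟩ := Subgroup.mem_zpowers_iff.1 e2
      have hle : M0 ≤ M x y := inf_le_right.trans (iInf_le _ ((⟨x, hxF⟩, ⟨y, hoF⟩) : F × F))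
      have hrel : Rel (M x y) x y := by
        refine ⟨t0, k, k', ?_, ?_⟩
        · apply hle
          rw [← QuotientGroup.eq]
          exact hk.symm
        · apply hle
          rw [← QuotientGroup.eq]
          exact hk'.symm
      rcases hM4 x y hrel with h5 | h5
      · have h6 : φ' x⁻¹ * φ' y = 1 := by rw [← map_mul]; exact h5
        rw [map_inv] at h6
        have h7 : φ' y = φ' x := (inv_mul_eq_one.1 h6).symm
        rw [h7]
        exact hx
      · have h6 : φ' x * φ' y = 1 := by rw [← map_mul]; exact h5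
        have h7 : φ' y = (φ' x)⁻¹ := (inv_eq_of_mul_eq_one_right h6).symm
        rw [h7]
        rcases hx with hx | hx
        · right
          rw [hx]
        · left
          rw [hx, inv_inv]
    · intro hy
      refine ⟨y, hoF, hy, 1, ?_⟩
      rw [inv_one, one_mul, mul_one]
  rw [← h2]
  exact h1

/-- the congruence for the traces -/
theorem trace_van2 {Q : Type*} [Group Q] [Fintype Q] (hcomm : ∀ a b : Q, a * b = b * a)
    (hp : p.Prime) (h : IP gr A B) (hs : Sep (Subgroup.closure (Set.range gr)))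
    (φ : Γ →* Q) {q0 : Q}
    (hP : IsCls p (fun q : Q => Subgroup.zpowers q = Subgroup.zpowers q0)) {a : ℕ} (ha : 1 ≤ a)
    (hnA : NearOne ((p : ℤ) ^ a) (tot (fun s => φ (gr s)) A))
    (hnB : NearOne ((p : ℤ) ^ a) (tot (fun s => φ (gr s)) B)) :
    (p : ℤ) ^ (2 * a) ∣ ∑ g with (g = q0 ∨ g = q0⁻¹), ∑ i, tot (fun s => φ (gr s)) A i i g := by
  obtain ⟨i, hi⟩ : ∃ i, 2 * a = i + 1 := ⟨2 * a - 1, by omega⟩
  have : NeZero (p ^ (i + 1)) := ⟨pow_ne_zero _ hp.ne_zero⟩
  obtain ⟨κ, hκ⟩ := exists_isPh (m := p ^ (i + 1)) hp rfl hP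
  have h1 := EE_van2 hcomm hp h hs φ hP rfl hκ
  rw [EE_tot] at h1
  have hsub : ∀ g : Q, (g = q0 ∨ g = q0⁻¹) → Subgroup.zpowers g = Subgroup.zpowers q0 := by
    rintro g (rfl | rfl)
    · rfl
    · exact Subgroup.zpowers_inv
  have hP2 : IsCls p (fun q : Q => q = q0 ∨ q = q0⁻¹) := by
    refine ⟨?_, fun x hx => hP.npow x (hsub _ hx)⟩
    intro w x hw
    have e1 : x⁻¹ * w * x = w := by
      rw [hcomm, ← mul_assoc, mul_inv_cancel, one_mul]
    rw [e1]
    exact hw
  have h2 := near hp hP2 rfl hnA hnB (hκ.mono hsub)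
  rw [hi] at h2 ⊢
  have h3 := dvd_sub h1 h2
  rw [sub_sub_cancel] at h3
  refine dvd_trans h3 (dvd_of_eq ?_)
  apply Finset.sum_congr _ (fun _ _ => rfl)
  ext g
  simp only [Finset.mem_filter]

end main

end Pool.Agent.V5helper75.RN
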